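import Pool.Agent.Lib.MP_aa40d3_nt.MR.Present3
import Pool.Agent.Lib.MP_aa40d3_nt.GR2.ModelEx2

/-! Existence of the family. -/

open Polynomial Matrix

namespace Pool.Agent.GR

variable {n r : ℕ}

theorem modelex3_abs {R : Type} [CommRing R] (ev : R →+* ℂ) (G : R) (hG : ev G ≠ 0) :
    ∃ (Λ : Type) (_ : CommRing Λ) (ι : Λ →+* ℂ) (π : R →+* Λ) (g : Λ),
      Function.Injective ι ∧ π G * g = 1 ∧ (∀ q, ι (π q) = ev q) ∧
      ∀ (k : Type) [Field k] (ev' : R →+* k), (∀ q, ev q = 0 → ev' q = 0) →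
        ev' G ≠ 0 → ∃ φ : Λ →+* k, ∀ q, φ (π q) = ev' q := by
  classical
  let I : Ideal R := RingHom.ker ev
  have key : ∀ (k : Type) [Field k] (ev' : R →+* k), (∀ q, ev q = 0 → ev' q = 0) → ev' G ≠ 0 →
      ∃ j : R ⧸ I →+* k, (∀ q, j (Ideal.Quotient.mk I q) = ev' q) ∧
        IsUnit (j (Ideal.Quotient.mk I G)) := by
    intro k _ ev' h1 h2
    refine ⟨Ideal.Quotient.lift I ev' fun q hq => h1 q hq, fun q => rfl, ?_⟩
    rw [Ideal.Quotient.lift_mk]
    exact isUnit_iff_ne_zero.2 h2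
  obtain ⟨j, hj, hju⟩ := key ℂ ev (fun _ h => h) hG
  have hjinj : Function.Injective j := by
    rw [injective_iff_map_eq_zero]
    intro x hx
    obtain ⟨q, rfl⟩ := Ideal.Quotient.mk_surjective x
    rw [hj] at hx
    exact Ideal.Quotient.eq_zero_iff_mem.2 hx
  let y : R ⧸ I := Ideal.Quotient.mk I G
  refine ⟨Localization.Away y, inferInstance, IsLocalization.Away.lift y hju,
    (algebraMap (R ⧸ I) (Localization.Away y)).comp (Ideal.Quotient.mk I),
    IsLocalization.Away.invSelf y, ?_, ?_, ?_, ?_⟩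
  · unfold IsLocalization.Away.lift
    rw [IsLocalization.lift_injective_iff]
    intro a b
    constructor
    · intro h
      have h2 := congrArg (IsLocalization.Away.lift (S := Localization.Away y) y hju) h
      simpa [IsLocalization.Away.lift_eq] using h2
    · intro h
      rw [hjinj h]
  · exact IsLocalization.Away.mul_invSelf y
  · intro q
    rw [RingHom.comp_apply, IsLocalization.Away.lift_eq, hj]
  · intro k _ ev' h1 h2
    obtain ⟨j', hj', hju'⟩ := key k ev' h1 h2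
    refine ⟨IsLocalization.Away.lift y hju', fun q => ?_⟩
    rw [RingHom.comp_apply, IsLocalization.Away.lift_eq, hj']

theorem modelex3_ring {σ : Type} (w : σ → ℂ) (θ : ℂ) (G : MvPolynomial σ ℤ) (hG : ev1 w G ≠ 0) :
    ∃ (Λ : Type) (_ : CommRing Λ) (ι : Λ →+* ℂ) (π : (MvPolynomial σ ℤ)[X] →+* Λ) (g : Λ),
      Function.Injective ι ∧ π (C G) * g = 1 ∧ (∀ q, ι (π q) = ev2 w θ q) ∧
      ∀ (k : Type) [Field k] (w' : σ → k) (θ' : k), (∀ q, ev2 w θ q = 0 → ev2 w' θ' q = 0) →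
        ev1 w' G ≠ 0 → ∃ φ : Λ →+* k, ∀ q, φ (π q) = ev2 w' θ' q := by
  obtain ⟨Λ, _, ι, π, g, h1, h2, h3, h4⟩ :=
    modelex3_abs (ev2 w θ) (C G) (by rwa [modelex_ev2_C])
  exact ⟨Λ, inferInstance, ι, π, g, h1, h2, h3, fun k _ w' θ' a b =>
    h4 k (ev2 w' θ') a (by rwa [modelex_ev2_C])⟩

theorem exists_model3 [NeZero r] {Mov : Finset (Fin n)} {t : Fin n → ℂ}
    (htinj : Function.Injective t) (ht : Gen Mov t)
    {A : Fin n → Matrix (Fin r) (Fin r) ℂ} {D : ℕ} (hD : 0 < D)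
    {a : Fin n → Fin r → ℤ} (hch : ∀ i, ((D : ℂ) • A i).charpoly = ∏ j, (X - C (a i j : ℂ)))
    (hc : cycH 1 (dl t) (pm t A) ≠ 0) (hpc : PC t A) :
    ∃ (M : Model3 n r Mov) (w : Fin n ⊕ Fin M.m → ℂ) (θ : ℂ), M.D = D ∧ M.a = a ∧
      (∀ z ∈ M.Z, ev1 w z = 0) ∧ ev2 w θ M.F3 = 0 ∧ ev1 w M.G ≠ 0 ∧ (∀ i, w (Sum.inl i) = t i) ∧
      M.toModel2.mA w θ = A := by
  classical
  obtain ⟨S, P0, hS⟩ := hpc
  obtain ⟨e, he⟩ : ∃ e, (cycH 1 (dl t) (pm t A)).coeff e ≠ 0 := by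
    by_contra h
    push Not at h
    exact hc (Polynomial.ext fun e => by simpa using h e)
  let x : ℂ := (cycH 1 (dl t) (pm t A)).coeff e
  let S' : Finset ℂ := S ∪ (Finset.univ.image fun p : Fin n × Fin r × Fin r => A p.1 p.2.1 p.2.2) ∪
    {x⁻¹} ∪ (Finset.univ.image fun p : Fin n × Fin n => (t p.1 - t p.2)⁻¹)
  obtain ⟨m, w, θ, F, G, hFm, hw, hG, hF, hker, hS', v, hv⟩ := exists_presentation3 ht S'
  obtain ⟨Λ, _, ι, π, g, hι, hg, hπ, hφ⟩ := modelex3_ring w θ G hG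
  have hιg : ι g = (ev1 w G)⁻¹ := by
    have h := congrArg ι hg
    rw [map_mul, map_one, hπ, modelex_ev2_C] at h
    exact eq_inv_of_mul_eq_one_right h
  have hrange : ∀ s ∈ S', ∃ q, ev2 w θ q = ev1 w G * s ∧ ι (g * π q) = s := by
    intro s hs
    obtain ⟨q, hq⟩ := hS' s hs
    refine ⟨q, hq, ?_⟩
    rw [map_mul, hιg, hπ, hq, ← mul_assoc, inv_mul_cancel₀ hG, one_mul]
  have hA : ∀ i a b, ∃ q, ev2 w θ q = ev1 w G * A i a b ∧ ι (g * π q) = A i a b := by
    intro i a b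
    refine hrange _ ?_
    simp only [S', Finset.mem_union, Finset.mem_image, Finset.mem_univ, true_and]
    exact Or.inl (Or.inl (Or.inr ⟨(i, a, b), rfl⟩))
  choose Q hQ1 hQ2 using hA
  let Q' : Fin n → Matrix (Fin r) (Fin r) (MvPolynomial (Fin n ⊕ Fin m) ℤ)[X] :=
    fun i => Matrix.of fun a b => Q i a b
  let t' : Fin n → Λ := fun i => π (C (MvPolynomial.X (Sum.inl i)))
  let A' : Fin n → Matrix (Fin r) (Fin r) Λ := fun i => Matrix.of fun a b => g * π (Q i a b)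
  have ht' : ∀ i, ι (t' i) = t i := by
    intro i
    simp only [t']
    rw [hπ, modelex_ev2_C, modelex_ev1_X, hw]
  have hA' : ∀ i, (A' i).map ι = A i := by
    intro i
    ext a b
    exact hQ2 i a b
  have hmap : ∀ {S : Type} [CommRing S] (ψ : Λ →+* S) (i : Fin n),
      (((D : Λ) • A' i).charpoly).map ψ = ((D : S) • (A' i).map ψ).charpoly := by
    intro S _ ψ i
    rw [← Matrix.charpoly_map]
    congr 1
    ext a b
    simp
  have hch' : ∀ i, ((D : Λ) • A' i).charpoly = ∏ j, (X - C (a i j : Λ)) := by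
    intro i
    apply Polynomial.map_injective ι hι
    rw [hmap, hA', hch, Polynomial.map_prod]
    simp
  have hinv : ∀ i j, i ≠ j → ∃ y : Λ, (t' i - t' j) * y = 1 := by
    intro i j hij
    obtain ⟨q, -, hq⟩ := hrange (t i - t j)⁻¹ (by
      simp only [S', Finset.mem_union, Finset.mem_image, Finset.mem_univ, true_and]
      exact Or.inr ⟨(i, j), rfl⟩)
    refine ⟨g * π q, hι ?_⟩
    rw [map_mul, hq, map_sub, ht', ht', map_one]
    exact mul_inv_cancel₀ (sub_ne_zero.2 fun h => hij (htinj h))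
  have hx : ∃ y : Λ, (cycH 1 (dl t') (pm t' A')).coeff e * y = 1 := by
    obtain ⟨q, -, hq⟩ := hrange x⁻¹ (by
      simp only [S', Finset.mem_union, Finset.mem_singleton]
      exact Or.inl (Or.inr trivial))
    refine ⟨g * π q, hι ?_⟩
    rw [map_mul, hq, modelex_cyc, map_one]
    simp only [ht', hA']
    exact mul_inv_cancel₀ he
  let Z : Set (MvPolynomial (Fin n ⊕ Fin m) ℤ) := {z | Loc Mov z ∧ ev1 w z = 0}
  have hpt : ∀ (k : Type) [Field k] (w' : Fin n ⊕ Fin m → k) (θ' : k), (∀ z ∈ Z, ev1 w' z = 0) →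
      ev2 w' θ' F = 0 → ev1 w' G ≠ 0 → ∃ φ : Λ →+* k, (fun i => w' (Sum.inl i)) = (fun i => φ (t' i)) ∧
        (fun i => (ev1 w' G)⁻¹ • (Q' i).map (ev2 w' θ')) = fun i => (A' i).map φ := by
    intro k _ w' θ' hZ h1 h2
    obtain ⟨φ, hφ'⟩ := hφ k w' θ'
      (fun q hq => hker q hq k w' θ' (fun z a b => hZ z ⟨a, b⟩) h1) h2
    have hφg : φ g = (ev1 w' G)⁻¹ := by
      have h := congrArg φ hg
      rw [map_mul, map_one, hφ', modelex_ev2_C] at h
      exact eq_inv_of_mul_eq_one_right h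
    refine ⟨φ, ?_, ?_⟩
    · funext i
      simp only [t']
      rw [hφ', modelex_ev2_C, modelex_ev1_X]
    · funext i
      ext a b
      simp only [A', Q', Matrix.smul_apply, Matrix.map_apply, Matrix.of_apply, smul_eq_mul,
        map_mul, hφg, hφ']
  have hone : ∀ (k : Type) [Field k] (w' : Fin n ⊕ Fin m → k) (θ' : k), ev2 w' θ' 1 ≠ 0 := by
    intro k _ w' θ'
    rw [map_one]
    exact one_ne_zero
  refine ⟨⟨⟨m, 1, G, Q', D, a, P0, monic_one, hD, fun k _ w' θ' h1 => absurd h1 (hone k w' θ'),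
    fun k _ w' θ' h1 => absurd h1 (hone k w' θ'), fun k _ w' θ' h1 => absurd h1 (hone k w' θ')⟩,
    F, Z, hFm, fun z hz => hz.1, ?_, ?_, ?_⟩, w, θ, rfl, rfl, fun z hz => hz.2, hF, hG, hw, ?_⟩
  · intro k _ w' θ' hZ h1 h2 h3
    have h := hker (v * derivative F - C G) (by rw [map_sub, hv, modelex_ev2_C, sub_self]) k w' θ'
      (fun z a b => hZ z ⟨a, b⟩) h1
    rw [map_sub, map_mul, h3, modelex_ev2_C, mul_zero, zero_sub, neg_eq_zero] at h
    exact h2 h
  · intro k _ w' θ' hZ h1 h2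
    obtain ⟨φ, e1, e2⟩ := hpt k w' θ' hZ h1 h2
    rw [e1, e2]
    refine ⟨?_, fun i => ?_, ?_⟩
    · intro i j hij
      by_contra hne
      obtain ⟨y, hy⟩ := hinv i j hne
      have h := congrArg φ hy
      have hij' : φ (t' i) = φ (t' j) := hij
      rw [map_mul, map_sub, hij', sub_self, zero_mul, map_one] at h
      exact zero_ne_one h
    · rw [← hmap, hch', Polynomial.map_prod]
      simp
    · refine injS_of_cycH (ξ := 1) fun h0 => ?_
      obtain ⟨y, hy⟩ := hx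
      have h := congrArg φ hy
      rw [map_mul, modelex_cyc, h0, coeff_zero, zero_mul, map_one] at h
      exact zero_ne_one h
  · intro k _ w' θ' hZ h1 h2 p hp hP hch
    obtain ⟨φ, e1, e2⟩ := hpt k w' θ' hZ h1 h2
    rw [e1, e2]
    refine hS Λ ι hι (fun s hs => ?_) t' A' ht' hA' p hp hP k φ
    obtain ⟨q, -, hq⟩ := hrange s (by
      simp only [S', Finset.mem_union]
      exact Or.inl (Or.inl (Or.inl hs)))
    exact ⟨_, hq⟩
  · funext i
    ext a b
    simp only [Model2.mA, Q', Matrix.smul_apply, Matrix.map_apply, Matrix.of_apply, smul_eq_mul,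
      hQ1]
    rw [← mul_assoc, inv_mul_cancel₀ hG, one_mul]

end Pool.Agent.GR
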