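import Pool.Agent.Lib.MP_aa40d3_nt.MR.ADefs

/-! Sheared coordinates. -/

open Polynomial Matrix Set
open scoped Matrix.Norms.Operator

namespace Pool.Agent.GR

variable {n r m : ℕ} {κ : ℝ}

/-- The sheared height as a linear map. -/
noncomputable def shear_L (κ : ℝ) : ℂ →ₗ[ℝ] ℝ := (1 + κ)⁻¹ • (Complex.imLm - κ • Complex.reLm)

theorem shear_L_t (t : Fin n → ℂ) (i : Fin n) : shear_L κ (t i) = (pS κ t i).2 := by
  simp [shear_L, pS, shr, pp, div_eq_inv_mul]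

theorem shear_L_cpt (hκ : 0 ≤ κ) (a : ℝ × ℝ) : shear_L κ (cpt (unshr κ a)) = a.2 := by
  have : (1 + κ) ≠ 0 := by positivity
  simp [shear_L, cpt, unshr, this]

/-- `T_tri` for the preimage of the rectangle, a parallelogram; see `rectT_TT`. -/
theorem rectT_TS [NeZero r] (hκ : 0 ≤ κ) (t : Fin n → ℂ) (A : Fin n → Mat r) :
    RectT (TS κ t A) (pS κ t) := by
  intro x1 x2 y1 y2 h a ha b hb c hc
  have hC : Convex ℝ (Complex.reLm ⁻¹' Icc x1 x2 ∩ shear_L κ ⁻¹' Icc y1 y2) :=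
    ((convex_Icc x1 x2).linear_preimage Complex.reLm).inter
      ((convex_Icc y1 y2).linear_preimage (shear_L κ))
  have hm : ∀ q ∈ Icc x1 x2 ×ˢ Icc y1 y2,
      cpt (unshr κ q) ∈ Complex.reLm ⁻¹' Icc x1 x2 ∩ shear_L κ ⁻¹' Icc y1 y2 := fun q hq =>
    ⟨hq.1, by rw [mem_preimage, shear_L_cpt hκ]; exact hq.2⟩
  apply Units.ext
  exact T_tri A hC (fun i hi => h i ⟨hi.1, by rw [← shear_L_t]; exact hi.2⟩)
    (hm a ha) (hm b hb) (hm c hc)

theorem inBox_pS (hκ : 0 ≤ κ) {t : Fin n → ℂ} {H : ℝ} (hb : InBox (pp t) H) : InBox (pS κ t) H := by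
  intro i
  refine ⟨(hb i).1, ?_⟩
  have h1 := abs_lt.1 (hb i).1
  have h2 := abs_lt.1 (hb i).2
  have h3 := mul_le_mul_of_nonneg_left h1.1.le hκ
  have h4 := mul_le_mul_of_nonneg_left h1.2.le hκ
  have h0 : 0 < 1 + κ := by positivity
  change |((pp t i).2 - κ * (pp t i).1) / (1 + κ)| < H
  rw [abs_lt, lt_div_iff₀ h0, div_lt_iff₀ h0]
  constructor <;> linarith [h2.1, h2.2]

theorem shear_half {G : Type*} [Group G] {T : ℝ × ℝ → ℝ × ℝ → G} {pts : Fin n → ℝ × ℝ} {H : ℝ}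
    (hT : RectT T pts) (hb : InBox pts H) {a b c : ℝ × ℝ}
    (h : (H ≤ a.2 ∧ H ≤ b.2 ∧ H ≤ c.2) ∨ (a.2 ≤ -H ∧ b.2 ≤ -H ∧ c.2 ≤ -H)) :
    T b c * T a b = T a c := by
  refine hT (min a.1 (min b.1 c.1)) (max a.1 (max b.1 c.1)) (min a.2 (min b.2 c.2))
    (max a.2 (max b.2 c.2)) (fun i hi => ?_) _ ⟨⟨?_, ?_⟩, ?_, ?_⟩ _ ⟨⟨?_, ?_⟩, ?_, ?_⟩ _
    ⟨⟨?_, ?_⟩, ?_, ?_⟩
  · have h2 := abs_lt.1 (hb i).2
    rcases h with h | h
    · exact h2.2.not_ge ((le_min h.1 (le_min h.2.1 h.2.2)).trans hi.2.1)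
    · exact h2.1.not_ge (hi.2.2.trans (max_le h.1 (max_le h.2.1 h.2.2)))
  all_goals simp

theorem shear_Vp (hκ : 0 ≤ κ) {t : Fin n → ℂ} (A : Fin n → Mat r) {H σ : ℝ}
    (hb : InBox (pp t) H) (h1 : -H ≤ σ) (h2 : σ ≤ H) (hσ : ∀ j, (pp t j).1 ≠ σ) :
    Vp (TS κ t A) H σ = TT t A (-H, H) (unshr κ (-H, H)) * Vp (TT t A) H σ *
      TT t A (unshr κ (-H, -H)) (-H, -H) := by
  have hT := rectT_TT t A
  have k1 := mul_le_mul_of_nonneg_left h1 hκ
  have k2 := mul_le_mul_of_nonneg_left h2 hκ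
  have k3 := k1.trans k2
  have a1 : H ≤ (unshr κ (σ, H)).2 := by simp only [unshr]; linarith
  have a2 : H ≤ (unshr κ (-H, H)).2 := by simp only [unshr]; linarith
  have a3 : (unshr κ (σ, -H)).2 ≤ -H := by simp only [unshr]; linarith
  have a4 : (unshr κ (-H, -H)).2 ≤ -H := by simp only [unshr]; linarith
  have e1 := shear_half hT hb (a := (σ, H)) (b := (-H, H)) (c := unshr κ (-H, H))
    (Or.inl ⟨le_rfl, le_rfl, a2⟩)
  have e2 := shear_half hT hb (a := (σ, H)) (b := unshr κ (σ, H)) (c := unshr κ (-H, H))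
    (Or.inl ⟨le_rfl, a1, a2⟩)
  have e3 := shear_half hT hb (a := unshr κ (-H, -H)) (b := (-H, -H)) (c := (σ, -H))
    (Or.inr ⟨a4, le_rfl, le_rfl⟩)
  have e4 := shear_half hT hb (a := unshr κ (-H, -H)) (b := unshr κ (σ, -H)) (c := (σ, -H))
    (Or.inr ⟨a4, a3, le_rfl⟩)
  have e5 : TT t A (σ, -H) (σ, H) * TT t A (unshr κ (σ, -H)) (σ, -H) =
      TT t A (unshr κ (σ, -H)) (σ, H) := rect_v hT hσ _ _ _
  have e6 : TT t A (σ, H) (unshr κ (σ, H)) * TT t A (unshr κ (σ, -H)) (σ, H) =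
      TT t A (unshr κ (σ, -H)) (unshr κ (σ, H)) := rect_v hT hσ _ _ _
  rw [Vp, Vp, TS, TS, TS, ← e6, ← e5, ← mul_assoc, ← mul_assoc, ← mul_assoc, ← mul_assoc, e1, e2,
    mul_assoc, mul_assoc _ _ (TT t A (unshr κ (-H, -H)) (-H, -H)), e3, e4]

/-- For `-H ≤ σ ≤ H` off the abscissae of the points, `Vp (TS κ t A) H σ = u₁ * Vp (TT t A) H σ * u₂`
with `u₁ = TT t A (-H, H) (unshr κ (-H, H))` and `u₂ = TT t A (unshr κ (-H, -H)) (-H, -H)`:
transport composes in rectangles above `H`, below `-H` (`rectT_TT`), and on the vertical line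
(`rect_v`). Use `vt_eq` on both sides with the same `lo`, `hi` (`exists_validAt`). -/
theorem vt_shear [NeZero r] (hκ : 0 ≤ κ) {t : Fin n → ℂ} (A : Fin n → Mat r) {H : ℝ}
    (hb : InBox (pp t) H) (hx : Function.Injective fun i => (t i).re) :
    ∃ u : (Mat r)ˣ, vt (TT t A) (pp t) H = fun i => u * vt (TS κ t A) (pS κ t) H i * u⁻¹ := by
  refine ⟨TT t A (unshr κ (-H, -H)) (-H, -H), funext fun i => ?_⟩
  obtain ⟨ε, hε, hv⟩ := exists_validAt hx i
  have h1 : -H < (t i).re ∧ (t i).re < H := abs_lt.1 (hb i).1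
  have hV := hv (max ((t i).re - ε) (-H)) (min ((t i).re + ε) H) (le_max_left _ _)
    (max_lt (sub_lt_self _ hε) h1.1) (lt_min (lt_add_of_pos_right _ hε) h1.2) (min_le_left _ _)
  have l1 := le_max_right ((t i).re - ε) (-H)
  have l2 := min_le_right ((t i).re + ε) H
  generalize max ((t i).re - ε) (-H) = lo at hV l1
  generalize min ((t i).re + ε) H = hi at hV l2
  have hle : lo ≤ hi := (hV.1.trans hV.2.1).le
  have n1 : ∀ j, (pp t j).1 ≠ lo := fun j h => by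
    by_cases hj : j = i
    · exact hV.1.ne' (hj ▸ h)
    · exact hV.2.2 j hj ⟨h.ge, h.le.trans hle⟩
  have n2 : ∀ j, (pp t j).1 ≠ hi := fun j h => by
    by_cases hj : j = i
    · exact hV.2.1.ne (hj ▸ h)
    · exact hV.2.2 j hj ⟨hle.trans h.ge, h.le⟩
  rw [vt_eq (rectT_TT t A) hb hV, vt_eq (rectT_TS (r := r) hκ t A) (inBox_pS hκ hb) hV,
    shear_Vp hκ A hb l1 (hle.trans l2) n1, shear_Vp hκ A hb (l1.trans hle) l2 n2]
  group

theorem isOpen_ChamS (κ : ℝ) (ρ : Fin n → ℝ) (H : ℝ) : IsOpen (ChamS m κ ρ H) := by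
  have : ChamS m κ ρ H = {w : Fin n ⊕ Fin m → ℂ | InBox (pp fun i => w (Sum.inl i)) H} ∩
      ⋂ a, ⋂ b, ⋂ (_ : ρ a < ρ b), {w | (w (Sum.inl b)).im - κ * (w (Sum.inl b)).re <
        (w (Sum.inl a)).im - κ * (w (Sum.inl a)).re} := by
    ext w
    simp [ChamS]
  rw [this]
  exact (conta_box_open H).inter (isOpen_iInter_of_finite fun a => isOpen_iInter_of_finite
    fun b => isOpen_iInter_of_finite fun _ => isOpen_lt (by fun_prop) (by fun_prop))

theorem convex_ChamS (κ : ℝ) (ρ : Fin n → ℝ) (H : ℝ) : Convex ℝ (ChamS m κ ρ H) := by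
  intro x hx y hy a b ha hb hab
  refine ⟨fun i => ⟨?_, ?_⟩, fun i j hij => ?_⟩
  · simpa [pp] using conta_abs (hx.1 i).1 (hy.1 i).1 ha hb hab
  · simpa [pp] using conta_abs (hx.1 i).2 (hy.1 i).2 ha hb hab
  · have := conta_lt (hx.2 i j hij) (hy.2 i j hij) ha hb hab
    simp only [Pi.add_apply, Pi.smul_apply, Complex.add_re, Complex.add_im, Complex.smul_re,
      Complex.smul_im, smul_eq_mul]
    linarith

theorem ChamS.anti (hκ : 0 ≤ κ) {ρ : Fin n → ℝ} {H : ℝ} {w : Fin n ⊕ Fin m → ℂ}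
    (hw : w ∈ ChamS m κ ρ H) (a b : Fin n) (hab : ρ a < ρ b) :
    (pS κ (fun i => w (Sum.inl i)) b).2 < (pS κ (fun i => w (Sum.inl i)) a).2 := by
  exact div_lt_div_of_pos_right (hw.2 a b hab) (by positivity)

theorem shear_diffu {E : Type*} [NormedAddCommGroup E] [NormedSpace ℂ E] {x : E} (hκ : 0 ≤ κ)
    {t : E → Fin n → ℂ} {A : E → Fin n → Mat r} (ht : ∀ i, DifferentiableAt ℂ (fun y => t y i) x)
    (hA : ∀ i, DifferentiableAt ℂ (fun y => A y i) x) {a b : ℝ × ℝ}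
    (h : (a.2 = b.2 ∧ ∀ j, (pS κ (t x) j).2 ≠ a.2) ∨ (a.1 = b.1 ∧ ∀ j, (pS κ (t x) j).1 ≠ a.1)) :
    DiffU (fun y => TS κ (t y) (A y) a b) x := by
  rcases h with ⟨h1, h2⟩ | h
  · refine differentiableAt_T ht hA (differentiableAt_const _) (differentiableAt_const _) ?_
    rintro i ⟨u, v, -, -, huv, he⟩
    refine h2 i ?_
    rw [← shear_L_t, ← he, map_add, map_smul, map_smul, shear_L_cpt hκ, shear_L_cpt hκ, ← h1,
      ← add_smul, huv, one_smul]
  · exact diffu_TT ht hA (Or.inl h)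

/-- As `diffU_mos2`: `diffu_gen` for the swapped sheared data, `differentiableAt_T`. -/
theorem diffU_mos3 [NeZero r] (hκ : 0 ≤ κ) (M : Model2 n r) {ρ : Fin n → ℝ}
    (hρ : Function.Injective ρ) {H : ℝ} {w : Fin n ⊕ Fin M.m → ℂ} (hw : w ∈ ChamS M.m κ ρ H)
    (hG : ev1 w M.G ≠ 0) (θ : ℂ) (i : Fin n) : DiffU (fun y => mos3 M κ H y i) (w, θ) := by
  have ht : ∀ i, DifferentiableAt ℂ
      (fun y : (Fin n ⊕ Fin M.m → ℂ) × ℂ => y.1 (Sum.inl i)) (w, θ) := fun i => by fun_prop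
  have hy : Function.Injective fun i => (pS κ (fun i => w (Sum.inl i)) i).2 := by
    intro a b hab
    rcases lt_trichotomy (ρ a) (ρ b) with h | h | h
    · exact absurd hab (ChamS.anti hκ hw a b h).ne'
    · exact hρ h
    · exact absurd hab (ChamS.anti hκ hw b a h).ne
  exact (diffu_gen (x := (w, θ)) (fun y : (Fin n ⊕ Fin M.m → ℂ) × ℂ =>
      (rectT_TS hκ (fun i => y.1 (Sum.inl i)) (M.mA y.1 y.2)).swap)
    (fun j => (((diffu_cont ht j).2).sub (continuousAt_const.mul (diffu_cont ht j).1)).div_const _)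
    (fun j => (diffu_cont ht j).1)
    (fun a b h => shear_diffu hκ ht (fun i => differentiableAt_mA2 M (y := (w, θ)) hG i) h)
    (inBox_pS hκ hw.1).swap hy i).inv

/-- Induction on `Mov`: give one more point a value between its neighbours. -/
theorem exists_extend (Mov : Finset (Fin n)) {ρ : Fin n → ℝ} (hρ : Function.Injective ρ)
    (x : Fin n → ℝ) {H0 : ℝ} (hH : 0 < H0) (h1 : ∀ a, a ∉ Mov → |x a| < H0)
    (h2 : ∀ a b, a ∉ Mov → b ∉ Mov → ρ a < ρ b → x a < x b) :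
    ∃ x' : Fin n → ℝ, (∀ a, a ∉ Mov → x' a = x a) ∧ (∀ a, |x' a| < H0) ∧
      ∀ a b, ρ a < ρ b → x' a < x' b := by
  have _ := hρ
  induction Mov using Finset.induction_on generalizing x with
  | empty => exact ⟨x, fun _ _ => rfl, fun a => h1 a (by simp), fun a b => h2 a b (by simp) (by simp)⟩
  | insert c s hc ih =>
    obtain ⟨v, hv1, hv2⟩ := Set.Finite.exists_between'
      (s := insert (-H0) (x '' {b | b ∉ insert c s ∧ ρ b < ρ c}))
      (t := insert H0 (x '' {b | b ∉ insert c s ∧ ρ c < ρ b})) (toFinite _) (toFinite _) (by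
        rintro _ (rfl | ⟨a, ha, rfl⟩) _ (rfl | ⟨b, hb, rfl⟩)
        · linarith
        · exact (abs_lt.1 (h1 b hb.1)).1
        · exact (abs_lt.1 (h1 a ha.1)).2
        · exact h2 a b ha.1 hb.1 (ha.2.trans hb.2))
    have hm : ∀ a, a ∉ s → a ≠ c → a ∉ insert c s := fun a h h' => by simp [h, h']
    obtain ⟨x', e1, e2⟩ := ih (Function.update x c v) (fun a ha => by
        by_cases e : a = c
        · rw [e, Function.update_self]
          exact abs_lt.2 ⟨hv1 _ (mem_insert _ _), hv2 _ (mem_insert _ _)⟩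
        · rw [Function.update_of_ne e]
          exact h1 a (hm a ha e)) (fun a b ha hb hab => by
        by_cases e : a = c
        · have e' : b ≠ c := fun h => hab.ne (congrArg ρ (e.trans h.symm))
          rw [e, Function.update_self, Function.update_of_ne e']
          exact hv2 _ (mem_insert_of_mem _ ⟨b, ⟨hm b hb e', e ▸ hab⟩, rfl⟩)
        · rw [Function.update_of_ne e]
          by_cases e' : b = c
          · rw [e', Function.update_self]
            exact hv1 _ (mem_insert_of_mem _ ⟨a, ⟨hm a ha e, e' ▸ hab⟩, rfl⟩)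
          · rw [Function.update_of_ne e']
            exact h2 a b (hm a ha e) (hm b hb e') hab)
    refine ⟨x', fun a ha => ?_, e2⟩
    rw [Finset.mem_insert, not_or] at ha
    rw [e1 a ha.2, Function.update_of_ne ha.1]

/-- Extend the abscissae along `ρ'` and minus the sheared heights along `ρ`. -/
theorem exists_slice (hκ : 0 ≤ κ) {Mov : Finset (Fin n)} {ρ ρ' : Fin n → ℝ}
    (hρ : Function.Injective ρ) (hρ' : Function.Injective ρ') {H0 H : ℝ} (hH0 : 0 < H0)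
    (hH : (1 + κ) * H0 ≤ H) {w : Fin n ⊕ Fin m → ℂ} (hc : Core Mov κ H0 fun i => w (Sum.inl i))
    (h1 : ∀ a b, a ∉ Mov → b ∉ Mov → ρ a < ρ b → (w (Sum.inl a)).re < (w (Sum.inl b)).re)
    (h2 : ∀ a b, a ∉ Mov → b ∉ Mov → ρ' a < ρ' b → (w (Sum.inl a)).re < (w (Sum.inl b)).re) :
    ∃ w0 ∈ Cham m ρ' H ∩ ChamS m κ ρ H, Sl Mov w0 w := by
  obtain ⟨x, x1, x2, x3⟩ := exists_extend Mov hρ' (fun a => (w (Sum.inl a)).re) hH0
    (fun a ha => (hc.1 a ha).1) h2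
  obtain ⟨y, y1, y2, y3⟩ := exists_extend Mov hρ
    (fun a => -((w (Sum.inl a)).im - κ * (w (Sum.inl a)).re)) hH0
    (fun a ha => by rw [abs_neg]; exact (hc.1 a ha).2)
    (fun a b ha hb hab => neg_lt_neg (hc.2 a b ha hb (h1 a b ha hb hab)))
  have hbox : InBox (pp fun i => (⟨x i, κ * x i - y i⟩ : ℂ)) H := fun i => by
    have a1 := abs_lt.1 (x2 i)
    have a2 := abs_lt.1 (y2 i)
    have a3 := mul_le_mul_of_nonneg_left a1.1.le hκ
    have a4 := mul_le_mul_of_nonneg_left a1.2.le hκ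
    have a5 := mul_nonneg hκ hH0.le
    change |x i| < H ∧ |κ * x i - y i| < H
    rw [abs_lt, abs_lt]
    refine ⟨⟨?_, ?_⟩, ?_, ?_⟩ <;> linarith [a1.1, a1.2, a2.1, a2.2]
  refine ⟨Sum.elim (fun i => (⟨x i, κ * x i - y i⟩ : ℂ)) fun j => w (Sum.inr j),
    ⟨⟨hbox, x3⟩, hbox, fun a b hab => ?_⟩, ?_⟩
  · have := y3 a b hab
    change κ * x b - y b - κ * x b < κ * x a - y a - κ * x a
    linarith
  · rintro (a | j) hs
    · have ha : a ∉ Mov := fun h => hs a h rfl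
      refine Complex.ext (x1 a ha) ?_
      change κ * x a - y a = _
      rw [x1 a ha, y1 a ha]
      ring
    · rfl

/-- Take `κ` larger than all slopes. -/
theorem exists_core (Mov : Finset (Fin n)) (t : Fin n → ℂ) :
    ∃ κ H0 : ℝ, 0 ≤ κ ∧ 0 < H0 ∧ Core Mov κ H0 t ∧ InBox (pp t) ((1 + κ) * H0) := by
  obtain ⟨M, hM⟩ := Finite.exists_le fun p : Fin n × Fin n =>
    ((t p.2).im - (t p.1).im) / ((t p.2).re - (t p.1).re)
  obtain ⟨κ, hκ, hκM⟩ : ∃ κ : ℝ, 0 ≤ κ ∧ M < κ :=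
    ⟨max M 0 + 1, by positivity, (le_max_left M 0).trans_lt (lt_add_one _)⟩
  obtain ⟨N, hN⟩ := Finite.exists_le fun a : Fin n =>
    max |(t a).re| (max |(t a).im| |(t a).im - κ * (t a).re|)
  obtain ⟨H0, hH, hNH⟩ : ∃ H0 : ℝ, 0 < H0 ∧ N < H0 :=
    ⟨max N 0 + 1, by positivity, (le_max_left N 0).trans_lt (lt_add_one _)⟩
  have h : ∀ a, |(t a).re| < H0 ∧ |(t a).im| < H0 ∧ |(t a).im - κ * (t a).re| < H0 := fun a => by
    simpa only [max_lt_iff] using (hN a).trans_lt hNH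
  have hle : H0 ≤ (1 + κ) * H0 := le_mul_of_one_le_left hH.le (by linarith)
  refine ⟨κ, H0, hκ, hH, ⟨fun a _ => ⟨(h a).1, (h a).2.2⟩, fun a b _ _ hab => ?_⟩,
    fun a => ⟨(h a).1.trans_le hle, (h a).2.1.trans_le hle⟩⟩
  have := (div_lt_iff₀ (sub_pos.2 hab)).1 ((hM (a, b)).trans_lt hκM)
  linarith

end Pool.Agent.GR
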