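import Pool.Agent.Lib.MP_aa40d3_nt.MR.Arc3
import Pool.Agent.Lib.MP_aa40d3_nt.MR.Shear

/-! The information on loops along the orbit of restricted moves. -/

open Polynomial Matrix Set
open scoped Matrix.Norms.Operator

namespace Pool.Agent.GR

variable {n r : ℕ} [NeZero r] {Mov : Finset (Fin n)}

omit [NeZero r] in
theorem path3_conj (μ : List (Fin n × ℝ)) (ρ : Fin n → ℝ) (g : Fin n → (Mat r)ˣ) (u : (Mat r)ˣ)
    (l : List (Fin n)) :
    IsConj (l.map (mvTL μ ρ g)).prod (l.map (mvTL μ ρ fun i => u * g i * u⁻¹)).prod := by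
  have h := mvTL_map (MulAut.conj u).toMonoidHom μ ρ g
  have h' : (mvTL μ ρ fun i => u * g i * u⁻¹) =
      (MulAut.conj u).toMonoidHom ∘ mvTL μ ρ g := h
  rw [h', ← List.map_map, ← map_list_prod]
  exact isConj_iff.2 ⟨u, rfl⟩

theorem path3 (M : Model3 n r Mov) {κ H0 H : ℝ} (hκ : 0 ≤ κ) (hH0 : 0 < H0)
    (hH : (1 + κ) * H0 ≤ H) {w0 : Fin n ⊕ Fin M.m → ℂ} (hZ : ∀ z ∈ M.Z, ev1 w0 z = 0)
    (hc : Core Mov κ H0 fun i => w0 (Sum.inl i)) (μ : List (Fin n × ℝ)) :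
    ∀ {ρ : Fin n → ℝ}, Function.Injective ρ →
      (∀ a b, a ∉ Mov → b ∉ Mov → ρ a < ρ b → (w0 (Sum.inl a)).re < (w0 (Sum.inl b)).re) →
      ValidM Mov μ ρ → ∀ {l : List (Fin n)}, LowerL (rhoL μ ρ) l → (∀ a ∈ l, a ∈ Mov) →
      ∀ {w : Fin n ⊕ Fin M.m → ℂ}, Sl Mov w w0 → w ∈ Cham M.m ρ H → ev1 w M.G ≠ 0 →
      ∀ {θ : ℂ}, ev2 w θ M.F3 = 0 →
        OrrM M.toModel2.ε l.toFinset
          ((l.map (mvTL μ ρ (mon2 M.toModel2 H (w, θ)))).prod.val) := by
  induction μ with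
  | nil => exact fun hρ _ _ l hl hM w hs hw hG θ hF => arc3 M hρ hl hM hw (M.on_sl hs hZ) hG hF
  | cons m μ ih =>
    intro ρ hρ ho hv l hl hM w hs hw hG θ hF
    obtain ⟨h1, h2, h4, h3⟩ := hv
    have hρ' := path_update_inj hρ m.1 h2
    have ho' : ∀ a b, a ∉ Mov → b ∉ Mov →
        Function.update ρ m.1 m.2 a < Function.update ρ m.1 m.2 b →
          (w0 (Sum.inl a)).re < (w0 (Sum.inl b)).re := by
      intro a b ha hb hab
      refine ho a b ha hb ?_
      by_cases ea : a = m.1 <;> by_cases eb : b = m.1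
      · rw [ea, eb] at hab
        exact absurd hab (lt_irrefl _)
      · rw [ea, Function.update_self, Function.update_of_ne eb] at hab
        have h5 : mvS ρ m.1 m.2 ⊆ Mov := h4.resolve_left (ea ▸ ha)
        have h6 : ¬ ρ b < ρ m.1 := fun h => hb (h5 (by simp [mvS, hab, h]))
        rw [ea]
        exact lt_of_le_of_ne (not_lt.1 h6) fun e => eb (hρ e).symm
      · rw [eb, Function.update_self, Function.update_of_ne ea] at hab
        rw [eb]
        exact hab.trans h1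
      · rwa [Function.update_of_ne ea, Function.update_of_ne eb] at hab
    have hB : ∀ w ∈ ChamS M.m κ ρ H, Sl Mov w w0 → ev1 w M.G ≠ 0 → ∀ θ, ev2 w θ M.F3 = 0 →
        OrrM M.toModel2.ε l.toFinset ((l.map (mvTL μ (Function.update ρ m.1 m.2)
          (mvT (mos3 M.toModel2 κ H (w, θ)) m.1 (mvS ρ m.1 m.2)))).prod.val) := by
      intro w hw hs hG θ hF
      obtain ⟨w1, hw1, hs1⟩ := exists_slice hκ hρ hρ' hH0 hH hc ho ho'
      refine orrM_cont_open3 M (isOpen_ChamS κ ρ H) (convex_ChamS κ ρ H)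
        ((isOpen_Cham (Function.update ρ m.1 m.2) H).inter (isOpen_ChamS κ ρ H))
        inter_subset_right
        (fun y => (l.map (mvTL μ (Function.update ρ m.1 m.2)
          (mvT (mos3 M.toModel2 κ H y) m.1 (mvS ρ m.1 m.2)))).prod) ?_ M.toModel2.ε l.toFinset
        ⟨w1, hw1, hs1.trans hs.symm⟩ ?_ hw (M.on_sl hs hZ) hG hF
      · intro w hw hG θ
        exact DiffU.list_prod (fun i => DiffU.mvTL (fun c => path_diffU_mvT
          (fun j => diffU_mos3 hκ M.toModel2 hρ hw hG θ j) _ _ c) μ _ i) l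
      · intro w' hw' hs' hG θ hF
        have e : vt (TS κ (fun i => w' (Sum.inl i)) (M.toModel2.mA w' θ))
            (pS κ fun i => w' (Sum.inl i)) H =
            mvT (mos3 M.toModel2 κ H (w', θ)) m.1 (mvS ρ m.1 m.2) :=
          vt_eq_mvT_vs (rectT_TS hκ _ _) (inBox_pS hκ hw'.1.1) hρ h1 h2 hw'.1.2
            (ChamS.anti hκ hw'.2)
        obtain ⟨u, hu⟩ := vt_shear hκ (M.toModel2.mA w' θ) hw'.1.1 (Cham.re_injective hρ' hw'.1)
        have h5 := ih hρ' ho' h3 hl hM (hs'.trans hs) hw'.1 hG hF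
        have h6 : mon2 M.toModel2 H (w', θ) =
            fun i => u * mvT (mos3 M.toModel2 κ H (w', θ)) m.1 (mvS ρ m.1 m.2) i * u⁻¹ := by
          rw [← e]
          exact hu
        rw [h6] at h5
        exact OrrM.of_isConj (path3_conj _ _ _ u l) h5
    obtain ⟨w1, hw1, hs1⟩ := exists_slice hκ hρ hρ hH0 hH hc ho ho
    refine orrM_cont_open3 M (isOpen_Cham ρ H) (convex_Cham ρ H)
      ((isOpen_Cham ρ H).inter (isOpen_ChamS κ ρ H)) inter_subset_left
      (fun y => (l.map (mvTL (m :: μ) ρ (mon2 M.toModel2 H y))).prod) ?_ M.toModel2.ε l.toFinset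
      ⟨w1, hw1, hs1.trans hs.symm⟩ ?_ hw (M.on_sl hs hZ) hG hF
    · intro w hw hG θ
      exact DiffU.list_prod (fun i => DiffU.mvTL
        (fun j => diffU_mon2 M.toModel2 hρ hw hG θ j) (m :: μ) _ i) l
    · intro w' hw' hs' hG θ hF
      have e : vt (TS κ (fun i => w' (Sum.inl i)) (M.toModel2.mA w' θ))
          (pS κ fun i => w' (Sum.inl i)) H = mos3 M.toModel2 κ H (w', θ) :=
        vt_eq_vs_of_anti (rectT_TS hκ _ _) (inBox_pS hκ hw'.1.1) hρ hw'.1.2 (ChamS.anti hκ hw'.2)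
      obtain ⟨u, hu⟩ := vt_shear hκ (M.toModel2.mA w' θ) hw'.1.1 (Cham.re_injective hρ hw'.1)
      have h5 := hB w' hw'.2 (hs'.trans hs) hG θ hF
      have h6 : mon2 M.toModel2 H (w', θ) = fun i => u * mos3 M.toModel2 κ H (w', θ) i * u⁻¹ := by
        rw [← e]
        exact hu
      rw [h6]
      exact OrrM.of_isConj (path3_conj (m :: μ) ρ _ u l).symm h5

end Pool.Agent.GR
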