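import Pool.Agent.Lib.MP_aa40d3_nt.GR2.GMain

/-! Many reflections: definitions for the group theoretic part. -/

open Polynomial Matrix

namespace Pool.Agent.GR

variable {n r : ℕ}

section moves
variable {G : Type} [Group G]

/-- The states (ordered list of all indices, tuple) reached from `(L0, g)` by restricted moves:
`i` jumps to the left over `T`, where `i` is movable or all members of `T` are. -/
inductive St (Mov : Finset (Fin n)) (L0 : List (Fin n)) (g : Fin n → G) :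
    List (Fin n) → (Fin n → G) → Prop
  | init : St Mov L0 g L0 g
  | move {L₁ T L₂ : List (Fin n)} {i : Fin n} {h : Fin n → G} :
      St Mov L0 g (L₁ ++ T ++ i :: L₂) h → (i ∈ Mov ∨ ∀ c ∈ T, c ∈ Mov) →
        St Mov L0 g (L₁ ++ i :: T ++ L₂) (mvT h i T.toFinset)

/-- The group generated by the members of a cluster. -/
def cl (h : Fin n → G) (A : List (Fin n)) : Subgroup G := Subgroup.closure (h '' {a | a ∈ A})

/-- The conjugate subgroup `γ H γ⁻¹`. -/
def cj (γ : G) (H : Subgroup G) : Subgroup G := H.map (MulAut.conj γ).toMonoidHom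

/-- Some state begins with `K` movable clusters whose groups have the property `P`. -/
def Front (Mov : Finset (Fin n)) (L0 : List (Fin n)) (g : Fin n → G) (K : ℕ)
    (P : Subgroup G → Prop) : Prop :=
  ∃ (As : List (List (Fin n))) (R : List (Fin n)) (h : Fin n → G),
    St Mov L0 g (As.flatten ++ R) h ∧ As.length = K ∧
      ∀ A ∈ As, (∀ a ∈ A, a ∈ Mov) ∧ P (cl h A)

/-- A bounded level function with an equivariant invariant that is constant while the level does
not grow. -/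
structure Lev {Y : Type} (Mov : Finset (Fin n)) (L0 : List (Fin n)) (g : Fin n → G)
    (Ok : Subgroup G → Prop) (ν : Subgroup G → ℕ) (inv : Subgroup G → Y) (act : G → Y → Y)
    (Lm : ℕ) : Prop where
  act_one : ∀ x, act 1 x = x
  act_mul : ∀ a b x, act (a * b) x = act a (act b x)
  ok_cj : ∀ γ H, Ok H → Ok (cj γ H)
  ν_cj : ∀ γ H, Ok H → ν (cj γ H) = ν H
  inv_cj : ∀ γ H, Ok H → inv (cj γ H) = act γ (inv H)
  le : ∀ H, Ok H → ν H ≤ Lm
  mono : ∀ H H', Ok H → Ok H' → H ≤ H' → ν H ≤ ν H'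
  eq : ∀ H H', Ok H → Ok H' → H ≤ H' → ν H = ν H' → inv H = inv H'
  merge : ∀ L₁ A B L₂ h, St Mov L0 g (L₁ ++ (A ++ B) ++ L₂) h → (∀ a ∈ A, a ∈ Mov) →
    (∀ a ∈ B, a ∈ Mov) → Ok (cl h A) → Ok (cl h B) → Ok (cl h (A ++ B))

/-- The number of clusters that suffices after `d` doublings. -/
def Kf (m : ℕ) : ℕ → ℕ
  | 0 => 1
  | d + 1 => Kf m d * (2 * Kf m d + m + 2)

/-- Valid moves that keep the relative position of the points outside `Mov`. -/
def ValidM (Mov : Finset (Fin n)) : List (Fin n × ℝ) → (Fin n → ℝ) → Prop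
  | [], _ => True
  | m :: μ, ρ => m.2 < ρ m.1 ∧ (∀ c, ρ c ≠ m.2) ∧ (m.1 ∈ Mov ∨ mvS ρ m.1 m.2 ⊆ Mov) ∧
      ValidM Mov μ (Function.update ρ m.1 m.2)

end moves

/-- The hypothesis on the loops around movable clusters. -/
def LoopsM (Mov : Finset (Fin n)) (ρ : Fin n → ℝ) (g : Fin n → GLr r) (ε : Fin n → Fin r → ℂ) :
    Prop :=
  ∀ μ, ValidM Mov μ ρ → ∀ l, LowerL (rhoL μ ρ) l → (∀ a ∈ l, a ∈ Mov) →
    OrrM ε l.toFinset ((l.map (mvTL μ ρ g)).prod).val

/-- The same hypothesis, for states. -/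
def LoopsS (Mov : Finset (Fin n)) (L0 : List (Fin n)) (g : Fin n → GLr r)
    (ε : Fin n → Fin r → ℂ) : Prop :=
  ∀ l R h, St Mov L0 g (l ++ R) h → (∀ a ∈ l, a ∈ Mov) → OrrM ε l.toFinset ((l.map h).prod).val

/-- Commutative invariant spaces of matrices are scalar. -/
def PrimT (Γ : Subgroup (GLr r)) : Prop :=
  ∀ Z : Submodule ℂ (Matrix (Fin r) (Fin r) ℂ),
    (∀ γ ∈ Γ, ∀ x ∈ Z, γ.val * x * (γ⁻¹).val ∈ Z) → (∀ x ∈ Z, ∀ y ∈ Z, x * y = y * x) →
      ∀ x ∈ Z, ∃ c : ℂ, x = c • (1 : Matrix (Fin r) (Fin r) ℂ)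

/-- No proper invariant subspace. -/
def IrrS (H : Subgroup (GLr r)) : Prop :=
  ∀ U : Submodule ℂ (Fin r → ℂ), (∀ x ∈ H, ∀ v ∈ U, x.val *ᵥ v ∈ U) → U = ⊥ ∨ U = ⊤

/-- A reflection with special eigenvalue different from one. -/
def IsRf (x : GLr r) : Prop := ∃ e f : Fin r → ℂ, f ⬝ᵥ e ≠ 0 ∧ x.val = 1 - vecMulVec e f

/-- Generated by reflections. -/
def RG (H : Subgroup (GLr r)) : Prop :=
  ∃ s : Set (GLr r), (∀ x ∈ s, IsRf x) ∧ H = Subgroup.closure s

/-- Conjugation of sets of matrices. -/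
def actM (γ : GLr r) (S : Set (Matrix (Fin r) (Fin r) ℂ)) : Set (Matrix (Fin r) (Fin r) ℂ) :=
  (fun x => γ.val * x * (γ⁻¹).val) '' S

/-- The linear span of a group of matrices. -/
noncomputable def spn (H : Subgroup (GLr r)) : Submodule ℂ (Matrix (Fin r) (Fin r) ℂ) :=
  Submodule.span ℂ (Units.val '' (H : Set (GLr r)))

/-- A scalar matrix. -/
def IsSc (x : GLr r) : Prop := ∃ c : ℂ, x.val = c • (1 : Matrix (Fin r) (Fin r) ℂ)

/-- Close to a scalar matrix. -/
def Near (x : GLr r) : Prop := (r : ℝ) - 1 / 8 < ‖x.val.trace‖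

/-- The elements of `H` close to scalars that commute with all such elements. -/
def Zc (H : Subgroup (GLr r)) : Set (GLr r) :=
  {z | z ∈ H ∧ Near z ∧ ∀ y ∈ H, Near y → z * y = y * z}

/-- The matrices that commute with `Zc H`. -/
def Dc (H : Subgroup (GLr r)) : Set (Matrix (Fin r) (Fin r) ℂ) :=
  {x | ∀ z ∈ Zc H, x * z.val = z.val * x}

/-- The scalar multiples of the elements of `H`. -/
def cone (H : Subgroup (GLr r)) : Set (Matrix (Fin r) (Fin r) ℂ) :=
  {x | ∃ y ∈ H, ∃ c : ℂ, x = c • y.val}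

/-- The line through a matrix. -/
noncomputable def lineOf (x : GLr r) : Submodule ℂ (Matrix (Fin r) (Fin r) ℂ) := ℂ ∙ x.val

/-- The number of elements of `H` up to scalars. -/
noncomputable def pc (H : Subgroup (GLr r)) : ℕ := (lineOf '' (H : Set (GLr r))).ncard

/-- Contains a reflection. -/
def OkA (H : Subgroup (GLr r)) : Prop := ∃ x ∈ H, IsRf x

/-- Finite, irreducible and generated by reflections. -/
def OkB (H : Subgroup (GLr r)) : Prop := Finite H ∧ IrrS H ∧ RG H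

/-- The invariant of the second stage. -/
noncomputable def invB (J : ℕ) (H : Subgroup (GLr r)) : Set (Matrix (Fin r) (Fin r) ℂ) :=
  if pc H ≤ J then cone H else Dc H

end Pool.Agent.GR
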