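import Pool.Agent.Lib.MP_aa40d3_nt.MR.Stmt
import Pool.Agent.Lib.MP_aa40d3_nt.MR.GDefs
import Pool.Agent.Lib.MP_aa40d3_nt.GR2.Mono2

/-! Primitive systems have primitive monodromy. -/

open Polynomial Matrix Set Filter Topology
open scoped Matrix.Norms.Operator

namespace Pool.Agent.GR

variable {n r : ℕ}

/-- A matrix as a vector. -/
def vecM (x : Mat r) : Fin (r * r) → ℂ :=
  fun p => x (finProdFinEquiv.symm p).1 (finProdFinEquiv.symm p).2

/-- The same as a linear map. -/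
def vecL (r : ℕ) : Mat r →ₗ[ℂ] (Fin (r * r) → ℂ) where
  toFun := vecM
  map_add' _ _ := rfl
  map_smul' _ _ := rfl

theorem vecM_apply (x : Mat r) (a b : Fin r) : vecM x (finProdFinEquiv (a, b)) = x a b := by
  simp only [vecM, Equiv.symm_apply_apply]

theorem vecM_surj (v : Fin (r * r) → ℂ) : ∃ x : Mat r, vecM x = v :=
  ⟨Matrix.of fun a b => v (finProdFinEquiv (a, b)), funext fun p => by
    simp only [vecM, Matrix.of_apply, Prod.mk.eta, Equiv.apply_symm_apply]⟩

/-- The matrix of `x ↦ M * x * adjugate M`. -/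
noncomputable def adM (M : Mat r) : Mat (r * r) :=
  Matrix.of fun p q => M (finProdFinEquiv.symm p).1 (finProdFinEquiv.symm q).1 *
    M.adjugate (finProdFinEquiv.symm q).2 (finProdFinEquiv.symm p).2

theorem adM_mulVec (M x : Mat r) : adM M *ᵥ vecM x = vecM (M * x * M.adjugate) := by
  funext p
  simp only [mulVec, dotProduct, adM, vecM, Matrix.of_apply, Matrix.mul_apply, Finset.sum_mul]
  rw [← Equiv.sum_comp finProdFinEquiv, Fintype.sum_prod_type, Finset.sum_comm]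
  simp only [Equiv.symm_apply_apply]
  exact Finset.sum_congr rfl fun b _ => Finset.sum_congr rfl fun a _ => by ring

theorem adM_mul (M N : Mat r) : adM (M * N) = adM M * adM N := by
  refine Matrix.ext_iff_mulVec.2 fun v => ?_
  obtain ⟨x, rfl⟩ := vecM_surj v
  rw [← mulVec_mulVec, adM_mulVec, adM_mulVec, adM_mulVec, adjugate_mul_distrib]
  simp only [Matrix.mul_assoc]

theorem adM_one : adM (1 : Mat r) = 1 := by
  refine Matrix.ext_iff_mulVec.2 fun v => ?_
  obtain ⟨x, rfl⟩ := vecM_surj v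
  rw [adM_mulVec, adjugate_one, one_mul, mul_one, one_mulVec]

theorem adM_pow (M : Mat r) (k : ℕ) : adM M ^ k = adM (M ^ k) := by
  induction k with
  | zero => rw [pow_zero, pow_zero, adM_one]
  | succ k ih => rw [pow_succ, pow_succ, ih, adM_mul]

variable [NeZero r]

set_option linter.unusedSectionVars false

theorem primt_det {s : ℕ} {J : Mat r → Mat s} (h : ∀ a b, (fun M => J M a b) ∈ PF r) :
    (fun M => (J M).det) ∈ PF r := by
  let K : Matrix (Fin s) (Fin s) (PF r) := Matrix.of fun a b => ⟨_, h a b⟩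
  have e : (fun M => (J M).det) = K.det.val := by
    funext M
    rw [← pfun_ev, RingHom.map_det]
    rfl
  rw [e]
  exact K.det.2

theorem primt_adj {s : ℕ} {J : Mat r → Mat s} (h : ∀ a b, (fun M => J M a b) ∈ PF r) (a b : Fin s) :
    (fun M => (J M).adjugate a b) ∈ PF r := by
  let K : Matrix (Fin s) (Fin s) (PF r) := Matrix.of fun a b => ⟨_, h a b⟩
  have e : (fun M => (J M).adjugate a b) = (K.adjugate a b).val := by
    funext M
    exact (congrFun (congrFun (RingHom.map_adjugate (pfunEv M) K) a) b).symm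
  rw [e]
  exact (K.adjugate a b).2

theorem primt_mul {s : ℕ} {J K : Mat r → Mat s} (hJ : ∀ a b, (fun M => J M a b) ∈ PF r)
    (hK : ∀ a b, (fun M => K M a b) ∈ PF r) (a b : Fin s) : (fun M => (J M * K M) a b) ∈ PF r := by
  have h := (PF r).sum_mem (t := Finset.univ) fun c _ => (PF r).mul_mem (hJ a c) (hK c b)
  have e : (fun M => (J M * K M) a b) = ∑ c, (fun M => J M a c) * fun M => K M c b := by
    funext M
    simp only [Matrix.mul_apply, Finset.sum_apply, Pi.mul_apply]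
  rw [e]
  exact h

theorem primt_ad (p q : Fin (r * r)) : (fun M : Mat r => adM M p q) ∈ PF r := by
  have h1 : ∀ a b, (fun M : Mat r => M a b) ∈ PF r := fun a b => by
    simpa only [mul_one] using PF.entry_mul (1 : Mat r) a b
  exact (PF r).mul_mem (h1 _ _) (primt_adj (J := fun M => M) h1 _ _)

theorem primt_P (Q : Mat (r * r)) (D : ℕ) (v : Fin (r * r) → ℂ) (p : Fin (r * r)) :
    (fun M : Mat r => (monoP Q D (adM M) *ᵥ v) p) ∈ PF r := by
  have hc : ∀ (B : Mat (r * r)) a b, (fun _ : Mat r => B a b) ∈ PF r := fun B a b =>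
    (PF r).algebraMap_mem (B a b)
  have h0 := primt_mul (J := adM) (K := fun _ => Q) primt_ad (hc Q)
  have hJ : ∀ a b, (fun M : Mat r => (adM M * Q + (1 - Q)) a b) ∈ PF r := fun a b =>
    (PF r).add_mem (h0 a b) (hc (1 - Q) a b)
  have h1 := (PF r).pow_mem (primt_det hJ) (D - 1)
  have h2 := primt_mul h0 (primt_adj hJ)
  have h3 := (PF r).sum_mem (t := Finset.univ) fun c _ =>
    (PF r).smul_mem ((PF r).mul_mem h1 (h2 p c)) (v c)
  have e : (fun M : Mat r => (monoP Q D (adM M) *ᵥ v) p) = ∑ c, v c •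
      ((fun M : Mat r => (adM M * Q + (1 - Q)).det) ^ (D - 1) *
        fun M : Mat r => (adM M * Q * (adM M * Q + (1 - Q)).adjugate) p c) := by
    funext M
    simp only [monoP, mulVec, dotProduct, Finset.sum_apply, Pi.smul_apply, Pi.mul_apply,
      Pi.pow_apply, Matrix.smul_apply, smul_eq_mul, mul_comm]
  rw [e]
  exact h3

/-- Polynomial matrices that the fundamental solution conjugates into `Z`. -/
def primW (U : Set ℂ) (Y : ℂ → Mat r) (Z : Submodule ℂ (Mat r)) :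
    Submodule ℂ[X] (Matrix (Fin r) (Fin r) ℂ[X]) where
  carrier := {Φ | ∀ x ∈ U, ∃ z ∈ Z, Φ.map (eval x) * Y x = Y x * z}
  add_mem' := by
    intro Φ Ψ h h' x hx
    obtain ⟨z, hz, e⟩ := h x hx
    obtain ⟨z', hz', e'⟩ := h' x hx
    refine ⟨z + z', Z.add_mem hz hz', ?_⟩
    rw [Matrix.map_add _ (fun _ _ => eval_add), add_mul, mul_add, e, e']
  zero_mem' := fun x _ => ⟨0, Z.zero_mem, by rw [Matrix.map_zero _ eval_zero, zero_mul, mul_zero]⟩
  smul_mem' := by
    intro c Φ h x hx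
    obtain ⟨z, hz, e⟩ := h x hx
    refine ⟨c.eval x • z, Z.smul_mem _ hz, ?_⟩
    have : (c • Φ).map (eval x) = c.eval x • Φ.map (eval x) := by
      ext a b
      simp
    rw [this, smul_mul_assoc, e, mul_smul_comm]

theorem primt_stable {t : Fin n → ℂ} {A : Fin n → Mat r} {U : Set ℂ} (hU : IsOpen U)
    {Y : ℂ → Mat r} (hY : ∀ x ∈ U, (∀ i, x ≠ t i) ∧ (Y x).det ≠ 0 ∧
      HasDerivAt Y (sys t A x * Y x) x) (Z : Submodule ℂ (Mat r)) :
    ∀ Φ ∈ primW U Y Z, dl t • Φ.map derivative - (pm t A * Φ - Φ * pm t A) ∈ primW U Y Z := by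
  intro Φ hΦ x hx
  obtain ⟨hne, hdet, hd⟩ := hY x hx
  have hu : ∀ y ∈ U, IsUnit (Y y) := fun y hy =>
    (Matrix.isUnit_iff_isUnit_det _).2 (hY y hy).2.1.isUnit
  set z : ℂ → Mat r := fun y => Ring.inverse (Y y) * (Φ.map (eval y) * Y y) with hz
  have hzZ : ∀ y ∈ U, z y ∈ Z := fun y hy => by
    obtain ⟨z', hz', e⟩ := hΦ y hy
    simp only [hz]
    rw [e, Ring.inverse_mul_cancel_left _ _ (hu y hy)]
    exact hz'
  have hze : ∀ y ∈ U, Φ.map (eval y) * Y y = Y y * z y := fun y hy => by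
    simp only [hz]
    rw [Ring.mul_inverse_cancel_left _ _ (hu y hy)]
  have h1 : HasDerivAt (fun y => (Φ.map (eval y) : Mat r)) ((Φ.map derivative).map (eval x)) x :=
    hasDerivAt_mat.2 fun a b => (Φ a b).hasDerivAt x
  obtain ⟨z', h2⟩ : ∃ z' : Mat r, HasDerivAt z z' x :=
    ⟨_, ((hd.differentiableAt.inverse (hu x hx)).mul
      (h1.differentiableAt.mul hd.differentiableAt)).hasDerivAt⟩
  obtain ⟨Z', hc⟩ := Z.exists_isCompl
  have h3 : z' ∈ Z := by
    have h4 := (LinearMap.toContinuousLinearMap (Z.projection Z' hc)).hasFDerivAt.comp_hasDerivAt x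
      h2
    have h5 : HasDerivAt z (Z.projection Z' hc z') x := by
      refine h4.congr_of_eventuallyEq ?_
      filter_upwards [hU.mem_nhds hx] with y hy
      exact (Submodule.projection_apply_of_mem_left hc (hzZ y hy)).symm
    rw [h2.unique h5]
    exact Submodule.projection_apply_mem hc _
  have h6 : HasDerivAt (fun y => (Φ.map (eval y) : Mat r) * Y y)
      (sys t A x * Y x * z x + Y x * z') x := by
    refine (hd.mul h2).congr_of_eventuallyEq ?_
    filter_upwards [hU.mem_nhds hx] with y hy using hze y hy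
  have h7 := (h1.mul hd).unique h6
  refine ⟨(dl t).eval x • z', Z.smul_mem _ h3, ?_⟩
  have e1 : (pm t A).map (eval x) = (dl t).eval x • sys t A x := by
    ext a b
    exact mono_pm t A hne a b
  have e2 : (dl t • Φ.map derivative - (pm t A * Φ - Φ * pm t A)).map (eval x) =
      (dl t).eval x • (Φ.map derivative).map (eval x) -
        ((pm t A).map (eval x) * Φ.map (eval x) - Φ.map (eval x) * (pm t A).map (eval x)) := by
    ext a b
    simp [Matrix.mul_apply, eval_finsetSum]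
  rw [Matrix.mul_assoc (sys t A x), ← hze x hx] at h7
  rw [e2, e1, smul_mul_assoc, mul_smul_comm, ← smul_sub, ← smul_sub, smul_mul_assoc, mul_smul_comm,
    sub_mul, sub_mul, Matrix.mul_assoc, Matrix.mul_assoc, eq_sub_of_add_eq' h7.symm]
  congr 1
  abel

omit [NeZero r] in
theorem primt_comm {U : Set ℂ} (hU : U.Infinite) {Y : ℂ → Mat r} (hY : ∀ x ∈ U, (Y x).det ≠ 0)
    {Z : Submodule ℂ (Mat r)} (hZ : ∀ x ∈ Z, ∀ y ∈ Z, x * y = y * x) :
    ∀ Φ ∈ primW U Y Z, ∀ Ψ ∈ primW U Y Z, Φ * Ψ = Ψ * Φ := by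
  intro Φ hΦ Ψ hΨ
  ext1 a b
  refine eq_of_infinite_eval_eq _ _ (hU.mono fun x hx => ?_)
  obtain ⟨z, hz, e⟩ := hΦ x hx
  obtain ⟨z', hz', e'⟩ := hΨ x hx
  have hu : IsUnit (Y x) := (Matrix.isUnit_iff_isUnit_det _).2 (hY x hx).isUnit
  have h1 : Φ.map (eval x) * Ψ.map (eval x) = Ψ.map (eval x) * Φ.map (eval x) := by
    refine hu.mul_right_cancel ?_
    rw [Matrix.mul_assoc, e', ← Matrix.mul_assoc, e, Matrix.mul_assoc, Matrix.mul_assoc, e,
      ← Matrix.mul_assoc (Ψ.map _), e', Matrix.mul_assoc, hZ z hz z' hz']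
  have h2 := congrFun (congrFun h1 a) b
  simpa [Matrix.mul_apply, eval_finsetSum] using h2

theorem primT_of_prim {t : Fin n → ℂ} {A : Fin n → Mat r} (hi : Prim t A)
    {g : Fin n → (Mat r)ˣ} {D : ℕ} (hD : 0 < D)
    (hζ : ∀ a, (g a).val ^ D = 1) {U : Set ℂ} (hU : IsOpen U) {x₀ : ℂ} (hx₀ : x₀ ∈ U) {Y : ℂ → Mat r}
    (hY0 : Y x₀ = 1) (hY : ∀ x ∈ U, (∀ i, x ≠ t i) ∧ (Y x).det ≠ 0 ∧
      HasDerivAt Y (sys t A x * Y x) x) (he : ExtProp t g U Y) :
    PrimT (Subgroup.closure (Set.range g)) := by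
  intro Z hZ hc z₀ hz₀
  obtain ⟨Q, hQ1, hQ2⟩ := mono_proj (Z.map (vecL r))
  have hQ : Q * Q = Q := by
    refine Matrix.ext_iff_mulVec.2 fun v => ?_
    rw [← mulVec_mulVec, hQ2 _ (hQ1 v)]
  have hV : ∀ a, ∀ v ∈ Z.map (vecL r), adM (g a).val *ᵥ v ∈ Z.map (vecL r) := by
    rintro a _ ⟨x, hx, rfl⟩
    refine ⟨(g a).val * x * (g a).val.adjugate, ?_, (adM_mulVec _ x).symm⟩
    have e : (g a).val.adjugate = (g a).val.det • ((g a)⁻¹).val := by
      rw [← one_mul (g a).val.adjugate, ← (g a).inv_mul, Matrix.mul_assoc, mul_adjugate,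
        mul_smul_comm, mul_one]
    rw [e, mul_smul_comm]
    exact Z.smul_mem _ (hZ _ (Subgroup.subset_closure ⟨a, rfl⟩) x hx)
  have hg : ∀ a, Q * adM (g a).val * Q = adM (g a).val * Q := fun a => by
    refine Matrix.ext_iff_mulVec.2 fun v => ?_
    rw [← mulVec_mulVec, ← mulVec_mulVec, ← mulVec_mulVec, hQ2 _ (hV a _ (hQ1 v))]
  have hd : ∀ a, (Q * adM (g a).val * Q + (1 - Q)).det ^ D = 1 := fun a =>
    mono_deth2 hQ (hg a) (by rw [adM_pow, hζ, adM_one])
  obtain ⟨m, q, hq⟩ := mono_unif (ι := Fin (r * r)) (U := U) (dl t)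
    (fun p x => (monoP Q D (adM (Y x)) *ᵥ vecM z₀) p) fun p =>
      he _ (primt_P Q D (vecM z₀) p) fun M a => by
        rw [Units.val_mul, adM_mul, mono_P_inv hD hQ (hg a) (hd a)]
  let Φ : Matrix (Fin r) (Fin r) ℂ[X] := Matrix.of fun a b => q (finProdFinEquiv (a, b))
  have hΦ : Φ ∈ primW U Y Z := by
    intro x hx
    obtain ⟨z, hz, e⟩ := hQ1 ((adM (Y x) * Q + (1 - Q)).adjugate *ᵥ vecM z₀)
    have e' : vecM z = Q *ᵥ ((adM (Y x) * Q + (1 - Q)).adjugate *ᵥ vecM z₀) := e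
    refine ⟨((dl t).eval x ^ m * (adM (Y x) * Q + (1 - Q)).det ^ (D - 1) * (Y x).det) • z,
      Z.smul_mem _ hz, ?_⟩
    have e2 : Φ.map (eval x) = ((dl t).eval x ^ m * (adM (Y x) * Q + (1 - Q)).det ^ (D - 1)) •
        (Y x * z * (Y x).adjugate) := by
      ext a b
      change (q (finProdFinEquiv (a, b))).eval x = _
      rw [← hq _ x hx, monoP, smul_mulVec, ← mulVec_mulVec,
        ← mulVec_mulVec, ← e', adM_mulVec, Pi.smul_apply, vecM_apply, Matrix.smul_apply,
        smul_eq_mul, smul_eq_mul, ← mul_assoc]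
    rw [e2, smul_mul_assoc, Matrix.mul_assoc, adjugate_mul, mul_smul_comm, mul_one, smul_smul,
      mul_smul_comm]
  obtain ⟨c, hcΦ⟩ := hi _ (primt_stable hU hY Z)
    (primt_comm (infinite_of_mem_nhds x₀ (hU.mem_nhds hx₀)) (fun x hx => (hY x hx).2.1) hc) Φ hΦ
  have hδ := pow_ne_zero m (mono_dl_ne t (hY x₀ hx₀).1)
  refine ⟨((dl t).eval x₀ ^ m)⁻¹ * c.eval x₀, ?_⟩
  ext a b
  have h1 := hq (finProdFinEquiv (a, b)) x₀ hx₀
  have e2 : monoP Q D (adM (Y x₀)) = Q := by simp [monoP, hY0, adM_one]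
  have h2 : q (finProdFinEquiv (a, b)) = (c • (1 : Matrix (Fin r) (Fin r) ℂ[X])) a b :=
    congrFun (congrFun hcΦ a) b
  rw [e2, hQ2 (vecM z₀) ⟨z₀, hz₀, rfl⟩, vecM_apply, h2] at h1
  rw [Matrix.smul_apply, smul_eq_mul, mul_assoc, eq_inv_mul_iff_mul_eq₀ hδ, h1]
  by_cases hab : a = b <;> simp [Matrix.one_apply, hab]

end Pool.Agent.GR
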