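import Pool.Agent.Lib.MP_aa40d3_nt.GR2.Path2
import Pool.Agent.Lib.MP_aa40d3_nt.MR.GDefs

/-! Many reflections: families in which only some singular points move. -/

open Polynomial Matrix

namespace Pool.Agent.GR

variable {n r m : ℕ}

/-- The movable points are algebraically independent over a ring that contains the others. -/
def Gen (Mov : Finset (Fin n)) (t : Fin n → ℂ) : Prop :=
  ∃ B : Subring ℂ, (∀ j, j ∉ Mov → t j ∈ B) ∧ AlgebraicIndependent B fun i : Mov => t i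

/-- Two parameter values differ only in the movable coordinates. -/
def Sl {k : Type} (Mov : Finset (Fin n)) (w w' : Fin n ⊕ Fin m → k) : Prop :=
  ∀ s, (∀ i ∈ Mov, s ≠ Sum.inl i) → w s = w' s

/-- A polynomial that does not depend on the movable coordinates. -/
def Loc (Mov : Finset (Fin n)) (z : MvPolynomial (Fin n ⊕ Fin m) ℤ) : Prop :=
  ∀ (k : Type) [CommRing k] (w w' : Fin n ⊕ Fin m → k), Sl Mov w w' → ev1 w z = ev1 w' z

/-- A family over a finite cover of an open part of the zero set of `Z`. The polynomial `F` of the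
underlying `Model2` plays no role; it is replaced by `F3`. -/
structure Model3 (n r : ℕ) [NeZero r] (Mov : Finset (Fin n)) extends Model2 n r where
  F3 : (MvPolynomial (Fin n ⊕ Fin m) ℤ)[X]
  Z : Set (MvPolynomial (Fin n ⊕ Fin m) ℤ)
  monic3 : F3.Monic
  loc : ∀ z ∈ Z, Loc Mov z
  sep3 : ∀ (k : Type) [Field k] (w : Fin n ⊕ Fin m → k) (θ : k), (∀ z ∈ Z, ev1 w z = 0) →
    ev2 w θ F3 = 0 → ev1 w G ≠ 0 → ev2 w θ (derivative F3) ≠ 0
  good3 : ∀ (k : Type) [Field k] (w : Fin n ⊕ Fin m → k) (θ : k), (∀ z ∈ Z, ev1 w z = 0) →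
    ev2 w θ F3 = 0 → ev1 w G ≠ 0 →
    GoodSys2 D a (fun i => w (Sum.inl i)) (fun i => (ev1 w G)⁻¹ • (Q i).map (ev2 w θ))
  fund3 : ∀ (k : Type) [Field k] (w : Fin n ⊕ Fin m → k) (θ : k), (∀ z ∈ Z, ev1 w z = 0) →
    ev2 w θ F3 = 0 → ev1 w G ≠ 0 → ∀ p : ℕ, p.Prime → P0 < p → CharP k p →
      HasFund (fun i => w (Sum.inl i)) (fun i => (ev1 w G)⁻¹ • (Q i).map (ev2 w θ))

/-- Sheared coordinates. -/
noncomputable def shr (κ : ℝ) (q : ℝ × ℝ) : ℝ × ℝ := (q.1, (q.2 - κ * q.1) / (1 + κ))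

/-- The inverse of `shr`. -/
def unshr (κ : ℝ) (q : ℝ × ℝ) : ℝ × ℝ := (q.1, (1 + κ) * q.2 + κ * q.1)

/-- Transport in sheared coordinates. -/
noncomputable def TS (κ : ℝ) (t : Fin n → ℂ) (A : Fin n → Mat r) (a b : ℝ × ℝ) : (Mat r)ˣ :=
  TT t A (unshr κ a) (unshr κ b)

/-- The singular points in sheared coordinates. -/
noncomputable def pS (κ : ℝ) (t : Fin n → ℂ) : Fin n → ℝ × ℝ := fun i => shr κ (pp t i)

/-- The sheared heights are ordered oppositely to `ρ`. -/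
def ChamS (m : ℕ) (κ : ℝ) (ρ : Fin n → ℝ) (H : ℝ) : Set (Fin n ⊕ Fin m → ℂ) :=
  {w | InBox (pp fun i => w (Sum.inl i)) H ∧ ∀ a b, ρ a < ρ b →
    (w (Sum.inl b)).im - κ * (w (Sum.inl b)).re < (w (Sum.inl a)).im - κ * (w (Sum.inl a)).re}

/-- The monodromy tuple joined from the left, in sheared coordinates. -/
noncomputable def mos3 [NeZero r] (M : Model2 n r) (κ H : ℝ) (y : (Fin n ⊕ Fin M.m → ℂ) × ℂ) :
    Fin n → (Mat r)ˣ :=
  vs (TS κ (fun i => y.1 (Sum.inl i)) (M.mA y.1 y.2)) (pS κ fun i => y.1 (Sum.inl i)) H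

/-- The fixed points are small and descend from left to right in sheared coordinates. -/
def Core (Mov : Finset (Fin n)) (κ H0 : ℝ) (t : Fin n → ℂ) : Prop :=
  (∀ a, a ∉ Mov → |(t a).re| < H0 ∧ |(t a).im - κ * (t a).re| < H0) ∧
    ∀ a b, a ∉ Mov → b ∉ Mov → (t a).re < (t b).re →
      (t b).im - κ * (t b).re < (t a).im - κ * (t a).re

theorem Sl.refl {k : Type} (Mov : Finset (Fin n)) (w : Fin n ⊕ Fin m → k) : Sl Mov w w :=
  fun _ _ => rfl

theorem Sl.symm {k : Type} {Mov : Finset (Fin n)} {w w' : Fin n ⊕ Fin m → k} (h : Sl Mov w w') :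
    Sl Mov w' w := fun s hs => (h s hs).symm

theorem Sl.trans {k : Type} {Mov : Finset (Fin n)} {w w' w'' : Fin n ⊕ Fin m → k}
    (h : Sl Mov w w') (h' : Sl Mov w' w'') : Sl Mov w w'' := fun s hs => (h s hs).trans (h' s hs)

theorem Sl.line {Mov : Finset (Fin n)} {w w' : Fin n ⊕ Fin m → ℂ} (h : Sl Mov w w') (u : ℂ) :
    Sl Mov (w + u • (w' - w)) w' := fun s hs => by
  simp [h s hs]

theorem Model3.on_sl [NeZero r] {Mov : Finset (Fin n)} (M : Model3 n r Mov) {k : Type} [CommRing k]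
    {w w' : Fin n ⊕ Fin M.m → k} (h : Sl Mov w w') (hZ : ∀ z ∈ M.Z, ev1 w' z = 0) :
    ∀ z ∈ M.Z, ev1 w z = 0 := fun z hz => (M.loc z hz k w w' h).trans (hZ z hz)

end Pool.Agent.GR
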