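import Pool.Agent.Lib.MP_aa40d3_nt.MR.Stmt
import Pool.Agent.Lib.MP_aa40d3_nt.MR.ADefs
import Pool.Agent.Lib.MP_aa40d3_nt.GR2.Top2

/-! Reductions: twists, rotations, irreducibility. -/

open Polynomial Matrix

namespace Pool.Agent.GR

variable {n r : ℕ}

theorem prima_pm_twist (t : Fin n → ℂ) (A : Fin n → Matrix (Fin r) (Fin r) ℂ)
    (lam : Fin n → ℂ) : pm t A = pm t (fun i => A i - lam i • (1 : Matrix (Fin r) (Fin r) ℂ)) +
      (∑ i, (∏ j ∈ Finset.univ.erase i, (X - C (t j))) * C (lam i)) •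
        (1 : Matrix (Fin r) (Fin r) ℂ[X]) := by
  unfold pm
  rw [Finset.sum_smul, ← Finset.sum_add_distrib]
  refine Finset.sum_congr rfl fun i _ => ?_
  refine Matrix.ext fun a b => ?_
  by_cases hab : a = b
  · subst hab
    simp only [Matrix.add_apply, Matrix.smul_apply, Matrix.map_apply, Matrix.sub_apply,
      Matrix.one_apply_eq, smul_eq_mul, mul_one, map_sub]
    ring
  · simp only [Matrix.add_apply, Matrix.smul_apply, Matrix.map_apply, Matrix.sub_apply,
      Matrix.one_apply_ne hab, smul_eq_mul, mul_zero, sub_zero, add_zero]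

/-- `topa_pm_twist`: the numerator changes by a scalar matrix. -/
theorem Prim.twist {t : Fin n → ℂ} {A : Fin n → Matrix (Fin r) (Fin r) ℂ} (h : Prim t A)
    (lam : Fin n → ℂ) : Prim t fun i => A i - lam i • (1 : Matrix (Fin r) (Fin r) ℂ) := by
  intro W hW
  refine h W fun Φ hΦ => ?_
  rw [prima_pm_twist t A lam, Matrix.add_mul, Matrix.mul_add, Matrix.smul_mul, Matrix.mul_smul,
    Matrix.one_mul, Matrix.mul_one, add_sub_add_right_eq_sub]
  exact hW Φ hΦ

/-- As `Irred.aff`. -/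
theorem Prim.aff {t t' : Fin n → ℂ} {c b : ℂ} (hc : c ≠ 0) (ht : ∀ i, t i = c * t' i + b)
    {A : Fin n → Matrix (Fin r) (Fin r) ℂ} (h : Prim t A) : Prim t' A := by
  intro W' hW' hcomm
  have : Invertible c := invertibleOfNonzero hc
  let φ : ℂ[X] →+* ℂ[X] := compRingHom (C c * X + C b)
  have hφ : ∀ q, φ q = q.comp (C c * X + C b) := fun q => rfl
  have hψ : ∀ q : ℂ[X], algEquivCMulXAddC c b q = φ q := fun q => by
    rw [algEquivCMulXAddC_apply, hφ, comp_eq_aeval]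
  let M : Matrix (Fin r) (Fin r) ℂ[X] →+* Matrix (Fin r) (Fin r) ℂ[X] := φ.mapMatrix
  have hM : ∀ Φ x y, M Φ x y = φ (Φ x y) := fun Φ x y => rfl
  have hsm : ∀ (q : ℂ[X]) Φ, M (q • Φ) = φ q • M Φ := fun q Φ => Matrix.ext fun x y => by
    rw [hM, Matrix.smul_apply, Matrix.smul_apply, smul_eq_mul, smul_eq_mul, map_mul, hM]
  have hs : ∀ Ψ, ∃ Φ, M Φ = Ψ := fun Ψ =>
    ⟨Ψ.map (algEquivCMulXAddC c b).symm, Matrix.ext fun x y => by
      rw [hM, Matrix.map_apply, ← hψ, AlgEquiv.apply_symm_apply]⟩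
  have hi : Function.Injective M := fun Φ Ψ e => Matrix.ext fun x y =>
    (algEquivCMulXAddC c b).injective (by rw [hψ, hψ, ← hM, ← hM, e])
  have h2 : (C c : ℂ[X]) • M (pm t A) = (C c ^ n : ℂ[X]) • pm t' A :=
    Matrix.ext fun x y => aff_pm ht A x y
  have h3 : ∀ Φ, (M Φ).map derivative = (C c : ℂ[X]) • M (Φ.map derivative) := fun Φ =>
    Matrix.ext fun x y => by
      rw [Matrix.map_apply, Matrix.smul_apply, hM, hM, Matrix.map_apply, hφ, hφ, derivative_comp,
        derivative_add, derivative_C, derivative_C_mul_X, add_zero, smul_eq_mul]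
  let W : Submodule ℂ[X] (Matrix (Fin r) (Fin r) ℂ[X]) :=
    { carrier := {Φ | M Φ ∈ W'}
      add_mem' := fun {u v} hu hv => by
        change M (u + v) ∈ W'
        rw [map_add]
        exact W'.add_mem hu hv
      zero_mem' := by
        change M 0 ∈ W'
        rw [map_zero]
        exact W'.zero_mem
      smul_mem' := fun q u hu => by
        change M (q • u) ∈ W'
        rw [hsm]
        exact W'.smul_mem _ hu }
  have hmem : ∀ Φ, Φ ∈ W ↔ M Φ ∈ W' := fun Φ => Iff.rfl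
  intro Ψ hΨ
  obtain ⟨Φ, rfl⟩ := hs Ψ
  obtain ⟨q, hq⟩ := h W (fun Φ hΦ => by
    rw [hmem] at hΦ ⊢
    have h1 := W'.smul_mem (C c⁻¹) (W'.smul_mem (C c ^ n) (hW' _ hΦ))
    have e : (C c ^ n : ℂ[X]) • (dl t' • (M Φ).map derivative - (pm t' A * M Φ - M Φ * pm t' A)) =
        (C c : ℂ[X]) • M (dl t • Φ.map derivative - (pm t A * Φ - Φ * pm t A)) := by
      rw [map_sub, map_sub, map_mul, map_mul, hsm, hφ, aff_dl ht, h3, smul_sub, smul_sub, smul_sub,
        smul_sub, ← Matrix.smul_mul, ← Matrix.smul_mul (C c), ← Matrix.mul_smul,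
        ← Matrix.mul_smul _ (C c), h2, smul_smul, smul_smul, smul_smul, mul_comm (C c)]
    rwa [e, smul_smul, ← map_mul, inv_mul_cancel₀ hc, map_one, one_smul] at h1)
    (fun Φ hΦ Ψ hΨ => hi (by rw [map_mul, map_mul]; exact hcomm _ hΦ _ hΨ)) Φ hΨ
  exact ⟨φ q, by rw [hq, hsm, map_one]⟩

theorem prima_perp {W : Submodule ℂ[X] (Fin r → ℂ[X])} {v0 : Fin r → ℂ[X]}
    (h : ∀ q : ℂ[X], q ≠ 0 → q • v0 ∉ W) : ∃ v : Fin r → ℂ[X], v ≠ 0 ∧ ∀ l ∈ W, l ⬝ᵥ v = 0 := by
  let π := (Submodule.torsion ℂ[X] ((Fin r → ℂ[X]) ⧸ W)).mkQ ∘ₗ W.mkQ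
  have h0 : π v0 ≠ 0 := by
    intro e
    obtain ⟨⟨q, hq⟩, e'⟩ := (Submodule.Quotient.mk_eq_zero _).1 e
    exact h q (nonZeroDivisors.ne_zero hq) ((Submodule.Quotient.mk_eq_zero W).1 e')
  obtain ⟨g, hg⟩ := Module.Projective.exists_dual_ne_zero ℂ[X] h0
  have e : ∀ l : Fin r → ℂ[X], l ⬝ᵥ (fun j => g (π (Pi.single j 1))) = g (π l) := by
    intro l
    conv_rhs => rw [pi_eq_sum_univ' l, map_sum, map_sum]
    refine Finset.sum_congr rfl fun j _ => ?_
    rw [map_smul, map_smul, smul_eq_mul]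
  refine ⟨fun j => g (π (Pi.single j 1)), fun e0 => hg ?_, fun l hl => ?_⟩
  · rw [← e, e0, dotProduct_zero]
  · have : π l = 0 := by
      change Submodule.mkQ _ (W.mkQ l) = 0
      rw [W.mkQ_apply, (Submodule.Quotient.mk_eq_zero W).2 hl, map_zero]
    rw [e, this, map_zero]

/-- If `W ≠ ⊥` is stable and not of full rank, `V = {v | ∀ l ∈ W, l ⬝ᵥ v = 0}` is nonzero and stable
under `v ↦ Δ v' - pm v`; the span of the `vecMulVec v l` is stable and has zero products. -/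
theorem Prim.irred {t : Fin n → ℂ} {A : Fin n → Matrix (Fin r) (Fin r) ℂ} (h : Prim t A) :
    Irred t A := by
  intro W hW
  by_contra hne
  push Not at hne
  obtain ⟨h0, v0, hv0⟩ := hne
  obtain ⟨v, hv, hvW⟩ := prima_perp hv0
  obtain ⟨l, hl, hl0⟩ := (Submodule.ne_bot_iff W).1 h0
  let U : Submodule ℂ[X] (Matrix (Fin r) (Fin r) ℂ[X]) :=
    { carrier := {Φ | (∀ l ∈ W, l ᵥ* Φ = 0) ∧ ∀ i, Φ i ∈ W}
      add_mem' := fun {a b} ha hb => ⟨fun l hl => by
        rw [Matrix.vecMul_add, ha.1 l hl, hb.1 l hl, add_zero],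
        fun i => W.add_mem (ha.2 i) (hb.2 i)⟩
      zero_mem' := ⟨fun l _ => Matrix.vecMul_zero l, fun i => W.zero_mem⟩
      smul_mem' := fun q a ha => ⟨fun l hl => by
        rw [Matrix.vecMul_smul, ha.1 l hl, smul_zero], fun i => W.smul_mem q (ha.2 i)⟩ }
  have hz : ∀ Φ ∈ U, ∀ Ψ ∈ U, Φ * Ψ = 0 := fun Φ hΦ Ψ hΨ =>
    funext fun i => hΨ.1 _ (hΦ.2 i)
  have hm : vecMulVec v l ∈ U := ⟨fun l' hl' => by
    rw [vecMul_vecMulVec, hvW l' hl', zero_smul], fun i => W.smul_mem (v i) hl⟩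
  obtain ⟨q, hq⟩ := h U (fun Φ hΦ => ⟨fun l hl => by
    have h1 := hΦ.1 _ (hW l hl)
    have h2 : (fun a => derivative (l a)) ᵥ* Φ + l ᵥ* Φ.map derivative = 0 := by
      funext a
      have h3 := congrArg derivative (congrFun (hΦ.1 l hl) a)
      simpa only [Matrix.vecMul, dotProduct, derivative_sum, derivative_mul,
        Finset.sum_add_distrib, Pi.zero_apply, derivative_zero, Pi.add_apply,
        Matrix.map_apply] using h3
    rw [Matrix.add_vecMul, Matrix.smul_vecMul] at h1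
    rw [Matrix.vecMul_sub, Matrix.vecMul_sub, Matrix.vecMul_smul, ← Matrix.vecMul_vecMul,
      ← Matrix.vecMul_vecMul, hΦ.1 l hl, Matrix.zero_vecMul, sub_zero,
      eq_neg_of_add_eq_zero_right h1, eq_neg_of_add_eq_zero_right h2, smul_neg, sub_self],
    fun i => by
      have e : (dl t • Φ.map derivative - (pm t A * Φ - Φ * pm t A)) i =
          ((dl t • fun a => derivative (Φ i a)) + Φ i ᵥ* pm t A) - ∑ j, pm t A i j • Φ j := by
        funext a
        simp only [Matrix.sub_apply, Matrix.smul_apply, Matrix.map_apply, Matrix.mul_apply,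
          Pi.sub_apply, Pi.add_apply, Pi.smul_apply, Finset.sum_apply, Matrix.vecMul, dotProduct,
          smul_eq_mul]
        ring
      rw [e]
      exact W.sub_mem (hW _ (hΦ.2 i)) (W.sum_mem fun j _ => W.smul_mem _ (hΦ.2 j))⟩)
    (fun Φ hΦ Ψ hΨ => by rw [hz Φ hΦ Ψ hΨ, hz Ψ hΨ Φ hΦ]) _ hm
  obtain ⟨i, hi⟩ := Function.ne_iff.1 hv
  obtain ⟨j, hj⟩ := Function.ne_iff.1 hl0
  have h1 := congrFun (congrFun (hz _ hm _ hm) i) i
  rw [hq, Matrix.smul_mul, Matrix.one_mul, smul_smul, Matrix.smul_apply, Matrix.one_apply_eq,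
    smul_eq_mul, mul_one, Matrix.zero_apply, mul_self_eq_zero] at h1
  have h2 := congrFun (congrFun hq i) j
  rw [h1, zero_smul, vecMulVec_apply] at h2
  exact mul_ne_zero hi hj h2

/-- As `exists_rotation`, with the ring of elements algebraic over `B`. -/
theorem exists_rotation3 {Mov : Finset (Fin n)} {t : Fin n → ℂ} (hi : Function.Injective t)
    (ht : Gen Mov t) : ∃ (t' : Fin n → ℂ) (c : ℂ), c ≠ 0 ∧ (∀ i, t i = c * t' i + 0) ∧ Gen Mov t' ∧
      Function.Injective fun i => (t' i).re := by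
  classical
  obtain ⟨B, hB, h⟩ := ht
  obtain ⟨x, ⟨q, rfl⟩, hq⟩ := (Set.infinite_range_of_injective
    (Nat.cast_injective (R := ℝ))).exists_notMem_finset
    (Finset.univ.image fun z : Fin n × Fin n => (t z.1 - t z.2).re / (t z.1 - t z.2).im)
  set η : ℂ := 1 + (q : ℂ) * Complex.I with hη
  have hre : ∀ z : ℂ, (η * z).re = z.re - q * z.im := fun z => by
    simp [hη]
  have hη0 : η ≠ 0 := by
    intro h0
    have h1 := hre 1
    rw [h0] at h1
    simp at h1
  have hmem : η ∈ Subalgebra.algebraicClosure B ℂ := by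
    have hI : Complex.I ∈ Subalgebra.algebraicClosure B ℂ :=
      ⟨X ^ 2 + C 1, (Polynomial.monic_X_pow_add_C (a := (1 : B)) (n := 2) two_ne_zero).ne_zero,
        by simp⟩
    exact add_mem (one_mem _) (mul_mem (natCast_mem _ q) hI)
  have hmem' : η⁻¹ ∈ Subalgebra.algebraicClosure B ℂ := IsAlgebraic.inv_iff.2 hmem
  refine ⟨fun i => η * t i, η⁻¹, inv_ne_zero hη0, fun i => ?_,
    ⟨(Subalgebra.algebraicClosure B ℂ).toSubring, fun j hj => mul_mem hmem
      ((Subalgebra.algebraicClosure B ℂ).algebraMap_mem ⟨t j, hB j hj⟩), ?_⟩, ?_⟩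
  · rw [add_zero, inv_mul_cancel_left₀ hη0]
  · generalize hS : Subalgebra.algebraicClosure B ℂ = S at hmem hmem'
    have h0 : AlgebraicIndependent S fun i : Mov => t i := hS ▸ h.subalgebraAlgebraicClosure
    have he : (⟨η, hmem⟩ : S) * ⟨η⁻¹, hmem'⟩ = 1 := Subtype.ext (mul_inv_cancel₀ hη0)
    have h1 : AlgebraicIndependent S fun i : Mov =>
        (MvPolynomial.C ⟨η, hmem⟩ * MvPolynomial.X i : MvPolynomial Mov S) := by
      refine AlgebraicIndependent.of_aeval (x := fun i : Mov =>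
        (MvPolynomial.C ⟨η⁻¹, hmem'⟩ * MvPolynomial.X i : MvPolynomial Mov S)) ?_
      have h2 : (fun i : Mov => MvPolynomial.aeval (fun i : Mov =>
          (MvPolynomial.C ⟨η⁻¹, hmem'⟩ * MvPolynomial.X i : MvPolynomial Mov S))
          (MvPolynomial.C ⟨η, hmem⟩ * MvPolynomial.X i : MvPolynomial Mov S)) =
          MvPolynomial.X := by
        funext i
        rw [map_mul, MvPolynomial.aeval_C, MvPolynomial.aeval_X, MvPolynomial.algebraMap_eq,
          ← mul_assoc, ← map_mul, he, map_one, one_mul]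
      rw [h2]
      exact MvPolynomial.algebraicIndependent_X _ _
    have h3 := h0.aeval_of_algebraicIndependent h1
    have h4 : (fun i : Mov => MvPolynomial.aeval (fun i : Mov => t i)
        (MvPolynomial.C ⟨η, hmem⟩ * MvPolynomial.X i : MvPolynomial Mov S)) =
        fun i : Mov => η * t i := by
      funext i
      rw [map_mul, MvPolynomial.aeval_C, MvPolynomial.aeval_X]
      rfl
    rw [h4] at h3
    exact h3
  · intro i j hij
    have h1 : (t i - t j).re = q * (t i - t j).im := by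
      have h2 := hre (t i - t j)
      have h3 : (η * t i).re = (η * t j).re := hij
      rw [mul_sub, Complex.sub_re, h3, sub_self] at h2
      linarith
    by_cases h0 : (t i - t j).im = 0
    · rw [h0, mul_zero] at h1
      exact hi (sub_eq_zero.1 (Complex.ext h1 h0))
    · exfalso
      refine hq (Finset.mem_image.2 ⟨(i, j), Finset.mem_univ _, ?_⟩)
      rw [div_eq_iff h0]
      exact h1

/-- Compare the sums of the roots (`charpoly_affine`, `nextCoeff`). -/
theorem eps_prod_ne [NeZero r] {A : Matrix (Fin r) (Fin r) ℂ} {D : ℕ} (hD : 0 < D) {a : Fin r → ℤ}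
    (h : ((D : ℂ) • A).charpoly = ∏ j, (X - C (a j : ℂ))) {mu : ℂ} {m : Fin (r - 1) → ℤ}
    (hq : A.charpoly = (X - C mu) * ∏ j, (X - C (m j : ℂ))) (hmu : ∀ z : ℤ, mu ≠ z) :
    ∏ j, Complex.exp (2 * Real.pi * Complex.I * (((a j : ℚ) / D : ℚ) : ℂ)) ≠ 1 := by
  obtain ⟨r, rfl⟩ : ∃ r', r = r' + 1 := ⟨r - 1, by have := NeZero.pos r; omega⟩
  have hD' : (D : ℂ) ≠ 0 := Nat.cast_ne_zero.2 hD.ne'
  have hq' : A.charpoly = (X - C mu) * ∏ j : Fin r, (X - C (m j : ℂ)) := hq
  rw [top2_cons] at hq'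
  have h1 := charpoly_affine (inv_ne_zero hD') 0 h
  rw [smul_smul, inv_mul_cancel₀ hD', one_smul, zero_smul, add_zero, hq'] at h1
  have h2 := congrArg (eval 0)
    (top2_roots h1 fun z => -Complex.exp (2 * Real.pi * Complex.I * z))
  simp only [eval_prod, eval_sub, eval_X, eval_C, zero_sub, neg_neg] at h2
  have e : ∀ j, (((a j : ℚ) / D : ℚ) : ℂ) = (D : ℂ)⁻¹ * a j + 0 := fun j => by
    push_cast
    ring
  have e2 : ∀ z : ℤ, Complex.exp (2 * Real.pi * Complex.I * z) = 1 := fun z => by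
    rw [mul_comm, Complex.exp_int_mul_two_pi_mul_I]
  simp only [e]
  rw [← h2, Fin.prod_univ_succ]
  simp only [Fin.cons_zero, Fin.cons_succ, e2, Finset.prod_const_one, mul_one]
  intro h3
  obtain ⟨z, hz⟩ := Complex.exp_eq_one_iff.1 h3
  rw [mul_comm] at hz
  exact hmu z (mul_right_cancel₀ Complex.two_pi_I_ne_zero hz)

end Pool.Agent.GR
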