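import Pool.Agent.Lib.MP_aa40d3_nt.MR.Move

/-! States are reached by restricted valid moves. -/

namespace Pool.Agent.GR

variable {n r : ℕ} {Mov : Finset (Fin n)} {L0 : List (Fin n)} {ρ : Fin n → ℝ}

theorem ValidM.validL {μ : List (Fin n × ℝ)} (h : ValidM Mov μ ρ) : ValidL μ ρ := by
  induction μ generalizing ρ with
  | nil => trivial
  | cons m μ ih => exact ⟨h.1, h.2.1, ih h.2.2.2⟩

theorem validM_append {μ : List (Fin n × ℝ)} {m : Fin n × ℝ} (hμ : ValidM Mov μ ρ)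
    (h1 : m.2 < rhoL μ ρ m.1) (h2 : ∀ c, rhoL μ ρ c ≠ m.2)
    (h3 : m.1 ∈ Mov ∨ mvS (rhoL μ ρ) m.1 m.2 ⊆ Mov) : ValidM Mov (μ ++ [m]) ρ := by
  induction μ generalizing ρ with
  | nil => exact ⟨h1, h2, h3, trivial⟩
  | cons m' μ ih => exact ⟨hμ.1, hμ.2.1, hμ.2.2.1, ih hμ.2.2.2 h1 h2 h3⟩

theorem link_step {L₁ T L₂ : List (Fin n)} {i c : Fin n}
    (hl : LowerL ρ (L₁ ++ c :: T ++ i :: L₂)) : ∃ x, x < ρ i ∧ (∀ b, ρ b ≠ x) ∧
      mvS ρ i x = (c :: T).toFinset ∧
      LowerL (Function.update ρ i x) (L₁ ++ i :: (c :: T) ++ L₂) := by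
  obtain ⟨h1, h2⟩ := hl
  obtain ⟨x, hx, hx'⟩ := glow_gap ρ (ρ c)
  generalize hT : c :: T = T₀ at *
  have hc : c ∈ T₀ := hT ▸ List.mem_cons_self
  rw [List.pairwise_append, List.pairwise_append, List.pairwise_cons] at h1
  obtain ⟨⟨p1, p2, p3⟩, ⟨p4, p5⟩, p6⟩ := h1
  have q1 : ∀ b ∈ T₀, x < ρ b := by
    intro b hb
    subst hT
    rcases List.mem_cons.1 hb with rfl | hb
    · exact hx
    · exact hx.trans ((List.pairwise_cons.1 p2).1 b hb)
  have q2 : ∀ b ∈ L₁, ρ b < x := fun b hb => hx' b (p3 b hb c hc)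
  have q3 : ∀ b ∈ L₁ ++ T₀, ρ b < ρ i := fun b hb => p6 b hb i List.mem_cons_self
  have q4 : x < ρ i := hx.trans (q3 c (List.mem_append_right _ hc))
  have q5 : ∀ b, ρ b ≠ x := fun b e => by
    have := hx' b (e ▸ hx)
    exact this.ne e
  have n1 : ∀ b ∈ L₁, b ≠ i := fun b hb e =>
    (q3 b (List.mem_append_left _ hb)).ne (congrArg _ e)
  have n2 : ∀ b ∈ T₀, b ≠ i := fun b hb e =>
    (q3 b (List.mem_append_right _ hb)).ne (congrArg _ e)
  have n3 : ∀ b ∈ L₂, b ≠ i := fun b hb e => (p4 b hb).ne' (congrArg _ e)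
  have hS : mvS ρ i x = T₀.toFinset := by
    ext b
    simp only [mvS, Finset.mem_filter, Finset.mem_univ, true_and, List.mem_toFinset]
    refine ⟨fun hb => ?_, fun hb => ⟨q1 b hb, q3 b (List.mem_append_right _ hb)⟩⟩
    have h3 := h2 i (by simp) b hb.2
    simp only [List.mem_append, List.mem_cons] at h3
    rcases h3 with (h3 | h3) | h3 | h3
    · exact absurd (q2 b h3) hb.1.not_gt
    · exact h3
    · exact absurd (congrArg _ h3) hb.2.ne
    · exact absurd (p4 b h3) hb.2.not_gt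
  refine ⟨x, q4, q5, hS, ?_⟩
  have u0 : Function.update ρ i x i = x := Function.update_self ..
  have u1 : ∀ b, b ≠ i → Function.update ρ i x b = ρ b :=
    fun b hb => Function.update_of_ne hb ..
  have u2 : ∀ {l : List (Fin n)}, (∀ b ∈ l, b ≠ i) →
      l.Pairwise (fun a b => ρ a < ρ b) → l.Pairwise
        (fun a b => Function.update ρ i x a < Function.update ρ i x b) :=
    fun hl hp => hp.imp_of_mem fun ha hb hab => by rwa [u1 _ (hl _ ha), u1 _ (hl _ hb)]
  refine ⟨?_, fun a ha b hb => ?_⟩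
  · rw [List.pairwise_append, List.pairwise_append, List.pairwise_cons]
    refine ⟨⟨u2 n1 p1, ⟨fun b hb => ?_, u2 n2 p2⟩, fun a ha b hb => ?_⟩, u2 n3 p5,
      fun a ha b hb => ?_⟩
    · rw [u0, u1 _ (n2 b hb)]
      exact q1 b hb
    · rw [u1 _ (n1 a ha)]
      rcases List.mem_cons.1 hb with rfl | hb
      · rw [u0]
        exact q2 a ha
      · rw [u1 _ (n2 b hb)]
        exact p3 a ha b hb
    · rw [u1 _ (n3 b hb)]
      by_cases e : a = i
      · rw [e, u0]
        exact q4.trans (p4 b hb)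
      · rw [u1 _ e]
        refine p6 a ?_ b (List.mem_cons_of_mem _ hb)
        simpa [e] using ha
  · by_cases e : b = i
    · simp [e]
    rw [u1 _ e] at hb
    have h3 : ρ b < ρ a := by
      by_cases e' : a = i
      · rw [e', u0] at hb
        exact e' ▸ hb.trans q4
      · rwa [u1 _ e'] at hb
    have h4 := h2 a (by
      simp only [List.mem_append, List.mem_cons] at ha ⊢
      tauto) b h3
    simp only [List.mem_append, List.mem_cons] at h4 ⊢
    tauto

theorem link_left {L₁ L₂ : List (Fin n)} (hl : LowerL ρ (L₁ ++ L₂)) : LowerL ρ L₁ := by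
  obtain ⟨h1, h2⟩ := hl
  rw [List.pairwise_append] at h1
  refine ⟨h1.1, fun a ha b hb => ?_⟩
  rcases List.mem_append.1 (h2 a (List.mem_append_left _ ha) b hb) with h4 | h4
  · exact h4
  · exact absurd (h1.2.2 a ha b h4) hb.not_gt

/-- As `Low.move`. -/
theorem St.low {G : Type} [Group G] {g h : Fin n → G} (h0 : LowerL ρ L0) {L : List (Fin n)}
    (hs : St Mov L0 g L h) :
    ∃ μ, ValidM Mov μ ρ ∧ LowerL (rhoL μ ρ) L ∧ mvTL μ ρ g = h := by
  induction hs with
  | init => exact ⟨[], trivial, h0, rfl⟩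
  | @move L₁ T L₂ i h _ hm ih =>
    obtain ⟨μ, h1, h2, rfl⟩ := ih
    rcases T with _ | ⟨c, T⟩
    · exact ⟨μ, h1, by simpa using h2, funext fun a => by simp [mvT]⟩
    obtain ⟨x, k1, k2, k3, k4⟩ := link_step h2
    refine ⟨μ ++ [(i, x)], validM_append h1 k1 k2 (hm.imp_right fun hm a ha => ?_), ?_,
      by rw [mvTL_append, k3]⟩
    · rw [k3] at ha
      exact hm a (List.mem_toFinset.1 ha)
    · rw [rhoL_append]
      exact k4

theorem LoopsM.loopsS {g : Fin n → GLr r} {ε : Fin n → Fin r → ℂ} (h0 : LowerL ρ L0)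
    (ho : LoopsM Mov ρ g ε) : LoopsS Mov L0 g ε := by
  intro l R h hs hl
  obtain ⟨μ, h1, h2, rfl⟩ := hs.low h0
  exact ho μ h1 l (link_left h2) hl

end Pool.Agent.GR
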