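import Pool.Agent.Lib.MP_aa40d3_nt.MR.GDefs

/-! A projective form of Jordan's lemma. -/

open Matrix

namespace Pool.Agent.GR

variable {r : ℕ}

/-- The square of the Frobenius norm. -/
noncomputable def fro (A : Matrix (Fin r) (Fin r) ℂ) : ℝ := ∑ a, ∑ b, ‖A a b‖ ^ 2

theorem fro_eq (A : Matrix (Fin r) (Fin r) ℂ) : fro A = (Aᴴ * A).trace.re := by
  rw [fro, Finset.sum_comm, Matrix.trace, Complex.re_sum]
  refine Finset.sum_congr rfl fun b _ => ?_
  rw [diag_apply, mul_apply, Complex.re_sum]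
  refine Finset.sum_congr rfl fun a _ => ?_
  rw [conjTranspose_apply, Complex.star_def, Complex.conj_mul', ← Complex.ofReal_pow,
    Complex.ofReal_re]

theorem fro_mul (A B : Matrix (Fin r) (Fin r) ℂ) : fro (A * B) ≤ fro A * fro B := by
  have h : ∀ a b, ‖(A * B) a b‖ ^ 2 ≤ (∑ k, ‖A a k‖ ^ 2) * ∑ k, ‖B k b‖ ^ 2 := fun a b => by
    refine le_trans ?_ (Finset.sum_mul_sq_le_sq_mul_sq _ _ _)
    refine pow_le_pow_left₀ (norm_nonneg _) ?_ 2
    rw [mul_apply]
    exact (norm_sum_le _ _).trans (Finset.sum_le_sum fun k _ => (norm_mul _ _).le)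
  refine (Finset.sum_le_sum fun a _ => Finset.sum_le_sum fun b _ => h a b).trans_eq ?_
  rw [← Finset.sum_mul_sum, Finset.sum_comm (f := fun b k => ‖B k b‖ ^ 2)]
  rfl

theorem fro_sub (A B : Matrix (Fin r) (Fin r) ℂ) : fro (A - B) ≤ 2 * fro A + 2 * fro B := by
  simp only [fro, Finset.mul_sum, ← Finset.sum_add_distrib]
  refine Finset.sum_le_sum fun a _ => Finset.sum_le_sum fun b _ => ?_
  have h := pow_le_pow_left₀ (norm_nonneg _) (norm_sub_le (A a b) (B a b)) 2
  rw [Matrix.sub_apply]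
  nlinarith [sq_nonneg (‖A a b‖ - ‖B a b‖)]

theorem jordan_nonneg (A : Matrix (Fin r) (Fin r) ℂ) : 0 ≤ fro A :=
  Finset.sum_nonneg fun _ _ => Finset.sum_nonneg fun _ _ => sq_nonneg _

theorem jordan_zero {A : Matrix (Fin r) (Fin r) ℂ} (h : fro A ≤ 0) : A = 0 := by
  ext a b
  have h1 := Finset.single_le_sum (f := fun a => ∑ b, ‖A a b‖ ^ 2)
    (fun _ _ => Finset.sum_nonneg fun _ _ => sq_nonneg _) (Finset.mem_univ a)
  have h2 := Finset.single_le_sum (f := fun b => ‖A a b‖ ^ 2)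
    (fun _ _ => sq_nonneg _) (Finset.mem_univ b)
  simpa using (h2.trans h1).trans h

theorem jordan_left {X : Matrix (Fin r) (Fin r) ℂ} (hX : Xᴴ * X = 1)
    (W : Matrix (Fin r) (Fin r) ℂ) : fro (X * W) = fro W := by
  rw [fro_eq, fro_eq, conjTranspose_mul, Matrix.mul_assoc, ← Matrix.mul_assoc Xᴴ, hX,
    Matrix.one_mul]

theorem jordan_right {X : Matrix (Fin r) (Fin r) ℂ} (hX : Xᴴ * X = 1)
    (W : Matrix (Fin r) (Fin r) ℂ) : fro (W * X) = fro W := by
  rw [fro_eq, fro_eq, conjTranspose_mul, ← Matrix.mul_assoc, trace_mul_comm, ← Matrix.mul_assoc,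
    ← Matrix.mul_assoc, mul_eq_one_comm.1 hX, Matrix.one_mul]

theorem jordan_sc {X : Matrix (Fin r) (Fin r) ℂ} (hX : Xᴴ * X = 1) {c : ℂ} (hc : ‖c‖ = 1) :
    fro (X - star c • 1) = 2 * r - 2 * (c * X.trace).re := by
  have h1 : c * star c = 1 := by
    rw [Complex.star_def, Complex.mul_conj', hc]
    simp
  rw [fro_eq]
  simp only [conjTranspose_sub, conjTranspose_smul, conjTranspose_one, star_star, sub_mul, mul_sub,
    hX, Matrix.mul_smul, Matrix.smul_mul, Matrix.mul_one, Matrix.one_mul, smul_smul, smul_sub,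
    trace_sub, trace_smul, trace_one, trace_conjTranspose, smul_eq_mul, mul_comm (star c) c, h1,
    ← star_mul', Fintype.card_fin, Complex.sub_re, Complex.natCast_re, one_mul]
  rw [Complex.star_def, Complex.conj_re]
  ring

/-- the defect of the trace -/
noncomputable def jordanD (x : GLr r) : ℝ := 2 * r - 2 * ‖x.val.trace‖

theorem jordan_ex {x : GLr r} (hx : x.valᴴ * x.val = 1) :
    ∃ c : ℂ, fro (x.val - c • 1) = jordanD x := by
  obtain ⟨c, h1, h2⟩ := Complex.exists_norm_eq_mul_self x.val.trace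
  exact ⟨star c, by rw [jordan_sc hx h1, ← h2, Complex.ofReal_re, jordanD]⟩

theorem jordan_le {x : GLr r} (hx : x.valᴴ * x.val = 1) : jordanD x ≤ fro (x.val - 1) := by
  have h := jordan_sc hx (c := 1) norm_one
  rw [star_one, one_smul, one_mul] at h
  have := Complex.re_le_norm x.val.trace
  rw [h, jordanD]
  linarith

theorem jordan_mul {x y : GLr r} (hx : x.valᴴ * x.val = 1) (hy : y.valᴴ * y.val = 1) :
    (x * y).valᴴ * (x * y).val = 1 := by
  rw [Units.val_mul, conjTranspose_mul, Matrix.mul_assoc, ← Matrix.mul_assoc x.valᴴ, hx,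
    Matrix.one_mul, hy]

theorem jordan_inv {x : GLr r} (hx : x.valᴴ * x.val = 1) : x⁻¹.valᴴ * x⁻¹.val = 1 := by
  have h : x⁻¹.val = x.valᴴ := Units.inv_eq_of_mul_eq_one_left hx
  rw [h, conjTranspose_conjTranspose]
  exact mul_eq_one_comm.1 hx

theorem jordan_comm {x y : GLr r} (hx : x.valᴴ * x.val = 1) (hy : y.valᴴ * y.val = 1) :
    jordanD (x * y * x⁻¹ * y⁻¹) ≤ 4 * jordanD x * jordanD y := by
  obtain ⟨c, hc⟩ := jordan_ex hx
  obtain ⟨d, hd⟩ := jordan_ex hy
  have h1 := jordan_le (jordan_mul (jordan_mul (jordan_mul hx hy) (jordan_inv hx)) (jordan_inv hy))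
  have h2 : ((x * y * x⁻¹ * y⁻¹).val - 1) * (y * x).val =
      (x.val - c • 1) * (y.val - d • 1) - (y.val - d • 1) * (x.val - c • 1) := by
    rw [sub_mul, ← Units.val_mul, show x * y * x⁻¹ * y⁻¹ * (y * x) = x * y by group]
    simp only [Units.val_mul, sub_mul, mul_sub, Matrix.mul_smul, Matrix.smul_mul, Matrix.mul_one,
      Matrix.one_mul, smul_smul, smul_sub, mul_comm d c]
    abel
  rw [← jordan_right (jordan_mul hy hx), h2] at h1
  have h3 := fro_sub ((x.val - c • 1) * (y.val - d • 1)) ((y.val - d • 1) * (x.val - c • 1))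
  have h4 := fro_mul (x.val - c • 1) (y.val - d • 1)
  have h5 := fro_mul (y.val - d • 1) (x.val - c • 1)
  rw [hc, hd] at h4 h5
  linarith

theorem jordan_conj (u x : GLr r) : jordanD (u * x * u⁻¹) = jordanD x := by
  rw [jordanD, jordanD, Units.val_mul, Units.val_mul, trace_units_conj]

theorem jordan_isSc {u x : GLr r} (h : IsSc (u * x * u⁻¹)) : IsSc x := by
  obtain ⟨c, hc⟩ := h
  refine ⟨c, ?_⟩
  rw [show x = u⁻¹ * (u * x * u⁻¹) * u by group, Units.val_mul, Units.val_mul, hc,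
    Matrix.mul_smul, Matrix.smul_mul, Matrix.mul_one, Units.inv_mul]

theorem jordan_near_iff {x : GLr r} : Near x ↔ jordanD x < 1 / 4 := by
  rw [Near, jordanD]
  constructor <;> intro h <;> linarith

open scoped ComplexOrder MatrixOrder in
/-- A finite group is conjugate to a unitary one: average `xᴴ * x` and take a square root. -/
theorem exists_unitarise (H : Subgroup (GLr r)) [Finite H] :
    ∃ u : GLr r, ∀ x ∈ H, (u * x * u⁻¹).valᴴ * (u * x * u⁻¹).val = 1 := by
  have := Fintype.ofFinite H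
  have hP : (∑ x : H, x.1.valᴴ * x.1.val).PosDef :=
    posDef_sum Finset.univ_nonempty fun x _ =>
      PosDef.conjTranspose_mul_self _ (mulVec_injective_of_isUnit x.1.isUnit)
  obtain ⟨b, hb, e⟩ := CStarAlgebra.isStrictlyPositive_iff_eq_star_mul_self.1 hP.isStrictlyPositive
  obtain ⟨u, rfl⟩ := hb
  rw [star_eq_conjTranspose] at e
  refine ⟨u, fun x hx => ?_⟩
  have h1 : x.valᴴ * (u.valᴴ * u.val) * x.val = u.valᴴ * u.val := by
    rw [← e, Finset.mul_sum, Finset.sum_mul]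
    refine Fintype.sum_equiv (Equiv.mulRight ⟨x, hx⟩) _ _ fun y => ?_
    simp only [Equiv.coe_mulRight, Subgroup.coe_mul, Units.val_mul, conjTranspose_mul,
      Matrix.mul_assoc]
  calc (u * x * u⁻¹).valᴴ * (u * x * u⁻¹).val
      = u⁻¹.valᴴ * (x.valᴴ * (u.valᴴ * u.val) * x.val) * u⁻¹.val := by
        simp only [Units.val_mul, conjTranspose_mul, Matrix.mul_assoc]
    _ = (u * u⁻¹).valᴴ * (u * u⁻¹).val := by
        rw [h1]
        simp only [Units.val_mul, conjTranspose_mul, Matrix.mul_assoc]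
    _ = 1 := by simp

/-- For unitary `x` put `D x = 2 r - 2 ‖tr x‖ = fro (x - c • 1)` with `‖c‖ = 1`; then
`D (x y x⁻¹ y⁻¹) ≤ fro (x y - y x) ≤ 4 * D x * D y`. Take `z` with `Near z`, not scalar, and `D z`
minimal: the commutators with near elements are scalar, and equal to one by taking traces. -/
theorem jordan_near {H : Subgroup (GLr r)} [Finite H] {x : GLr r} (hx : x ∈ H) (hn : Near x)
    (hs : ¬ IsSc x) : ∃ z ∈ Zc H, ¬ IsSc z := by
  obtain ⟨u, hu⟩ := exists_unitarise H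
  obtain ⟨z, ⟨z1, z2, z3⟩, hmin⟩ := Set.exists_min_image {z | z ∈ H ∧ Near z ∧ ¬ IsSc z} jordanD
    ((H : Set (GLr r)).toFinite.subset fun _ h => h.1) ⟨x, hx, hn, hs⟩
  refine ⟨z, ⟨z1, z2, fun y y1 y2 => ?_⟩, z3⟩
  have h0 : 0 < jordanD z := by
    by_contra h
    obtain ⟨c, hc⟩ := jordan_ex (hu z z1)
    rw [jordan_conj] at hc
    exact z3 (jordan_isSc ⟨c, sub_eq_zero.1 (jordan_zero (hc.trans_le (not_lt.1 h)))⟩)
  have h1 := jordan_comm (hu z z1) (hu y y1)
  rw [show u * z * u⁻¹ * (u * y * u⁻¹) * (u * z * u⁻¹)⁻¹ * (u * y * u⁻¹)⁻¹ =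
    u * (z * y * z⁻¹ * y⁻¹) * u⁻¹ by group, jordan_conj, jordan_conj, jordan_conj] at h1
  have h2 := jordan_near_iff.1 y2
  have h3 := jordan_near_iff.1 z2
  have h4 : jordanD (z * y * z⁻¹ * y⁻¹) < jordanD z := by nlinarith
  obtain ⟨c, hc⟩ : IsSc (z * y * z⁻¹ * y⁻¹) := by
    by_contra h
    exact absurd h4 (not_lt.2 (hmin _ ⟨H.mul_mem (H.mul_mem (H.mul_mem z1 y1) (H.inv_mem z1))
      (H.inv_mem y1), jordan_near_iff.2 (h4.trans h3), h⟩))
  have h5 : (z * y * z⁻¹).val = c • y.val := by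
    rw [show z * y * z⁻¹ = z * y * z⁻¹ * y⁻¹ * y by group, Units.val_mul, hc, Matrix.smul_mul,
      Matrix.one_mul]
  have h6 := congrArg trace h5
  rw [Units.val_mul, Units.val_mul, trace_units_conj, trace_smul, smul_eq_mul] at h6
  have h7 : y.val.trace ≠ 0 := by
    intro h
    rw [Near, h, norm_zero] at y2
    rcases Nat.eq_zero_or_pos r with rfl | hr
    · exact z3 ⟨1, Subsingleton.elim _ _⟩
    · have : (1 : ℝ) ≤ r := by exact_mod_cast hr
      linarith
  rw [(mul_left_eq_self₀.1 h6.symm).resolve_right h7, one_smul] at h5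
  exact mul_inv_eq_iff_eq_mul.1 (Units.ext h5)

/-- Cover the compact set of matrices with `fro ≤ r` by `J` sets in which `fro (x - y) < 1 / 4`. If
all near elements are scalar, two elements in one set have the same line. -/
theorem jordan (r : ℕ) : ∃ J : ℕ, ∀ H : Subgroup (GLr r), Finite H → J < pc H →
    ∃ z ∈ Zc H, ¬ IsSc z := by
  obtain ⟨t, -, ht, hc⟩ := finite_cover_balls_of_compact
    (isCompact_closedBall (0 : Fin r → Fin r → ℂ) 1) (e := 1 / (8 * (r + 1))) (by positivity)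
  refine ⟨t.ncard, fun H _ hJ => ?_⟩
  by_contra hcon
  have hs : ∀ x ∈ H, Near x → IsSc x := fun x hx hn => by
    by_contra h
    exact hcon (jordan_near hx hn h)
  obtain ⟨u, hu⟩ := exists_unitarise H
  have h1 : ∀ l ∈ lineOf '' (H : Set (GLr r)), ∃ x ∈ H, lineOf x = l ∧ ∃ c ∈ t,
      ∀ a b, ‖(u * x * u⁻¹).val a b - c a b‖ < 1 / (8 * (r + 1)) := by
    rintro _ ⟨x, hx, rfl⟩
    have h2 : (fun a b => (u * x * u⁻¹).val a b) ∈
        Metric.closedBall (0 : Fin r → Fin r → ℂ) 1 := by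
      rw [mem_closedBall_zero_iff]
      exact (pi_norm_le_iff_of_nonneg zero_le_one).2 fun a =>
        (pi_norm_le_iff_of_nonneg zero_le_one).2 fun b =>
          entry_norm_bound_of_unitary (mem_unitaryGroup_iff'.2 (hu x hx)) a b
    obtain ⟨c, c1, c2⟩ := Set.mem_iUnion₂.1 (hc h2)
    refine ⟨x, hx, rfl, c, c1, fun a b => lt_of_le_of_lt ?_ (mem_ball_iff_norm.1 c2)⟩
    exact (norm_le_pi_norm _ b).trans (norm_le_pi_norm ((fun a b => (u * x * u⁻¹).val a b) - c) a)
  choose! x x1 x2 c c1 c2 using h1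
  refine absurd hJ (not_lt.2 (Set.ncard_le_ncard_of_injOn c c1 (fun l hl l' hl' e => ?_) ht))
  have h3 : ∀ a b, ‖((u * x l' * u⁻¹).val - (u * x l * u⁻¹).val) a b‖ ^ 2 ≤
      (1 / (4 * (r + 1))) ^ 2 := fun a b => by
    refine pow_le_pow_left₀ (norm_nonneg _) ?_ 2
    have h4 := c2 l hl a b
    have h5 := c2 l' hl' a b
    rw [e, norm_sub_rev] at h4
    have h6 := norm_sub_le_norm_sub_add_norm_sub ((u * x l' * u⁻¹).val a b) (c l' a b)
      ((u * x l * u⁻¹).val a b)
    have h7 : (1 / (4 * (r + 1)) : ℝ) = 1 / (8 * (r + 1)) + 1 / (8 * (r + 1)) := by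
      field_simp
      ring
    rw [Matrix.sub_apply, h7]
    linarith
  have h4 : fro ((u * x l' * u⁻¹).val - (u * x l * u⁻¹).val) < 1 / 4 := by
    refine (Finset.sum_le_sum fun a _ => Finset.sum_le_sum fun b _ => h3 a b).trans_lt ?_
    simp only [Finset.sum_const, Finset.card_univ, Fintype.card_fin, nsmul_eq_mul]
    rw [div_pow, ← mul_assoc, mul_div_assoc', div_lt_div_iff₀ (by positivity) (by positivity)]
    have : (0 : ℝ) ≤ r := Nat.cast_nonneg r
    nlinarith
  have h5 := H.mul_mem (H.inv_mem (x1 l hl)) (x1 l' hl')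
  have h6 := jordan_le (hu _ h5)
  rw [jordan_conj, ← jordan_left (hu _ (x1 l hl)), mul_sub, ← Units.val_mul, Matrix.mul_one,
    show u * x l * u⁻¹ * (u * ((x l)⁻¹ * x l') * u⁻¹) = u * x l' * u⁻¹ by group] at h6
  obtain ⟨d, hd⟩ := hs _ h5 (jordan_near_iff.2 (h6.trans_lt h4))
  have h7 : (x l').val = d • (x l).val := by
    rw [show x l' = x l * ((x l)⁻¹ * x l') by group, Units.val_mul, hd, Matrix.mul_smul,
      Matrix.mul_one]
  rw [← x2 l hl, ← x2 l' hl', lineOf, lineOf, h7]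
  by_cases h8 : d = 0
  · rw [h8, zero_smul] at h7
    have h9 : (x l).val = 0 := by
      rw [← Matrix.mul_one (x l).val, ← (x l').mul_inv, h7, Matrix.zero_mul, Matrix.mul_zero]
    rw [h9, smul_zero]
  · exact (Submodule.span_singleton_smul_eq (IsUnit.mk0 d h8) _).symm

end Pool.Agent.GR
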