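import Pool.Agent.Lib.MP_aa40d3_nt.MR.ArcA3
import Pool.Agent.Lib.MP_aa40d3_nt.MR.Cont3

/-! The loop around an initial cluster. -/

open Polynomial Matrix Set Filter Topology
open scoped Matrix.Norms.Operator

namespace Pool.Agent.GR

variable {n r : ℕ} [NeZero r] {Mov : Finset (Fin n)}

theorem arc3 (M : Model3 n r Mov) {ρ : Fin n → ℝ} (hρ : Function.Injective ρ) {H : ℝ}
    {l : List (Fin n)} (hl : LowerL ρ l) (hM : ∀ a ∈ l, a ∈ Mov) {w : Fin n ⊕ Fin M.m → ℂ}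
    (hw : w ∈ Cham M.m ρ H) (hZ : ∀ z ∈ M.Z, ev1 w z = 0) (hG : ev1 w M.G ≠ 0) {θ : ℂ}
    (hF : ev2 w θ M.F3 = 0) :
    OrrM M.toModel2.ε l.toFinset (l.map (mon2 M.toModel2 H (w, θ))).prod.val := by
  classical
  rcases List.eq_nil_or_concat l with rfl | ⟨l', i₀, hl'⟩
  · simpa using orrM_one M.toModel2.ε
  have hi : i₀ ∈ l := by simp [hl']
  clear hl' l'
  obtain ⟨a, ha⟩ : ∃ a, a = w (Sum.inl i₀) := ⟨_, rfl⟩
  obtain ⟨w0, hw0⟩ : ∃ w0, w0 = wstar l.toFinset a w := ⟨_, rfl⟩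
  have hsl : Sl Mov w0 w := by
    rw [hw0]
    rintro (i | j) hs
    · have h1 : i ∉ l.toFinset := fun h => hs i (hM i (List.mem_toFinset.1 h)) rfl
      simp only [wstar, h1, if_false]
    · rfl
  have hFm : (M.F3.map (lineHom w0 w)).Monic := M.monic3.map _
  have hG' : lineHom w0 w M.G ≠ 0 := by
    intro h
    have h1 := eval_lineHom w0 w 1 M.G
    rw [h, eval_zero, one_smul, add_sub_cancel] at h1
    exact hG h1.symm
  have hsep : ∀ u θ, (lineHom w0 w M.G).eval u ≠ 0 →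
      (fib (M.F3.map (lineHom w0 w)) u).eval θ = 0 →
      (derivative (fib (M.F3.map (lineHom w0 w)) u)).eval θ ≠ 0 := by
    intro u θ h1 h2
    rw [eval_lineHom] at h1
    rw [fib_lineHom, ← ev2_eq_eval] at h2
    rw [fib_lineHom, derivative_map, ← ev2_eq_eval]
    exact M.sep3 ℂ _ _ (M.on_sl (hsl.line u) hZ) h2 h1
  obtain ⟨e, he⟩ : ∃ e, e = (M.F3.map (lineHom w0 w)).natDegree.factorial *
    (2 * (r * r * (n + 1)) + 4) := ⟨_, rfl⟩
  have he1 : 2 * (r * r * (n + 1)) + 4 ≤ e := by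
    rw [he]
    exact Nat.le_mul_of_pos_left _ (Nat.factorial_pos _)
  have he0 : 0 < e := by omega
  obtain ⟨ε, hε, θs, hθa, hθs⟩ := exists_puiseux _ hFm _ hG' hsep he0 (he ▸ dvd_mul_right _ _)
  have hout : ∀ j, j ∉ l → a.re < (w (Sum.inl j)).re := fun j hj =>
    ha ▸ hw.2 i₀ j (arc_lt hρ hl hi hj)
  have hne : ∀ j, j ∉ l.toFinset → w (Sum.inl j) ≠ a := by
    intro j hj h
    have h1 := hout j (by simpa using hj)
    rw [h] at h1
    exact lt_irrefl _ h1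
  have hbr : ∀ j, ∃ ϱ : ℕ, 0 < ϱ ∧ ϱ < e ∧ ∀ᶠ z in 𝓝[≠] (0 : ℂ), OrrM M.toModel2.ε l.toFinset
      (sqLoop (fun i => (w0 + z ^ e • (w - w0)) (Sum.inl i))
        (M.toModel2.mA (w0 + z ^ e • (w - w0)) (θs j z) : Fin n → Mat r) a (z ^ ϱ)) := by
    intro j
    rw [hw0]
    refine arc_branch3 M l.toFinset a hne (fun i hi => Or.inl (hM i (List.mem_toFinset.1 hi))) hZ hG
      he1 (hθa j) ?_
    filter_upwards [self_mem_nhdsWithin,
      mem_nhdsWithin_of_mem_nhds (Metric.ball_mem_nhds (0 : ℂ) hε)] with z hz hz'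
    rw [← hw0, ev2_eq_eval, ← fib_lineHom, hθs z hz' hz, eval_prod]
    exact Finset.prod_eq_zero (Finset.mem_univ j) (by simp)
  choose ϱ hϱ0 hϱe hϱ using hbr
  have hbox := hw.1 i₀
  simp only [pp, abs_lt, ← ha] at hbox
  have htend : Tendsto (fun x : ℝ => (x : ℂ)) (𝓝[>] 0) (𝓝[≠] 0) := by
    refine tendsto_nhdsWithin_iff.2 ⟨?_, ?_⟩
    · have := (Complex.continuous_ofReal.tendsto 0).mono_left (nhdsWithin_le_nhds (s := Ioi 0))
      simpa using this
    · filter_upwards [self_mem_nhdsWithin] with x hx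
      exact Complex.ofReal_ne_zero.2 (ne_of_gt hx)
  have hsmall : ∀ c d : ℝ, 0 < d → ∀ᶠ x : ℝ in 𝓝[>] 0, x * c < d := by
    intro c d hd
    refine Eventually.filter_mono nhdsWithin_le_nhds ?_
    have : ContinuousAt (fun x : ℝ => x * c) 0 := by fun_prop
    exact this.eventually_lt continuousAt_const (by simpa using hd)
  have hev : ∀ᶠ x : ℝ in 𝓝[>] 0, (∀ j, OrrM M.toModel2.ε l.toFinset
      (sqLoop (fun i => (w0 + (x : ℂ) ^ e • (w - w0)) (Sum.inl i))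
        (M.toModel2.mA (w0 + (x : ℂ) ^ e • (w - w0)) (θs j x) : Fin n → Mat r) a
          ((x : ℂ) ^ ϱ j))) ∧ x * 1 < 1 ∧ x * 1 < ε ∧ x * 1 < a.re + H ∧
      x * 1 < a.im + H ∧ x * 1 < H - a.im ∧ (∀ i, x * ‖w (Sum.inl i) - a‖ < 1) ∧
      ∀ i, i ∉ l → x * 1 < (w (Sum.inl i)).re - a.re := by
    refine (htend.eventually (eventually_all.2 hϱ)).and ((hsmall _ _ one_pos).and
      ((hsmall _ _ hε).and ((hsmall _ _ (by linarith [hbox.1.1])).and
      ((hsmall _ _ (by linarith [hbox.2.1])).and ((hsmall _ _ (by linarith [hbox.2.2])).and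
      ((eventually_all.2 fun i => hsmall _ _ one_pos).and (eventually_all.2 fun i => ?_)))))))
    by_cases h : i ∈ l
    · exact Eventually.of_forall fun x hx => absurd h hx
    · filter_upwards [hsmall 1 _ (sub_pos.2 (hout i h))] with x hx _ using hx
  obtain ⟨δ, hδ, hδ'⟩ := mem_nhdsGT_iff_exists_Ioo_subset.1 hev
  have hδ0 : 0 < δ := hδ
  refine orrM_cont3 M (isOpen_Cham ρ H) (convex_Cham ρ H)
    (fun y => (l.map (mon2 M.toModel2 H y)).prod)
    (fun w' hw' hG' θ' => DiffU.list_prod (fun i => diffU_mon2 M.toModel2 hρ hw' hG' θ' i) l) M.toModel2.ε l.toFinset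
    (w0 := w0) hsl hw hZ hG (pow_pos hδ0 e) (fun s hs => ?_) hF
  obtain ⟨x, hx0, hxs⟩ : ∃ x : ℝ, 0 < x ∧ x ^ e = s :=
    ⟨s ^ ((e : ℝ)⁻¹), Real.rpow_pos_of_pos hs.1 _, Real.rpow_inv_natCast_pow hs.1.le he0.ne'⟩
  have hxδ : x < δ := lt_of_pow_lt_pow_left₀ e hδ0.le (hxs ▸ hs.2)
  obtain ⟨h1, h2, h3, h4, h5, h6, h7, h8⟩ := hδ' ⟨hx0, hxδ⟩
  rw [mul_one] at h2 h3 h4 h5 h6
  have hs1 : s ≤ 1 := hxs ▸ pow_le_one₀ hx0.le h2.le
  have hmem : w0 + (s : ℂ) • (w - w0) ∈ Cham M.m ρ H := by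
    rw [hw0, ha]
    exact arc_mem_Cham hρ hl hi hw hs.1 hs1
  refine ⟨hmem, fun _ θ' hθ' => ?_⟩
  have hsx : (x : ℂ) ^ e = s := by rw [← hxs, Complex.ofReal_pow]
  obtain ⟨j, rfl⟩ : ∃ j, θ' = θs j x := by
    have hxb : (x : ℂ) ∈ Metric.ball (0 : ℂ) ε := by
      rw [mem_ball_zero_iff, Complex.norm_real, Real.norm_eq_abs, abs_of_pos hx0]
      exact h3
    rw [ev2_eq_eval, ← fib_lineHom, ← hsx, hθs x hxb (Complex.ofReal_ne_zero.2 hx0.ne'),
      eval_prod, Finset.prod_eq_zero_iff] at hθ'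
    obtain ⟨j, -, hj⟩ := hθ'
    exact ⟨j, by simpa [sub_eq_zero] using hj⟩
  have hO := h1 j
  rw [hsx, ← Complex.ofReal_pow, ← RL_TT] at hO
  obtain ⟨y, hy⟩ : ∃ y, y = x ^ ϱ j := ⟨_, rfl⟩
  rw [← hy] at hO
  have hy0 : 0 < y := hy ▸ pow_pos hx0 _
  have hyx : y ≤ x := hy ▸ pow_le_of_le_one hx0.le h2.le (hϱ0 j).ne'
  have hsy : s ≤ y * x := by
    rw [← hxs, hy, ← pow_succ]
    exact pow_le_pow_of_le_one hx0.le h2.le (hϱe j)
  have hconj := prod_vt_conj (rectT_TT (fun i => (w0 + (s : ℂ) • (w - w0)) (Sum.inl i))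
      (M.toModel2.mA (w0 + (s : ℂ) • (w - w0)) (θs j x))) hmem.1 (Cham.re_injective hρ hmem)
    (Cham.lowerL hρ hmem hl) (x1 := a.re - y) (x2 := a.re + y) (y1 := a.im - y) (y2 := a.im + y)
    (by linarith) (by linarith) (by linarith) (by linarith) (by linarith) ?_ ?_
  · exact OrrM.of_isConj hconj hO
  · intro c hc
    have hn : s * ‖w (Sum.inl c) - a‖ < y := by
      have h9 := h7 c
      have h10 := norm_nonneg (w (Sum.inl c) - a)
      nlinarith
    have hre := abs_lt.1 (lt_of_le_of_lt (mul_le_mul_of_nonneg_left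
      (Complex.abs_re_le_norm (w (Sum.inl c) - a)) hs.1.le) hn |>.trans_le' (by
        rw [abs_mul, abs_of_pos hs.1]) : |s * (w (Sum.inl c) - a).re| < y)
    have him := abs_lt.1 (lt_of_le_of_lt (mul_le_mul_of_nonneg_left
      (Complex.abs_im_le_norm (w (Sum.inl c) - a)) hs.1.le) hn |>.trans_le' (by
        rw [abs_mul, abs_of_pos hs.1]) : |s * (w (Sum.inl c) - a).im| < y)
    simp only [pp, hw0, arc_in hc, mem_prod, mem_Ioo, Complex.add_re, Complex.add_im,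
      Complex.re_ofReal_mul, Complex.im_ofReal_mul]
    refine ⟨⟨?_, ?_⟩, ?_, ?_⟩ <;> linarith [hre.1, hre.2, him.1, him.2]
  · intro c hc
    have h9 := h8 c hc
    simp only [pp, hw0, arc_out hc]
    linarith

theorem arc3_single (M : Model3 n r Mov) {ρ : Fin n → ℝ} (hρ : Function.Injective ρ) {H : ℝ}
    (i : Fin n) {w : Fin n ⊕ Fin M.m → ℂ}
    (hw : w ∈ Cham M.m ρ H) (hZ : ∀ z ∈ M.Z, ev1 w z = 0) (hG : ev1 w M.G ≠ 0) {θ : ℂ}
    (hF : ev2 w θ M.F3 = 0) : OrrM M.toModel2.ε {i} (mon2 M.toModel2 H (w, θ) i).val := by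
  classical
  have hre := Cham.re_injective hρ hw
  obtain ⟨a, ha⟩ : ∃ a, a = w (Sum.inl i) := ⟨_, rfl⟩
  have hws : wstar {i} a w = w := by
    funext s
    rcases s with j | j
    · by_cases h : j = i
      · simp [wstar, h, ha]
      · simp [wstar, h]
    · rfl
  obtain ⟨ϱ, hϱ0, -, hϱ⟩ := arc_branch3 M {i} a (w := w)
    (fun j hj h => hj (Finset.mem_singleton.2 (hre (by simp only [h, ha]))))
    (fun j hj => Or.inr (by rw [Finset.mem_singleton.1 hj, ha])) hZ hG le_rfl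
    (θ := fun _ => θ) analyticAt_const (Eventually.of_forall fun z => by
      rw [hws, sub_self, smul_zero, add_zero]
      exact hF)
  simp only [hws, sub_self, smul_zero, add_zero] at hϱ
  obtain ⟨ε, hε, hv⟩ := exists_validAt hre i
  have hbox := hw.1 i
  simp only [pp, abs_lt, ← ha] at hbox
  have htend : Tendsto (fun x : ℝ => (x : ℂ)) (𝓝[>] 0) (𝓝[≠] 0) := by
    refine tendsto_nhdsWithin_iff.2 ⟨?_, ?_⟩
    · have := (Complex.continuous_ofReal.tendsto 0).mono_left (nhdsWithin_le_nhds (s := Ioi 0))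
      simpa using this
    · filter_upwards [self_mem_nhdsWithin] with x hx
      exact Complex.ofReal_ne_zero.2 (ne_of_gt hx)
  have hsmall : ∀ d : ℝ, 0 < d → ∀ᶠ x : ℝ in 𝓝[>] 0, x < d := fun d hd =>
    Eventually.filter_mono nhdsWithin_le_nhds (eventually_lt_nhds hd)
  obtain ⟨x, h1, h2, h3, h4, h5, hx0⟩ := ((htend.eventually hϱ).and ((hsmall 1 one_pos).and
    ((hsmall ε hε).and ((hsmall (a.im + H) (by linarith [hbox.2.1])).and
      ((hsmall (H - a.im) (by linarith [hbox.2.2])).and self_mem_nhdsWithin))))).exists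
  have hx0' : 0 < x := hx0
  rw [← Complex.ofReal_pow, ← RL_TT] at h1
  obtain ⟨y, hy⟩ : ∃ y, y = x ^ ϱ := ⟨_, rfl⟩
  rw [← hy] at h1
  have hy0 : 0 < y := hy ▸ pow_pos hx0' _
  have hyx : y ≤ x := hy ▸ pow_le_of_le_one hx0'.le h2.le hϱ0.ne'
  have hV := hv (a.re - y) (a.re + y) (by rw [← ha]; linarith) (by rw [← ha]; linarith)
    (by rw [← ha]; linarith) (by rw [← ha]; linarith)
  have he := vt_eq_RL (rectT_TT (fun i => w (Sum.inl i)) (M.toModel2.mA w θ)) hw.1 hV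
    (y1 := a.im - y) (y2 := a.im + y) (by linarith) (by simp only [pp, ← ha]; linarith)
    (by simp only [pp, ← ha]; linarith) (by linarith)
  refine OrrM.of_isConj (isConj_iff.2 ⟨Ybot (TT (fun i => w (Sum.inl i)) (M.toModel2.mA w θ)) H
    (a.re - y, a.im - y), ?_⟩) h1
  simp only [mon2]
  rw [he]
  group

end Pool.Agent.GR
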