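import Pool.Agent.Lib.MP_aa40d3_nt.MR.Span

/-! Second stage: frames. -/

open Matrix

namespace Pool.Agent.GR

variable {n r : ℕ}

/-- An eigenspace. -/
def frameE (x : Matrix (Fin r) (Fin r) ℂ) (c : ℂ) : Submodule ℂ (Fin r → ℂ) where
  carrier := {v | x *ᵥ v = c • v}
  add_mem' {u v} hu hv := by
    change x *ᵥ (u + v) = c • (u + v)
    rw [mulVec_add, smul_add, hu, hv]
  zero_mem' := by simp
  smul_mem' d v hv := by
    change x *ᵥ (d • v) = c • d • v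
    rw [mulVec_smul, hv, smul_comm]

theorem frame_mem {x : Matrix (Fin r) (Fin r) ℂ} {c : ℂ} {v : Fin r → ℂ} :
    v ∈ frameE x c ↔ x *ᵥ v = c • v := Iff.rfl

theorem frame_inv {x y : Matrix (Fin r) (Fin r) ℂ} (h : x * y = y * x) {c : ℂ} {v : Fin r → ℂ}
    (hv : v ∈ frameE x c) : y *ᵥ v ∈ frameE x c := by
  rw [frame_mem] at hv ⊢
  rw [mulVec_mulVec, h, ← mulVec_mulVec, hv, mulVec_smul]

theorem frame_eig {U : Submodule ℂ (Fin r → ℂ)} (hU : U ≠ ⊥) {x : Matrix (Fin r) (Fin r) ℂ}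
    (hx : ∀ v ∈ U, x *ᵥ v ∈ U) : ∃ c : ℂ, ∃ v ∈ U, v ≠ 0 ∧ x *ᵥ v = c • v := by
  have := Submodule.nontrivial_iff_ne_bot.2 hU
  obtain ⟨c, hc⟩ := Module.End.exists_eigenvalue ((toLin' x).restrict (p := U) (q := U) hx)
  obtain ⟨v, hv⟩ := hc.exists_hasEigenvector
  exact ⟨c, v, v.2, fun e => hv.2 (Subtype.ext e), congrArg Subtype.val hv.apply_eq_smul⟩

theorem frame_ext {x y : Matrix (Fin r) (Fin r) ℂ} (h : ∀ v, x *ᵥ v = y *ᵥ v) : x = y :=
  toLin'.injective (LinearMap.ext h)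

theorem frame_sc {x : Matrix (Fin r) (Fin r) ℂ} {c : ℂ} (h : ∀ v, x *ᵥ v = c • v) :
    x = c • (1 : Matrix (Fin r) (Fin r) ℂ) :=
  frame_ext fun v => by rw [h, smul_mulVec, one_mulVec]

/-- Take a minimal nonzero invariant subspace. -/
theorem exists_common_eig [NeZero r] {S : Set (Matrix (Fin r) (Fin r) ℂ)}
    (hS : ∀ x ∈ S, ∀ y ∈ S, x * y = y * x) :
    ∃ v : Fin r → ℂ, v ≠ 0 ∧ ∀ x ∈ S, ∃ c : ℂ, x *ᵥ v = c • v := by
  obtain ⟨U, hU⟩ := exists_minimal_of_wellFoundedLT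
    (fun U : Submodule ℂ (Fin r → ℂ) => U ≠ ⊥ ∧ ∀ x ∈ S, ∀ v ∈ U, x *ᵥ v ∈ U)
    ⟨⊤, top_ne_bot, fun _ _ _ _ => trivial⟩
  obtain ⟨v, hv, h0⟩ := (Submodule.ne_bot_iff U).1 hU.prop.1
  refine ⟨v, h0, fun x hx => ?_⟩
  obtain ⟨c, u, hu, u0, e⟩ := frame_eig hU.prop.1 (hU.prop.2 x hx)
  refine ⟨c, (hU.le_of_le (y := U ⊓ frameE x c) ⟨?_, fun y hy w hw => ?_⟩ inf_le_left hv).2⟩
  · exact (Submodule.ne_bot_iff _).2 ⟨u, ⟨hu, e⟩, u0⟩
  · exact ⟨hU.prop.2 y hy w hw.1, frame_inv (hS x hx y hy) hw.2⟩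

theorem IrrS.schur [NeZero r] {H : Subgroup (GLr r)} (hi : IrrS H) {x : Matrix (Fin r) (Fin r) ℂ}
    (hx : ∀ y ∈ H, x * y.val = y.val * x) : ∃ c : ℂ, x = c • (1 : Matrix (Fin r) (Fin r) ℂ) := by
  obtain ⟨c, u, -, u0, e⟩ := frame_eig (U := ⊤) top_ne_bot (x := x) fun _ _ => trivial
  rcases hi (frameE x c) fun y hy v hv => frame_inv (hx y hy) hv with h | h
  · exact absurd h ((Submodule.ne_bot_iff _).2 ⟨u, e, u0⟩)
  · exact ⟨c, frame_sc fun v => frame_mem.1 (h ▸ Submodule.mem_top)⟩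

theorem frame_near (γ : GLr r) {z : GLr r} (h : Near z) : Near (γ * z * γ⁻¹) := by
  unfold Near at h ⊢
  rwa [Units.val_mul, Units.val_mul, trace_mul_cycle, Units.inv_mul, one_mul]

theorem Zc.conj_mem {γ z : GLr r} {H : Subgroup (GLr r)} (hz : z ∈ Zc H) :
    γ * z * γ⁻¹ ∈ Zc (cj γ H) := by
  refine ⟨mem_cj.2 (by simpa [mul_assoc] using hz.1), frame_near γ hz.2.1, fun y hy h => ?_⟩
  have h1 := frame_near γ⁻¹ h
  rw [inv_inv] at h1
  have h2 := hz.2.2 _ (mem_cj.1 hy) h1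
  calc γ * z * γ⁻¹ * y = γ * (z * (γ⁻¹ * y * γ)) * γ⁻¹ := by group
    _ = _ := by rw [h2]; group

theorem frame_dc {γ : GLr r} {H : Subgroup (GLr r)} {x : Matrix (Fin r) (Fin r) ℂ}
    (hx : x ∈ Dc (cj γ H)) : (γ⁻¹).val * x * γ.val ∈ Dc H := by
  intro z hz
  have h := hx _ (Zc.conj_mem (γ := γ) hz)
  rw [Units.val_mul, Units.val_mul] at h
  calc (γ⁻¹).val * x * γ.val * z.val
      = (γ⁻¹).val * (x * (γ.val * z.val * (γ⁻¹).val)) * γ.val := by
        simp only [mul_assoc, Units.inv_mul, mul_one]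
    _ = _ := by
        rw [h]
        simp only [mul_assoc, Units.inv_mul_cancel_left]

/-- Let `E` be a common eigenspace of `Zc H`, with character `χ`. A reflection that fixes a nonzero
vector of `E` preserves `χ` and `E`. If `E` is not a line all generating reflections do, so `E = ⊤`
and `Zc H` is scalar. Hence all the spaces `y E` are lines, they span, and `Dc H` is diagonal. -/
theorem frame_comm [NeZero r] {H : Subgroup (GLr r)} (hi : IrrS H) (hr : RG H)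
    (hz : ∃ z ∈ Zc H, ¬ IsSc z) : ∀ x ∈ Dc H, ∀ y ∈ Dc H, x * y = y * x := by
  obtain ⟨v, v0, hv⟩ := exists_common_eig (S := Units.val '' Zc H) (by
    rintro _ ⟨z, hz, rfl⟩ _ ⟨z', hz', rfl⟩
    exact congrArg Units.val (hz.2.2 z' hz'.1 hz'.2.1))
  choose! χ hχ using fun z (hz : z ∈ Zc H) => hv z.val ⟨z, hz, rfl⟩
  set E : Submodule ℂ (Fin r → ℂ) := ⨅ z ∈ Zc H, frameE z.val (χ z) with hE
  have mE : ∀ w, w ∈ E ↔ ∀ z ∈ Zc H, z.val *ᵥ w = χ z • w := fun w => by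
    simp only [hE, Submodule.mem_iInf, frame_mem]
  have vE : v ∈ E := (mE v).2 hχ
  have cZ : ∀ y ∈ H, ∀ z ∈ Zc H, y⁻¹ * z * y ∈ Zc H := fun y hy z hz => by
    have h := Zc.conj_mem (γ := y⁻¹) hz
    rwa [cj_self (inv_mem hy), inv_inv] at h
  have fix : ∀ y ∈ H, ∀ u ∈ E, u ≠ 0 → y.val *ᵥ u = u → ∀ w ∈ E, y.val *ᵥ w ∈ E := by
    intro y hy u hu u0 e w hw
    refine (mE _).2 fun z hz => ?_
    have e1 : ∀ t, z.val *ᵥ y.val *ᵥ t = y.val *ᵥ (y⁻¹ * z * y).val *ᵥ t := fun t => by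
      rw [mulVec_mulVec, mulVec_mulVec, ← Units.val_mul, ← Units.val_mul, mul_assoc,
        mul_inv_cancel_left]
    have e2 := e1 u
    rw [e, (mE u).1 hu z hz, (mE u).1 hu _ (cZ y hy z hz), mulVec_smul, e] at e2
    rw [e1, (mE w).1 hw _ (cZ y hy z hz), mulVec_smul, smul_left_injective ℂ u0 e2]
  have line : ∀ w ∈ E, ∃ c : ℂ, w = c • v := by
    intro w hw
    by_contra hc
    obtain ⟨s, hs, rfl⟩ := hr
    have gen : ∀ y ∈ s, ∃ u ∈ E, u ≠ 0 ∧ y.val *ᵥ u = u := by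
      intro y hy
      obtain ⟨e, f, -, h⟩ := hs y hy
      have k : ∀ u, f ⬝ᵥ u = 0 → y.val *ᵥ u = u := fun u hu => by
        rw [h, sub_mulVec, one_mulVec, vecMulVec_mulVec, hu, MulOpposite.op_zero, zero_smul,
          sub_zero]
      by_cases h0 : f ⬝ᵥ v = 0
      · exact ⟨v, vE, v0, k v h0⟩
      · refine ⟨w - (f ⬝ᵥ w / f ⬝ᵥ v) • v, E.sub_mem hw (E.smul_mem _ vE),
          fun e => hc ⟨_, sub_eq_zero.1 e⟩, k _ ?_⟩
        rw [dotProduct_sub, dotProduct_smul, smul_eq_mul, div_mul_cancel₀ _ h0, sub_self]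
    have inv : ∀ y ∈ Subgroup.closure s, ∀ w ∈ E, y.val *ᵥ w ∈ E := by
      intro y hy
      induction hy using Subgroup.closure_induction'' with
      | mem y hy =>
        obtain ⟨u, hu, u0, e⟩ := gen y hy
        exact fix y (Subgroup.subset_closure hy) u hu u0 e
      | inv_mem y hy =>
        obtain ⟨u, hu, u0, e⟩ := gen y hy
        refine fix _ (inv_mem (Subgroup.subset_closure hy)) u hu u0 ?_
        conv_lhs => rw [← e, mulVec_mulVec, Units.inv_mul, one_mulVec]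
      | one => intro w hw; rwa [Units.val_one, one_mulVec]
      | mul x y _ _ hx hy =>
        intro w hw
        rw [Units.val_mul, ← mulVec_mulVec]
        exact hx _ (hy w hw)
    rcases hi E inv with h | h
    · exact absurd h ((Submodule.ne_bot_iff _).2 ⟨v, vE, v0⟩)
    · obtain ⟨z, hz, h1⟩ := hz
      exact h1 ⟨χ z, frame_sc fun t => (mE t).1 (h ▸ Submodule.mem_top) z hz⟩
  have eig : ∀ x ∈ Dc H, ∃ c : ℂ, x *ᵥ v = c • v := fun x hx =>
    line _ ((mE _).2 fun z hz => frame_inv (hx z hz).symm (hχ z hz))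
  set U : Submodule ℂ (Fin r → ℂ) := ⨅ x ∈ Dc H, ⨅ y ∈ Dc H, frameE (x * y - y * x) 0 with hU
  have mU : ∀ w, w ∈ U ↔ ∀ x ∈ Dc H, ∀ y ∈ Dc H, (x * y) *ᵥ w = (y * x) *ᵥ w := fun w => by
    simp only [hU, Submodule.mem_iInf, frame_mem, sub_mulVec, zero_smul, sub_eq_zero]
  have vU : v ∈ U := (mU v).2 fun x hx y hy => by
    obtain ⟨c, hc⟩ := eig x hx
    obtain ⟨d, hd⟩ := eig y hy
    rw [← mulVec_mulVec, ← mulVec_mulVec, hc, hd, mulVec_smul, mulVec_smul, hc, hd, smul_comm]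
  have inv : ∀ g ∈ H, ∀ w ∈ U, g.val *ᵥ w ∈ U := fun g hg w hw => (mU _).2 fun x hx y hy => by
    have e : ∀ x y : Matrix (Fin r) (Fin r) ℂ, (x * y) *ᵥ g.val *ᵥ w =
        g.val *ᵥ (((g⁻¹).val * x * g.val) * ((g⁻¹).val * y * g.val)) *ᵥ w := fun x y => by
      simp only [mulVec_mulVec, mul_assoc, Units.mul_inv_cancel_left]
    rw [← cj_self hg] at hx hy
    rw [e, e, (mU w).1 hw _ (frame_dc hx) _ (frame_dc hy)]
  rcases hi U inv with h | h
  · exact absurd h ((Submodule.ne_bot_iff _).2 ⟨v, vU, v0⟩)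
  · exact fun x hx y hy => frame_ext fun t => (mU t).1 (h ▸ Submodule.mem_top) x hx y hy

theorem Dc_eq {H H' : Subgroup (GLr r)} (hle : H ≤ H') (h1 : ∀ x ∈ Dc H, ∀ y ∈ Dc H, x * y = y * x)
    (h2 : ∀ x ∈ Dc H', ∀ y ∈ Dc H', x * y = y * x) : Dc H = Dc H' := by
  ext x
  refine ⟨fun hx z hz => h1 x hx _ fun y hy => ?_, fun hx z hz => h2 x hx _ fun y hy => ?_⟩
  · exact congrArg Units.val (hz.2.2 y (hle hy.1) hy.2.1)
  · exact (congrArg Units.val (hy.2.2 z (hle hz.1) hz.2.1)).symm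

theorem frame_act {γ : GLr r} {S : Set (Matrix (Fin r) (Fin r) ℂ)} {x : Matrix (Fin r) (Fin r) ℂ} :
    x ∈ actM γ S ↔ (γ⁻¹).val * x * γ.val ∈ S := by
  constructor
  · rintro ⟨y, hy, rfl⟩
    simpa only [mul_assoc, Units.inv_mul_cancel_left, Units.inv_mul, mul_one] using hy
  · exact fun h => ⟨_, h, by simp only [mul_assoc, Units.mul_inv_cancel_left, Units.mul_inv, mul_one]⟩

theorem frame_cj (γ : GLr r) (H : Subgroup (GLr r)) : cj γ⁻¹ (cj γ H) = H := by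
  ext x
  rw [mem_cj, mem_cj, show γ⁻¹ * (γ⁻¹⁻¹ * x * γ⁻¹) * γ = x by group]

theorem frame_mem_cj (γ : GLr r) {H : Subgroup (GLr r)} {y : GLr r} (hy : y ∈ H) :
    γ * y * γ⁻¹ ∈ cj γ H := ⟨y, hy, rfl⟩

theorem Dc_cj (γ : GLr r) (H : Subgroup (GLr r)) : Dc (cj γ H) = actM γ (Dc H) := by
  ext x
  rw [frame_act]
  refine ⟨frame_dc, fun hx => ?_⟩
  rw [← frame_cj γ H] at hx
  have h := frame_dc hx
  simpa only [inv_inv, mul_assoc, Units.mul_inv_cancel_left, Units.mul_inv, mul_one] using h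

theorem cone_cj (γ : GLr r) (H : Subgroup (GLr r)) : cone (cj γ H) = actM γ (cone H) := by
  ext x
  constructor
  · rintro ⟨_, ⟨y, hy, rfl⟩, c, rfl⟩
    exact ⟨c • y.val, ⟨y, hy, c, rfl⟩, by simp⟩
  · rintro ⟨_, ⟨y, hy, c, rfl⟩, rfl⟩
    exact ⟨_, frame_mem_cj γ hy, c, by simp⟩

theorem pc_cj (γ : GLr r) (H : Subgroup (GLr r)) : pc (cj γ H) = pc H := by
  set f := LinearMap.mulLeftRight ℂ (γ.val, (γ⁻¹).val) with hf
  have hi : Function.Injective f := fun x y e => by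
    rw [hf, LinearMap.mulLeftRight_apply, LinearMap.mulLeftRight_apply] at e
    exact (Units.mul_right_inj γ).1 ((Units.mul_left_inj γ⁻¹).1 e)
  have e : lineOf '' (cj γ H : Set (GLr r)) = Submodule.map f '' (lineOf '' (H : Set (GLr r))) := by
    rw [cj, Subgroup.coe_map, Set.image_image, Set.image_image]
    refine Set.image_congr fun y _ => ?_
    rw [lineOf, lineOf, Submodule.map_span, Set.image_singleton]
    rfl
  rw [pc, e, Set.ncard_image_of_injective _ (Submodule.map_injective_of_injective hi), pc]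

theorem pc_mono {H H' : Subgroup (GLr r)} [Finite H'] (hle : H ≤ H') : pc H ≤ pc H' := by
  exact Set.ncard_le_ncard (Set.image_mono hle) ((Set.toFinite (H' : Set (GLr r))).image _)

theorem cone_eq {H H' : Subgroup (GLr r)} [Finite H'] (hle : H ≤ H') (h : pc H = pc H') :
    cone H = cone H' := by
  have e := Set.eq_of_subset_of_ncard_le (Set.image_mono (f := lineOf) hle) h.ge
    ((Set.toFinite (H' : Set (GLr r))).image _)
  ext x
  refine ⟨fun ⟨y, hy, k⟩ => ⟨y, hle hy, k⟩, ?_⟩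
  rintro ⟨y, hy, c, rfl⟩
  obtain ⟨y', hy', k⟩ : lineOf y ∈ lineOf '' (H : Set (GLr r)) := e ▸ ⟨y, hy, rfl⟩
  obtain ⟨d, hd⟩ := Submodule.mem_span_singleton.1
    (k ▸ Submodule.mem_span_singleton_self y.val : y.val ∈ lineOf y')
  exact ⟨y', hy', c * d, by rw [← hd, smul_smul]⟩

theorem OkB.cj {H : Subgroup (GLr r)} (h : OkB H) (γ : GLr r) : OkB (cj γ H) := by
  obtain ⟨h1, h2, s, hs, rfl⟩ := h
  refine ⟨Finite.of_surjective _ (MonoidHom.subgroupMap_surjective _ _), fun U hU => ?_,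
    _, ?_, MonoidHom.map_closure _ _⟩
  · have k : ∀ v, γ.val *ᵥ (γ⁻¹).val *ᵥ v = v := fun v => by
      rw [mulVec_mulVec, Units.mul_inv, one_mulVec]
    refine (h2 (U.comap (toLin' γ.val)) fun x hx v hv => ?_).imp (fun e => ?_) fun e => ?_
    · have h3 := hU _ (frame_mem_cj γ hx) _ hv
      change γ.val *ᵥ x.val *ᵥ v ∈ U
      rwa [toLin'_apply, mulVec_mulVec, ← Units.val_mul, inv_mul_cancel_right, Units.val_mul,
        ← mulVec_mulVec] at h3
    · refine (Submodule.eq_bot_iff _).2 fun v hv => ?_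
      have h3 : (γ⁻¹).val *ᵥ v ∈ U.comap (toLin' γ.val) := by
        rwa [Submodule.mem_comap, toLin'_apply, k]
      rw [e, Submodule.mem_bot] at h3
      rw [← k v, h3, mulVec_zero]
    · refine Submodule.eq_top_iff'.2 fun v => ?_
      have h3 : (γ⁻¹).val *ᵥ v ∈ U.comap (toLin' γ.val) := e ▸ Submodule.mem_top
      rwa [Submodule.mem_comap, toLin'_apply, k] at h3
  · rintro _ ⟨y, hy, rfl⟩
    exact (hs y hy).conj (isConj_iff.2 ⟨γ, rfl⟩)

end Pool.Agent.GR
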