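import Pool.Agent.Lib.MP_aa40d3_nt.MR.Move

/-! Moves of a movable cluster; irreducible clusters are finite. -/

open Polynomial Matrix

namespace Pool.Agent.GR

variable {n r : ℕ} {Mov : Finset (Fin n)} {L0 : List (Fin n)}

theorem sim_cut {α : Type} (p : α → Prop) {A : List α} (hA : A.Pairwise fun a b => p b → p a) :
    ∃ L₁ T, A = L₁ ++ T ∧ (∀ b ∈ L₁, p b) ∧ ∀ b ∈ T, ¬p b := by
  induction A with
  | nil => exact ⟨[], [], rfl, by simp, by simp⟩
  | cons a A ih =>
    obtain ⟨h1, h2⟩ := List.pairwise_cons.1 hA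
    by_cases ha : p a
    · obtain ⟨L₁, T, rfl, h3, h4⟩ := ih h2
      exact ⟨a :: L₁, T, rfl, List.forall_mem_cons.2 ⟨ha, h3⟩, h4⟩
    · exact ⟨[], a :: A, rfl, by simp, List.forall_mem_cons.2 ⟨ha, fun b hb h => ha (h1 b hb h)⟩⟩

/-- A complete sorted list splits according to a valid move. -/
theorem sim_split {m : ℕ} {ρ : Fin m → ℝ} {L : List (Fin m)} (hL : L.Pairwise fun a b => ρ a < ρ b)
    (hall : ∀ a, a ∈ L) {i : Fin m} {x : ℝ} (hx : x < ρ i) (hf : ∀ c, ρ c ≠ x) :
    ∃ L₁ T L₂, L = L₁ ++ T ++ i :: L₂ ∧ T.toFinset = mvS ρ i x ∧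
      (L₁ ++ i :: T ++ L₂).Pairwise fun a b => Function.update ρ i x a < Function.update ρ i x b := by
  obtain ⟨A, L₂, rfl⟩ := List.append_of_mem (hall i)
  obtain ⟨pA, p0, p6⟩ := List.pairwise_append.1 hL
  obtain ⟨p4, p5⟩ := List.pairwise_cons.1 p0
  obtain ⟨L₁, T, rfl, q2, q1⟩ := sim_cut (fun a => ρ a < x) (pA.imp fun h h' => h.trans h')
  replace q1 : ∀ b ∈ T, x < ρ b := fun b hb => lt_of_le_of_ne (not_lt.1 (q1 b hb)) (hf b).symm
  obtain ⟨p1, p2, p3⟩ := List.pairwise_append.1 pA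
  have q3 : ∀ b ∈ L₁ ++ T, ρ b < ρ i := fun b hb => p6 b hb i List.mem_cons_self
  have n1 : ∀ b ∈ L₁, Function.update ρ i x b = ρ b := fun b hb => Function.update_of_ne
    (fun e => (q3 b (List.mem_append_left _ hb)).ne (congrArg _ e)) _ _
  have n2 : ∀ b ∈ T, Function.update ρ i x b = ρ b := fun b hb => Function.update_of_ne
    (fun e => (q3 b (List.mem_append_right _ hb)).ne (congrArg _ e)) _ _
  have n3 : ∀ b ∈ L₂, Function.update ρ i x b = ρ b := fun b hb => Function.update_of_ne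
    (fun e => (p4 b hb).ne' (congrArg _ e)) _ _
  refine ⟨L₁, T, L₂, rfl, ?_, ?_⟩
  · ext b
    simp only [mvS, Finset.mem_filter, Finset.mem_univ, true_and, List.mem_toFinset]
    refine ⟨fun hb => ⟨q1 b hb, q3 b (List.mem_append_right _ hb)⟩, fun hb => ?_⟩
    have h3 := hall b
    simp only [List.mem_append, List.mem_cons] at h3
    rcases h3 with (h3 | h3) | h3 | h3
    · exact absurd (q2 b h3) hb.1.not_gt
    · exact h3
    · exact absurd (congrArg _ h3) hb.2.ne
    · exact absurd (p4 b h3) hb.2.not_gt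
  · refine List.pairwise_append.2 ⟨List.pairwise_append.2 ⟨?_, List.pairwise_cons.2 ⟨?_, ?_⟩, ?_⟩,
      ?_, ?_⟩
    · exact p1.imp_of_mem fun ha hb h => by rwa [n1 _ ha, n1 _ hb]
    · intro b hb
      rw [Function.update_self, n2 b hb]
      exact q1 b hb
    · exact p2.imp_of_mem fun ha hb h => by rwa [n2 _ ha, n2 _ hb]
    · intro a ha b hb
      rw [n1 a ha]
      rcases List.mem_cons.1 hb with rfl | hb
      · rw [Function.update_self]
        exact q2 a ha
      · rw [n2 b hb]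
        exact p3 a ha b hb
    · exact p5.imp_of_mem fun ha hb h => by rwa [n3 _ ha, n3 _ hb]
    · intro a ha b hb
      rw [n3 b hb]
      rcases List.mem_append.1 ha with ha | ha
      · rw [n1 a ha]
        exact (q3 a (List.mem_append_left _ ha)).trans (p4 b hb)
      · rcases List.mem_cons.1 ha with rfl | ha
        · rw [Function.update_self]
          exact hx.trans (p4 b hb)
        · rw [n2 a ha]
          exact (q3 a (List.mem_append_right _ ha)).trans (p4 b hb)

/-- A lower set is an initial segment of the complete sorted list. -/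
theorem sim_lower {m : ℕ} {ρ : Fin m → ℝ} {L l : List (Fin m)}
    (hL : L.Pairwise fun a b => ρ a < ρ b) (hall : ∀ a, a ∈ L) (hl : LowerL ρ l) :
    ∃ l', L = l ++ l' := by
  obtain ⟨L₁, T, rfl, h1, h2⟩ := sim_cut (fun a => a ∈ l) (hL.imp fun h h' => hl.2 _ h' _ h)
  refine ⟨T, congrArg (· ++ T) ?_⟩
  refine List.Perm.eq_of_pairwise (le := fun a b => ρ a < ρ b)
    (fun a b _ _ h h' => absurd h h'.not_gt) (List.pairwise_append.1 hL).1 hl.1 ?_
  refine (List.perm_ext_iff_of_nodup ?_ ?_).2 fun a => ⟨h1 a, fun ha => ?_⟩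
  · exact (List.pairwise_append.1 hL).1.imp fun h e => h.ne (congrArg _ e)
  · exact hl.1.imp fun h e => h.ne (congrArg _ e)
  · exact (List.mem_append.1 (hall a)).resolve_right fun h => h2 a h ha

/-- Induction on `μ`, generalising `ρ`, `L` and `h`. -/
theorem sim {G : Type} [Group G] {g : Fin n → G} {m : ℕ} {e : Fin m → Fin n}
    (he : Function.Injective e) (hm : ∀ j, e j ∈ Mov) {R : List (Fin n)} (μ : List (Fin m × ℝ))
    {ρ : Fin m → ℝ} {L : List (Fin m)} {h : Fin n → G} (hL : L.Pairwise fun a b => ρ a < ρ b)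
    (hall : ∀ a, a ∈ L) (hs : St Mov L0 g (L.map e ++ R) h) (hμ : ValidL μ ρ) {l : List (Fin m)}
    (hl : LowerL (rhoL μ ρ) l) :
    ∃ R' h', St Mov L0 g (l.map e ++ R') h' ∧ ∀ j, h' (e j) = mvTL μ ρ (fun j => h (e j)) j := by
  induction μ generalizing ρ L h with
  | nil =>
    obtain ⟨l', rfl⟩ := sim_lower hL hall hl
    exact ⟨l'.map e ++ R, h, by simpa using hs, fun _ => rfl⟩
  | cons a μ ih =>
    obtain ⟨h1, h2, h3⟩ := hμ
    obtain ⟨L₁, T, L₂, rfl, h4, h5⟩ := sim_split hL hall h1 h2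
    have h6 : St Mov L0 g (L₁.map e ++ T.map e ++ e a.1 :: (L₂.map e ++ R)) h := by simpa using hs
    have h7 := St.move h6 (Or.inl (hm _))
    obtain ⟨R', h', h8, h9⟩ := ih h5 (fun b => by simpa [or_left_comm, or_assoc] using hall b)
      (h := mvT h (e a.1) (T.map e).toFinset) (by simpa using h7) h3 hl
    refine ⟨R', h', h8, fun j => (h9 j).trans ?_⟩
    have h10 : (fun j => mvT h (e a.1) (T.map e).toFinset (e j)) =
        mvT (fun j => h (e j)) a.1 (mvS ρ a.1 a.2) := by
      funext j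
      simp only [mvT, ← h4, List.mem_toFinset, List.mem_map_of_injective he]
    rw [h10]
    rfl

/-- Extend the twist by one. -/
theorem OrrM.comap {m : ℕ} {e : Fin m → Fin n} (he : Function.Injective e) {ε : Fin n → Fin r → ℂ}
    {l : List (Fin m)} {x : Matrix (Fin r) (Fin r) ℂ} (h : OrrM ε (l.map e).toFinset x) :
    OrrM (fun j => ε (e j)) l.toFinset x := by
  obtain ⟨h1, ω, h2, h3, h4⟩ := h
  refine ⟨h1, ω, h2, h3, fun τ η hη => ?_⟩
  have h5 := h4 τ (Function.extend e η 1) fun i => by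
    by_cases hi : ∃ j, e j = i
    · obtain ⟨j, rfl⟩ := hi
      rw [he.extend_apply]
      exact hη j
    · rw [Function.extend_apply' _ _ _ hi]
      exact IsOfFinOrder.one
  have h6 : (l.map e).toFinset = l.toFinset.map ⟨e, he⟩ := by
    ext a
    simp
  simpa only [h6, Finset.prod_map, Finset.sum_map, Function.Embedding.coeFn_mk,
    he.extend_apply] using h5

theorem sim_inv {U : Submodule ℂ (Fin r → ℂ)} {s : Set (GLr r)}
    (hs : ∀ x ∈ s, ∀ v ∈ U, x.val *ᵥ v ∈ U) : ∀ x ∈ Subgroup.closure s, ∀ v ∈ U, x.val *ᵥ v ∈ U := by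
  intro γ hγ
  induction hγ using Subgroup.closure_induction with
  | mem x hx => exact hs x hx
  | one => intro v hv; simpa using hv
  | mul x y _ _ h1 h2 =>
    intro v hv
    rw [Units.val_mul, ← mulVec_mulVec]
    exact h1 _ (h2 v hv)
  | inv u _ hu =>
    intro v hv
    let L : U →ₗ[ℂ] U := (Matrix.mulVecLin u.val).restrict hu
    have hinj : Function.Injective L := by
      intro x y hxy
      have h1 : u.val *ᵥ x.1 = u.val *ᵥ y.1 := congrArg Subtype.val hxy
      have h2 := congrArg (fun w => (u⁻¹).val *ᵥ w) h1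
      simp only [mulVec_mulVec, Units.inv_mul, one_mulVec] at h2
      exact Subtype.ext h2
    obtain ⟨w, hw⟩ := LinearMap.surjective_of_injective hinj ⟨v, hv⟩
    have h1 : u.val *ᵥ w.1 = v := congrArg Subtype.val hw
    rw [← h1, mulVec_mulVec, Units.inv_mul, one_mulVec]
    exact w.2

theorem sim_rf {x y : GLr r} (h : IsConj x y) (hx : IsRf x) :
    ∃ e f : Fin r → ℂ, y.val = 1 - vecMulVec e f := by
  obtain ⟨c, rfl⟩ := isConj_iff.1 h
  obtain ⟨e, f, -, h1⟩ := hx
  refine ⟨c.val *ᵥ e, f ᵥ* (c⁻¹).val, ?_⟩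
  rw [Units.val_mul, Units.val_mul, h1, mul_sub, sub_mul, mul_one, Units.mul_inv, mul_vecMulVec,
    vecMulVec_mul]

/-- Move `C` to the front (`St.block`), put `e = C.get`, `ρ j = j`, `L = List.finRange _`, and apply
`group_finite2` to the tuple `fun j => h (e j)`. If `C = []` the group is trivial. -/
theorem cluster_finite [NeZero r] {g : Fin n → GLr r} {ε : Fin n → Fin r → ℂ} (h0 : L0.Nodup)
    (hch : ∀ a ∈ Mov, (g a).val.charpoly = ∏ j, (X - C (ε a j))) (hr : ∀ a ∈ Mov, IsRf (g a))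
    (ho : LoopsS Mov L0 g ε) {L₁ A L₂ : List (Fin n)} {h : Fin n → GLr r}
    (hs : St Mov L0 g (L₁ ++ A ++ L₂) h) (hA : ∀ a ∈ A, a ∈ Mov) (hi : IrrS (cl h A)) :
    Finite (cl h A) := by
  have hnd : (L₁ ++ A ++ L₂).Nodup := hs.perm.nodup_iff.2 h0
  have hnd' := List.nodup_append.1 (List.nodup_append.1 hnd).1
  obtain ⟨h', hs', -, h2⟩ := St.block (L₁ := []) (T := L₁) (B := A) (L₂ := L₂) h0
    (by simpa using hs) (Or.inl hA)
  have hcl : cl h' A = cl h A := cl_congr fun a ha => h2 a fun hb => hnd'.2.2 a hb a ha rfl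
  rw [← hcl] at hi ⊢
  rcases Nat.eq_zero_or_pos A.length with hz | hz
  · obtain rfl := List.length_eq_zero_iff.1 hz
    have : cl h' ([] : List (Fin n)) = ⊥ := by simp [cl]
    rw [this]
    infer_instance
  have he : Function.Injective A.get := List.nodup_iff_injective_get.1 hnd'.2.1
  have hm : ∀ j, A.get j ∈ Mov := fun j => hA _ (List.get_mem _ _)
  have hrange : Set.range (fun j => h' (A.get j)) = h' '' {a | a ∈ A} := by
    rw [Set.range_comp' h', Set.range_list_get]
  unfold cl at hi ⊢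
  rw [← hrange] at hi ⊢
  refine group_finite2 (ε := fun j => ε (A.get j)) ⟨0, hz⟩
    (fun j => (gadm_chp (hs'.conj _)).symm.trans (hch _ (hm j)))
    (fun j _ => sim_rf (hs'.conj _) (hr _ (hm j)))
    (fun U hU => hi U (sim_inv (Set.forall_mem_range.2 hU))) (ρ := fun j => (j.1 : ℝ))
    (fun a b e => Fin.ext (Nat.cast_injective e)) fun μ hμ l hl => ?_
  obtain ⟨R', h'', h3, h4⟩ := sim (L := List.finRange A.length) (R := L₁ ++ L₂) (h := h') he hm μ
    ((List.pairwise_lt_finRange _).imp fun h => Nat.cast_lt.2 h) List.mem_finRange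
    (by rw [List.map_get_finRange]; simpa using hs') hμ hl
  have h5 := (ho _ _ _ h3 (List.forall_mem_map.2 fun j _ => hm j)).comap he
  rwa [List.map_map, show h'' ∘ A.get = _ from funext h4] at h5

end Pool.Agent.GR
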