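import Pool.Agent.Lib.MP_aa40d3_nt.MR.Dbl
import Pool.Agent.Lib.MP_aa40d3_nt.MR.Jordan
import Pool.Agent.Lib.MP_aa40d3_nt.MR.Frame
import Pool.Agent.Lib.MP_aa40d3_nt.MR.Sim
import Pool.Agent.Lib.MP_aa40d3_nt.MR.Link

/-! The monodromy group is finite. -/

open Polynomial Matrix

namespace Pool.Agent.GR

variable {n r : ℕ}

theorem gmain_roots {m : ℕ} (hm : 0 < m) : {c : ℂ | c ^ m = 1}.Finite :=
  (nthRoots m (1 : ℂ)).finite_toSet.subset fun _ hc => (mem_nthRoots hm).2 hc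

theorem gmain_ok [NeZero r] {Mov : Finset (Fin n)} {L0 : List (Fin n)} {g : Fin n → GLr r}
    {ε : Fin n → Fin r → ℂ} (h0 : L0.Nodup)
    (hch : ∀ a ∈ Mov, (g a).val.charpoly = ∏ j, (X - C (ε a j))) (hr : ∀ a ∈ Mov, IsRf (g a))
    (ho : LoopsS Mov L0 g ε) {L₁ A L₂ : List (Fin n)} {h : Fin n → GLr r}
    (hs : St Mov L0 g (L₁ ++ A ++ L₂) h) (hA : ∀ a ∈ A, a ∈ Mov) (hi : IrrS (cl h A)) :
    OkB (cl h A) := by
  refine ⟨cluster_finite h0 hch hr ho hs hA hi, hi, _, ?_, rfl⟩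
  rintro _ ⟨a, ha, rfl⟩
  exact (hr a (hA a ha)).conj (hs.conj a)

/-- `γ y γ⁻¹ = c y'` with `c ^ (r * E) = 1`, `E = card H`; so `γ ↦ (y ↦ γ y γ⁻¹)` has finite image;
two elements with the same image differ by a scalar whose determinant has bounded order. -/
theorem finite_of_cone [NeZero r] {Γ H : Subgroup (GLr r)} [Finite H] (hi : IrrS H) {E : ℕ}
    (hE : 0 < E) (hd : ∀ γ ∈ Γ, γ.val.det ^ E = 1) (hf : ∀ γ ∈ Γ, actM γ (cone H) = cone H) :
    Finite Γ := by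
  have hr : 0 < r := Nat.pos_of_ne_zero (NeZero.ne r)
  have hN : 0 < Nat.card H := Nat.card_pos
  have hdet : ∀ y ∈ H, y.val.det ^ Nat.card H = 1 := fun y hy => by
    have h1 : y ^ Nat.card H = 1 := congrArg Subtype.val (pow_card_eq_one' (x := (⟨y, hy⟩ : H)))
    rw [← det_pow, ← Units.val_pow_eq_pow_val, h1, Units.val_one, det_one]
  have hF := (gmain_roots (Nat.mul_pos hr hN)).image2
    (fun (c : ℂ) (y : GLr r) => c • y.val) (Set.toFinite (H : Set (GLr r)))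
  refine Set.Finite.to_subtype (s := (Γ : Set (GLr r))) (Set.Finite.of_finite_fibers
    (fun (γ : GLr r) (y : H) => γ.val * y.1.val * (γ⁻¹).val) ?_ ?_)
  · refine (Set.Finite.pi' fun _ : H => hF).subset ?_
    rintro _ ⟨γ, hγ, rfl⟩ y
    obtain ⟨y', hy', c, hc⟩ : γ.val * y.1.val * (γ⁻¹).val ∈ cone H :=
      hf γ hγ ▸ ⟨y.1.val, ⟨y.1, y.2, 1, (one_smul _ _).symm⟩, rfl⟩
    refine ⟨c, ?_, y', hy', hc.symm⟩
    have h1 := congrArg (fun x => x.det ^ Nat.card H) hc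
    simp only [det_units_conj, det_smul, Fintype.card_fin, mul_pow] at h1
    rwa [hdet _ y.2, hdet _ hy', mul_one, ← pow_mul, eq_comm] at h1
  · rintro _ ⟨γ₀, h0, rfl⟩
    refine (((gmain_roots (Nat.mul_pos hr hE)).image fun c : ℂ => c • γ₀.val).preimage
      Units.val_injective.injOn).subset ?_
    rintro γ ⟨hγ, he⟩
    obtain ⟨c, hc⟩ := hi.schur (x := (γ₀⁻¹ * γ).val) fun y hy => by
      have h1 : γ * y * γ⁻¹ = γ₀ * y * γ₀⁻¹ := Units.ext (congrFun he ⟨y, hy⟩)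
      have h2 : γ₀⁻¹ * γ * y = y * (γ₀⁻¹ * γ) := by
        rw [show γ₀⁻¹ * γ * y = γ₀⁻¹ * (γ * y * γ⁻¹) * γ by group, h1]
        group
      exact congrArg Units.val h2
    refine ⟨c, ?_, ?_⟩
    · have h1 := hd _ (Γ.mul_mem (Γ.inv_mem h0) hγ)
      rwa [hc, det_smul, det_one, mul_one, Fintype.card_fin, ← pow_mul] at h1
    · have h1 : γ.val = γ₀.val * (γ₀⁻¹ * γ).val := by
        rw [← Units.val_mul, mul_inv_cancel_left]
      rw [h1, hc, mul_smul_comm, mul_one]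

theorem not_big [NeZero r] {Γ H : Subgroup (GLr r)} (hP : PrimT Γ) (hi : IrrS H) (hr : RG H)
    (hz : ∃ z ∈ Zc H, ¬ IsSc z) (hf : ∀ γ ∈ Γ, actM γ (Dc H) = Dc H) : False := by
  let Z : Submodule ℂ (Matrix (Fin r) (Fin r) ℂ) :=
    { carrier := Dc H
      add_mem' := fun ha hb z hz => by rw [add_mul, mul_add, ha z hz, hb z hz]
      zero_mem' := fun z _ => by rw [zero_mul, mul_zero]
      smul_mem' := fun c x hx z hz => by rw [smul_mul_assoc, mul_smul_comm, hx z hz] }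
  have hc := frame_comm hi hr hz
  obtain ⟨z, hz, hs⟩ := hz
  refine hs (hP Z (fun γ hγ x hx => ?_) hc z.val fun y hy => ?_)
  · have h1 : γ.val * x * (γ⁻¹).val ∈ actM γ (Dc H) := ⟨x, hx, rfl⟩
    rwa [hf γ hγ] at h1
  · exact congrArg Units.val (hz.2.2 y hy.1 hy.2.1)

theorem levB [NeZero r] {J : ℕ}
    (hJ : ∀ H : Subgroup (GLr r), Finite H → J < pc H → ∃ z ∈ Zc H, ¬ IsSc z)
    {Mov : Finset (Fin n)} {L0 : List (Fin n)} {g : Fin n → GLr r} {ε : Fin n → Fin r → ℂ}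
    (h0 : L0.Nodup) (hch : ∀ a ∈ Mov, (g a).val.charpoly = ∏ j, (X - C (ε a j)))
    (hr : ∀ a ∈ Mov, IsRf (g a)) (ho : LoopsS Mov L0 g ε) :
    Lev Mov L0 g OkB (fun H => min (pc H) (J + 1)) (invB J) actM (J + 1) := by
  refine ⟨actM_one, actM_mul, fun γ H h => h.cj γ, fun γ H _ => by rw [pc_cj], fun γ H _ => ?_,
    fun H _ => min_le_right _ _, fun H H' _ h' hle => ?_, fun H H' h h' hle he => ?_,
    fun L₁ A B L₂ h hs hA hB h1 _ => ?_⟩
  · unfold invB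
    rw [pc_cj]
    split_ifs
    exacts [cone_cj γ H, Dc_cj γ H]
  · have := h'.1
    exact min_le_min_right _ (pc_mono hle)
  · have := h'.1
    have h1 := pc_mono hle
    unfold invB
    by_cases h2 : pc H ≤ J
    · have h3 : pc H = pc H' := by omega
      rw [if_pos h2, if_pos (h3 ▸ h2), cone_eq hle h3]
    · rw [if_neg h2, if_neg (by omega)]
      exact Dc_eq hle (frame_comm h.2.1 h.2.2 (hJ H h.1 (by omega)))
        (frame_comm h'.2.1 h'.2.2 (hJ H' h'.1 (by omega)))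
  · refine gmain_ok h0 hch hr ho hs (fun a ha => (List.mem_append.1 ha).elim (hA a) (hB a))
      fun U hU => h1.2.1 U fun x hx => hU x (cl_mono (fun a => List.mem_append_left _) hx)

theorem group_finiteM (r : ℕ) [NeZero r] : ∃ k : ℕ, ∀ (n : ℕ) (Mov : Finset (Fin n))
    (g : Fin n → GLr r) (ε : Fin n → Fin r → ℂ) (ρ : Fin n → ℝ), k ≤ Mov.card →
    Function.Injective ρ → (∀ a ∈ Mov, (g a).val.charpoly = ∏ j, (X - C (ε a j))) →
    (∀ a ∈ Mov, IsRf (g a)) → (∀ a, IsOfFinOrder (g a)) →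
    PrimT (Subgroup.closure (Set.range g)) → LoopsM Mov ρ g ε →
    Finite (Subgroup.closure (Set.range g)) := by
  obtain ⟨J, hJ⟩ := jordan r
  refine ⟨Kf (Kf 1 (J + 1 + 1)) (r * r + 1), fun n Mov g ε ρ hk hρ hch hr hfo hP ho => ?_⟩
  obtain ⟨L0, h1, h2⟩ := exists_lowerL hρ Finset.univ fun _ _ _ _ => Finset.mem_univ _
  have h0 : L0.Nodup := h1.1.imp fun hab e => hab.ne (congrArg _ e)
  have hall : ∀ a, a ∈ L0 := fun a => List.mem_toFinset.1 (h2 ▸ Finset.mem_univ a)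
  have hS := ho.loopsS h1
  obtain ⟨As, R, h, hs, hlen, hA⟩ := doubling h0 hall (levA Mov L0 g) (Kf 1 (J + 1 + 1))
    (front_init h0 hall hk fun a ha => ⟨g a, mem_cl (List.mem_singleton_self a), hr a ha⟩)
  obtain ⟨Bs, R', h', -, hlen', hB⟩ := doubling h0 hall (levB hJ h0 hch hr hS) 1
    ⟨As, R, h, hs, hlen, fun A hAs => by
      obtain ⟨h3, h4, h5⟩ := hA A hAs
      obtain ⟨s, t, rfl⟩ := List.append_of_mem hAs
      refine ⟨h3, gmain_ok h0 hch hr hS (L₁ := s.flatten) (L₂ := t.flatten ++ R) ?_ h3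
        (irr_of_span hP h4 h5)⟩
      simpa only [List.flatten_append, List.flatten_cons, List.append_assoc] using hs⟩
  obtain ⟨B, rfl⟩ := List.length_eq_one_iff.1 hlen'
  obtain ⟨-, ⟨h3, h4, h5⟩, h6⟩ := hB B (List.mem_singleton_self B)
  unfold invB at h6
  by_cases h7 : pc (cl h' B) ≤ J
  · rw [if_pos h7] at h6
    refine finite_of_cone h4 (E := ∏ a, orderOf (g a))
      (Finset.prod_pos fun a _ => (hfo a).orderOf_pos) (fun γ hγ => ?_) h6
    refine (Subgroup.closure_le ((powMonoidHom (∏ a, orderOf (g a))).comp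
      (detMonoidHom.comp (Units.coeHom (Matrix (Fin r) (Fin r) ℂ)))).ker).2 ?_ hγ
    rintro _ ⟨a, rfl⟩
    change (g a).val.det ^ _ = 1
    rw [← det_pow, ← Units.val_pow_eq_pow_val, orderOf_dvd_iff_pow_eq_one.1
      (Finset.dvd_prod_of_mem (fun a => orderOf (g a)) (Finset.mem_univ a)), Units.val_one, det_one]
  · rw [if_neg h7] at h6
    exact (not_big hP h4 h5 (hJ _ h3 (by omega)) h6).elim

end Pool.Agent.GR
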