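import Pool.Agent.Lib.MP_aa40d3_nt.GR2.Final
import Pool.Agent.Lib.MP_aa40d3_nt.MR.GMain
import Pool.Agent.Lib.MP_aa40d3_nt.MR.Link
import Pool.Agent.Lib.MP_aa40d3_nt.MR.Path3
import Pool.Agent.Lib.MP_aa40d3_nt.MR.ModelEx3
import Pool.Agent.Lib.MP_aa40d3_nt.MR.PrimA
import Pool.Agent.Lib.MP_aa40d3_nt.MR.PrimT

/-! The theorem for integral exponents. -/

open Polynomial Matrix Set
open scoped Matrix.Norms.Operator

namespace Pool.Agent.GR

theorem core3 (r : ℕ) [NeZero r] : ∃ k : ℕ, ∀ (n : ℕ) (Mov : Finset (Fin n)) (t : Fin n → ℂ)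
    (A : Fin n → Matrix (Fin r) (Fin r) ℂ), k ≤ Mov.card → Gen Mov t →
    (Function.Injective fun i => (t i).re) →
    (∀ i ∈ Mov, ∃ (mu : ℂ) (m : Fin (r - 1) → ℤ), (∀ z : ℤ, mu ≠ z) ∧
      (A i).charpoly = (X - C mu) * ∏ j, (X - C (m j : ℂ))) →
    Prim t A → PC t A → AlgSol t A := by
  classical
  obtain ⟨k, hk⟩ := group_finiteM r
  refine ⟨k, fun n Mov t A hcard ht hre hq hpr hpc => ?_⟩
  have hinj : Function.Injective t := fun i j h => hre (by simp only [h])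
  obtain ⟨D, a, hD, hch⟩ := exps_rat2 hinj hpc
  obtain ⟨M, w, θ, hMD, hMa, hZ, hF, hG, hw, hA⟩ :=
    exists_model3 hinj ht hD hch (cycH_ne_zero_of_irred hpr.irred) hpc
  obtain ⟨κ, H0, hκ, hH0, hc, hb⟩ := exists_core Mov t
  generalize hHe : (1 + κ) * H0 = H at hb
  have hH : 0 < H := hHe ▸ mul_pos (by linarith) hH0
  have hwt : (fun i => w (Sum.inl i)) = t := funext hw
  have hmon : mon2 M.toModel2 H (w, θ) = vt (TT t A) (pp t) H := by
    simp only [mon2, hwt, hA]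
  have hcham : w ∈ Cham M.m (fun i => (t i).re) H := by
    refine ⟨by rw [hwt]; exact hb, fun a b hab => ?_⟩
    rw [hw, hw]; exact hab
  have ho : LoopsM Mov (fun i => (t i).re) (vt (TT t A) (pp t) H) M.toModel2.ε := by
    intro μ hμ l hl hM
    have := path3 M hκ hH0 hHe.le hZ (by rw [hwt]; exact hc) μ hre
      (fun a b _ _ hab => by rw [hw, hw]; exact hab) hμ hl hM (Sl.refl Mov w) hcham hG hF
    rwa [hmon] at this
  have h1 : ∀ i, OrrM M.toModel2.ε {i} (vt (TT t A) (pp t) H i).val := fun i => by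
    have := arc3_single M hre i hcham hZ hG hF
    rwa [hmon] at this
  have hε : ∀ i j, IsOfFinOrder (M.toModel2.ε i j) := fun i j =>
    (algebraicClosure ℚ ℂ).val.toRingHom.toMonoidHom.isOfFinOrder (isOfFinOrder_ez _)
  have hcp : ∀ i, (vt (TT t A) (pp t) H i).val.charpoly = ∏ j, (X - C (M.toModel2.ε i j)) :=
    fun i => orr2_single (hε i) (h1 i).2
  have hrefl : ∀ i ∈ Mov, IsRf (vt (TT t A) (pp t) H i) := by
    intro i hi
    obtain ⟨mu, m, hmu, hm⟩ := hq i hi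
    obtain ⟨ζ, hζ⟩ := eps_refl hD (hch i) hm
    obtain ⟨e, f, hef⟩ := refl_of_fin (h1 i).1 (ζ := ζ) (by
      rw [hcp, ← hζ]
      simp only [Model2.ε, hMa, hMD])
    refine ⟨e, f, fun h0 => eps_prod_ne hD (hch i) hm hmu ?_, hef⟩
    have h2 := Matrix.det_eq_sign_charpoly_coeff (vt (TT t A) (pp t) H i).val
    rw [hcp, hef, mono_det, h0, sub_zero, coeff_zero_eq_eval_zero, eval_prod] at h2
    simp only [eval_sub, eval_X, eval_C, zero_sub, Finset.prod_neg, Finset.card_univ,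
      ← mul_assoc, ← mul_pow, Model2.ε, hMa, hMD] at h2
    simpa using h2.symm
  obtain ⟨E, hE, hgE⟩ : ∃ E : ℕ, 0 < E ∧ ∀ i, (vt (TT t A) (pp t) H i).val ^ E = 1 := by
    choose k hk0 hk using fun i => isOfFinOrder_iff_pow_eq_one.1 (h1 i).1
    refine ⟨∏ i, k i, Finset.prod_pos fun i _ => hk0 i, fun i => ?_⟩
    obtain ⟨c, hc⟩ := Finset.dvd_prod_of_mem k (Finset.mem_univ i)
    rw [hc, pow_mul, hk, one_pow]
  set U : Set ℂ := {x | ∀ i, x.im < (t i).im} with hU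
  have hUo : IsOpen U := by
    rw [hU, ofPred_forall]
    exact isOpen_iInter_of_finite fun i => isOpen_lt Complex.continuous_im continuous_const
  have hUc : Convex ℝ U := by
    rw [hU, ofPred_forall]
    exact convex_iInter fun i => convex_halfSpace_im_lt _
  have hx₀ : cpt (-H, -H) ∈ U := fun i => by
    have := (hb i).2
    simp only [pp, cpt] at this ⊢
    exact (abs_lt.1 this).1
  have hY : ∀ x ∈ U, (∀ i, x ≠ t i) ∧ (T t A (cpt (-H, -H)) x).det ≠ 0 ∧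
      HasDerivAt (T t A (cpt (-H, -H))) (sys t A x * T t A (cpt (-H, -H)) x) x := by
    intro x hx
    refine ⟨fun i h => lt_irrefl _ (h ▸ hx i), ?_, hasDerivAt_T A fun i hi => ?_⟩
    · exact ((Matrix.isUnit_iff_isUnit_det _).1 (isUnit_Tr _)).ne_zero
    · exact lt_irrefl _ (hUc.segment_subset hx₀ hx hi i)
  have hext := extProp hre A hH.le hb
  have hi : PrimT (Subgroup.closure (Set.range (vt (TT t A) (pp t) H))) :=
    primT_of_prim hpr hE hgE hUo hx₀ (T_self _ _ _) hY hext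
  have hfin : Finite (Subgroup.closure (Set.range (vt (TT t A) (pp t) H))) :=
    hk n Mov _ _ _ hcard hre (fun i _ => hcp i) hrefl
      (fun i => Units.isOfFinOrder_val.1 (h1 i).1) hi ho
  obtain ⟨ε, hε, hball⟩ := Metric.isOpen_iff.1 hUo _ hx₀
  refine ⟨cpt (-H, -H), ε, T t A (cpt (-H, -H)), hε, fun x hx => ?_, fun a b => ?_⟩
  · obtain ⟨h1, h2, h3⟩ := hY x (hball hx)
    exact ⟨h1, h2, hasDerivAt_mat.1 h3⟩
  · obtain ⟨P, hP, h⟩ := alg_of_finite hfin hext a b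
    exact ⟨P, hP, fun x hx => h x (hball hx)⟩

theorem final3 (r : ℕ) (hr : 2 ≤ r) : ∃ k : ℕ, ∀ (n : ℕ) (R : Type) [CommRing R]
    [Algebra.FiniteType ℤ R] (ι : R →+* ℂ), Function.Injective ι → ∀ (t : Fin n → R)
    (A : Fin n → Matrix (Fin r) (Fin r) R) (M : Finset (Fin n)), Function.Injective t →
    k ≤ M.card →
    (AlgebraicIndependent (IntermediateField.adjoin ℚ {x : ℂ | ∃ j, j ∉ M ∧ x = ι (t j)})
      fun i : M => ι (t i)) →
    (∀ i ∈ M, ∃ (lam mu : ℂ) (m : Fin (r - 1) → ℤ), (∀ z : ℤ, mu - lam ≠ z) ∧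
      ((A i).map ι).charpoly = (X - C mu) * ∏ j, (X - C (lam + m j))) →
    Prim (fun i => ι (t i)) (fun i => (A i).map ι) →
    (∀ m : Ideal R, m.IsMaximal →
      HasFund (fun i => Ideal.Quotient.mk m (t i)) fun i => (A i).map (Ideal.Quotient.mk m)) →
    ∀ φ : R →+* ℂ, AlgSol (fun i => φ (t i)) fun i => (A i).map φ := by
  classical
  have : NeZero r := ⟨by omega⟩
  obtain ⟨k, hk⟩ := core3 r
  refine ⟨k, fun n R _ _ ι hι t A M ht hcard hind hexp hpr hp φ => ?_⟩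
  have hinj : Function.Injective fun i => ι (t i) := hι.comp ht
  have hgen : Gen M fun i => ι (t i) :=
    ⟨(IntermediateField.adjoin ℚ {x : ℂ | ∃ j, j ∉ M ∧ x = ι (t j)}).toSubalgebra.toSubring,
      fun j hj => IntermediateField.subset_adjoin ℚ _ ⟨j, hj, rfl⟩, hind⟩
  obtain ⟨t', c, hc, htt, hgen', hre⟩ := exists_rotation3 hinj hgen
  have hpc := pc_of_max ι hι hp
  obtain ⟨D, a', hD, hch⟩ := exps_rat2 hinj hpc
  have key : ∀ i, ∃ (lam : ℂ) (b : ℤ), (D : ℂ) * lam = b ∧ (i ∈ M → ∃ (mu : ℂ)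
      (m : Fin (r - 1) → ℤ), (∀ z : ℤ, mu ≠ z) ∧
        ((A i).map ι - lam • (1 : Matrix (Fin r) (Fin r) ℂ)).charpoly =
          (X - C mu) * ∏ j, (X - C (m j : ℂ))) := by
    intro i
    by_cases hi : i ∈ M
    · obtain ⟨lam, mu, m, hne, hm⟩ := hexp i hi
      obtain ⟨b, hb⟩ := lam_rat hr hD (hch i) hm
      exact ⟨lam, b, hb, fun _ => ⟨_, m, hne, charpoly_twist hm⟩⟩
    · exact ⟨0, 0, by simp, fun h => absurd h hi⟩
  choose lam b' hb' hq using key
  exact AlgSol.spec ι φ hι t A (AlgSol.twist hD hb' (AlgSol.aff hc htt (hk n M t' _ hcard hgen' hre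
    hq ((hpr.twist lam).aff hc htt) ((hpc.twist hD hb').aff hc htt))))

end Pool.Agent.GR
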