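import Pool.Agent.Lib.MP_aa40d3_nt.MR.Move

/-! The doubling lemma. -/

namespace Pool.Agent.GR

theorem dbl_count {α β : Type*} [DecidableEq β] (f : α → β) (s : ℕ) (L : List α)
    (hs : ∀ ξ, (L.filter fun A => f A = ξ).length ≤ s) (C : List β) :
    (L.filter fun A => f A ∈ C).length ≤ C.length * s := by
  induction C with
  | nil => simp
  | cons c C ih =>
    have h1 : (L.filter fun A => f A ∈ c :: C).length ≤
        (L.filter fun A => f A = c).length + (L.filter fun A => f A ∈ C).length := by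
      clear ih hs
      induction L with
      | nil => simp
      | cons x L ihL =>
        have k1 : f x ∈ c :: C ↔ f x = c ∨ f x ∈ C := List.mem_cons
        simp only [List.filter_cons, decide_eq_true_eq]
        split_ifs with t1 t2 t3 <;> (try simp only [List.length_cons]) <;> first | omega | tauto
    have h2 := hs c
    rw [List.length_cons, Nat.add_mul]
    omega

/-- Take `Q₁ = As.take K`; if every colour class of the rest has fewer than `s` members, at most
`K * s` members of the rest have the colour of a member of `Q₁`. -/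
theorem dbl_pigeon {α β : Type*} (f : α → β) (K s : ℕ) (As : List α) (h : K * (s + 2) ≤ As.length)
    (hK : 0 < K) :
    (∃ (ξ : β) (Q : List α), Q.Sublist As ∧ Q.length = s ∧ ∀ A ∈ Q, f A = ξ) ∨
      ∃ Q₁ Q₂ : List α, (Q₁ ++ Q₂).Sublist As ∧ Q₁.length = K ∧ Q₂.length = K ∧
        ∀ A ∈ Q₁, ∀ B ∈ Q₂, f A ≠ f B := by
  classical
  by_cases hc : ∃ ξ, s ≤ ((As.drop K).filter fun A => f A = ξ).length
  · obtain ⟨ξ, hξ⟩ := hc
    refine Or.inl ⟨ξ, ((As.drop K).filter fun A => f A = ξ).take s, ?_, ?_, ?_⟩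
    · exact (List.take_sublist _ _).trans (List.filter_sublist.trans (List.drop_sublist _ _))
    · rw [List.length_take]; omega
    · intro A hA
      have := List.mem_of_mem_take hA
      simpa using (List.mem_filter.1 this).2
  · push Not at hc
    have hcnt := dbl_count f s (As.drop K) (fun ξ => (hc ξ).le) ((As.take K).map f)
    have hK1 : K * (s + 2) = K * s + K + K := by ring
    have hl1 : (As.take K).length = K := by rw [List.length_take]; omega
    rw [List.length_map, hl1] at hcnt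
    have hsum := List.length_eq_length_filter_add (l := As.drop K)
      (fun A => decide (f A ∈ (As.take K).map f))
    rw [List.length_drop] at hsum
    refine Or.inr ⟨As.take K,
      ((As.drop K).filter fun A => !decide (f A ∈ (As.take K).map f)).take K, ?_, hl1, ?_, ?_⟩
    · conv_rhs => rw [← List.take_append_drop K As]
      exact List.Sublist.append_left ((List.take_sublist _ _).trans List.filter_sublist) _
    · rw [List.length_take]; omega
    · intro A hA B hB e
      have h2 := (List.mem_filter.1 (List.mem_of_mem_take hB)).2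
      have h3 : f B ∈ (As.take K).map f := e ▸ List.mem_map_of_mem hA
      rw [decide_eq_true h3] at h2
      exact absurd h2 (by decide)

variable {n : ℕ} {G Y : Type} [Group G] {Mov : Finset (Fin n)} {L0 : List (Fin n)} {g : Fin n → G}
  {Ok : Subgroup G → Prop} {ν : Subgroup G → ℕ} {inv : Subgroup G → Y} {act : G → Y → Y} {Lm : ℕ}

theorem dbl_nodup (h0 : L0.Nodup) {L : List (Fin n)} {h : Fin n → G} (hs : St Mov L0 g L h) :
    L.Nodup := hs.perm.nodup_iff.2 h0

theorem dbl_pair_aux (h0 : L0.Nodup) (hL : Lev Mov L0 g Ok ν inv act Lm) {a : ℕ}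
    {R : List (Fin n)} (K : ℕ) : ∀ (Q₁ Ms Q₂ : List (List (Fin n))) (h : Fin n → G),
    St Mov L0 g (Q₁.flatten ++ Ms.flatten ++ Q₂.flatten ++ R) h → Q₁.length = K → Q₂.length = K →
    (∀ A ∈ Q₁ ++ Q₂, (∀ x ∈ A, x ∈ Mov) ∧ Ok (cl h A) ∧ a ≤ ν (cl h A)) →
    (∀ A ∈ Ms, (∀ x ∈ A, x ∈ Mov) ∧ Ok (cl h A) ∧ a + 1 ≤ ν (cl h A)) →
    (∀ A ∈ Q₁, ∀ B ∈ Q₂, a + 1 ≤ ν (cl h A) ∨ a + 1 ≤ ν (cl h B) ∨
      inv (cl h A) ≠ inv (cl h B)) →
    Front Mov L0 g (Ms.length + K) fun H => Ok H ∧ a + 1 ≤ ν H := by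
  induction K with
  | zero =>
    intro Q₁ Ms Q₂ h hs h1 h2 _ hM _
    rw [List.length_eq_zero_iff] at h1 h2
    subst h1 h2
    exact ⟨Ms, R, h, by simpa using hs, rfl, hM⟩
  | succ K ih =>
    intro Q₁ Ms Q₂ h hs h1 h2 hA hM hd
    obtain ⟨Q₁', A, rfl⟩ : ∃ Q₁' A, Q₁ = Q₁' ++ [A] := by
      rcases List.eq_nil_or_concat Q₁ with e | ⟨Q₁', A, e⟩
      · rw [e] at h1; simp at h1
      · exact ⟨Q₁', A, by simpa using e⟩
    obtain ⟨B, Q₂', rfl⟩ : ∃ B Q₂', Q₂ = B :: Q₂' := by
      cases Q₂ with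
      | nil => simp at h2
      | cons B Q₂' => exact ⟨B, Q₂', rfl⟩
    have hAA := hA A (by simp)
    have hBB := hA B (by simp)
    have hs1 : St Mov L0 g ((Q₁'.flatten ++ A) ++ Ms.flatten ++ B ++ (Q₂'.flatten ++ R)) h := by
      simpa [List.append_assoc] using hs
    have hnd := dbl_nodup h0 hs1
    obtain ⟨h', hs2, hT, hO⟩ := St.block h0 hs1 (Or.inl hBB.1)
    have hout : ∀ C ∈ Q₁' ++ [A] ++ B :: Q₂', cl h' C = cl h C := by
      intro C hC
      refine cl_congr fun x hx => hO x fun hxT => ?_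
      have hx2 : x ∈ Q₁'.flatten ++ A ∨ x ∈ B ++ (Q₂'.flatten ++ R) := by
        simp only [List.mem_append, List.mem_cons, List.not_mem_nil, or_false,
          List.mem_flatten] at hC ⊢
        rcases hC with (hC | rfl) | rfl | hC
        · exact Or.inl (Or.inl ⟨C, hC, hx⟩)
        · exact Or.inl (Or.inr hx)
        · exact Or.inr (Or.inl hx)
        · exact Or.inr (Or.inr (Or.inl ⟨C, hC, hx⟩))
      rw [List.append_assoc, List.nodup_append] at hnd
      rcases hx2 with hx2 | hx2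
      · exact (List.nodup_append.1 hnd.1).2.2 x hx2 x hxT rfl
      · exact hnd.2.2 x (List.mem_append_right _ hxT) x hx2 rfl
    have hin : ∀ C ∈ Ms, cl h' C = cj ((B.map h).prod)⁻¹ (cl h C) := fun C hC =>
      cl_conj fun x hx => hT x (List.mem_flatten.2 ⟨C, hC, hx⟩)
    have eA := hout A (by simp)
    have eB := hout B (by simp)
    have hokA : Ok (cl h' A) := eA ▸ hAA.2.1
    have hokB : Ok (cl h' B) := eB ▸ hBB.2.1
    have hs3 : St Mov L0 g (Q₁'.flatten ++ (A ++ B) ++ (Ms.flatten ++ (Q₂'.flatten ++ R))) h' := by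
      simpa [List.append_assoc] using hs2
    have hokAB : Ok (cl h' (A ++ B)) := hL.merge _ _ _ _ _ hs3 hAA.1 hBB.1 hokA hokB
    have leA : cl h' A ≤ cl h' (A ++ B) := cl_mono fun x hx => List.mem_append_left _ hx
    have leB : cl h' B ≤ cl h' (A ++ B) := cl_mono fun x hx => List.mem_append_right _ hx
    have hlev : a + 1 ≤ ν (cl h' (A ++ B)) := by
      have m1 := hL.mono _ _ hokA hokAB leA
      have m2 := hL.mono _ _ hokB hokAB leB
      have a1 : a ≤ ν (cl h' A) := eA ▸ hAA.2.2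
      have a2 : a ≤ ν (cl h' B) := eB ▸ hBB.2.2
      have hd1 := hd A (by simp) B (by simp)
      rw [← eA, ← eB] at hd1
      by_contra hc
      rcases hd1 with hd1 | hd1 | hd1
      · omega
      · omega
      · exact hd1 ((hL.eq _ _ hokA hokAB leA (by omega)).trans
          (hL.eq _ _ hokB hokAB leB (by omega)).symm)
    have key := ih Q₁' ((A ++ B) :: Ms) Q₂' h' (by simpa [List.append_assoc] using hs2)
      (by simpa using h1) (by simpa using h2) ?_ ?_ ?_
    · have e : ((A ++ B) :: Ms).length + K = Ms.length + (K + 1) := by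
        rw [List.length_cons]; omega
      rwa [e] at key
    · intro C hC
      have hC' : C ∈ Q₁' ++ [A] ++ B :: Q₂' := by
        simp only [List.mem_append, List.mem_cons] at hC ⊢
        tauto
      rw [hout C hC']
      exact hA C hC'
    · intro C hC
      rcases List.mem_cons.1 hC with rfl | hC
      · refine ⟨fun x hx => ?_, hokAB, hlev⟩
        rcases List.mem_append.1 hx with hx | hx
        · exact hAA.1 x hx
        · exact hBB.1 x hx
      · obtain ⟨m1, m2, m3⟩ := hM C hC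
        rw [hin C hC]
        exact ⟨m1, hL.ok_cj _ _ m2, by rw [hL.ν_cj _ _ m2]; exact m3⟩
    · intro C hC D hD
      rw [hout C (by simp [hC]), hout D (by simp [hD])]
      exact hd C (by simp [hC]) D (by simp [hD])

/-- Inside out: with merged clusters `Ms` between `Q₁` and `Q₂`, move the first member `B` of `Q₂`
to the left over `Ms.flatten` (this conjugates the members of `Ms`) and merge it with the last
member `A` of `Q₁`. -/
theorem dbl_pair (h0 : L0.Nodup) (hL : Lev Mov L0 g Ok ν inv act Lm) {a K : ℕ}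
    {Q₁ Q₂ : List (List (Fin n))} {R : List (Fin n)} {h : Fin n → G}
    (hs : St Mov L0 g (Q₁.flatten ++ Q₂.flatten ++ R) h) (h1 : Q₁.length = K) (h2 : Q₂.length = K)
    (hA : ∀ A ∈ Q₁ ++ Q₂, (∀ x ∈ A, x ∈ Mov) ∧ Ok (cl h A) ∧ a ≤ ν (cl h A))
    (hd : ∀ A ∈ Q₁, ∀ B ∈ Q₂, a + 1 ≤ ν (cl h A) ∨ a + 1 ≤ ν (cl h B) ∨
      inv (cl h A) ≠ inv (cl h B)) :
    Front Mov L0 g K fun H => Ok H ∧ a + 1 ≤ ν H := by
  have key := dbl_pair_aux h0 hL (a := a) (R := R) K Q₁ [] Q₂ h (by simpa using hs) h1 h2 hA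
    (by simp) hd
  simpa using key

/-- The elements that fix `ξ`. -/
def dbl_stab (hL : Lev Mov L0 g Ok ν inv act Lm) (ξ : Y) : Subgroup G where
  carrier := {γ | act γ ξ = ξ}
  one_mem' := hL.act_one ξ
  mul_mem' := by
    intro x y hx hy
    have hx' : act x ξ = ξ := hx
    have hy' : act y ξ = ξ := hy
    show act (x * y) ξ = ξ
    rw [hL.act_mul, hy', hx']
  inv_mem' := by
    intro x hx
    have hx' : act x ξ = ξ := hx
    show act x⁻¹ ξ = ξ
    conv_lhs => rw [← hx']
    rw [← hL.act_mul, inv_mul_cancel, hL.act_one]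

theorem dbl_mem_stab (hL : Lev Mov L0 g Ok ν inv act Lm) (ξ : Y) (γ : G) :
    γ ∈ dbl_stab hL ξ ↔ act γ ξ = ξ := Iff.rfl

theorem dbl_first {α : Type*} (P : α → Prop) (R : List α) (hR : ∃ y ∈ R, ¬ P y) :
    ∃ R₁ y R₂, R = R₁ ++ y :: R₂ ∧ (∀ x ∈ R₁, P x) ∧ ¬ P y := by
  induction R with
  | nil => simp at hR
  | cons x R ih =>
    by_cases hx : P x
    · obtain ⟨y, hy, hPy⟩ := hR
      rcases List.mem_cons.1 hy with rfl | hy
      · exact absurd hx hPy
      · obtain ⟨R₁, z, R₂, e, h1, h2⟩ := ih ⟨y, hy, hPy⟩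
        refine ⟨x :: R₁, z, R₂, by rw [e]; rfl, fun w hw => ?_, h2⟩
        rcases List.mem_cons.1 hw with rfl | hw
        · exact hx
        · exact h1 w hw
    · exact ⟨[], x, R, rfl, by simp, hx⟩

/-- `2 K` clusters with the same invariant `ξ` that is not fixed by the whole group: let `y` be the
first member of `R` that does not fix `ξ`, `R = R₁ ++ y :: R₂`; move `R₁ ++ [y]` to the left over
`Q₂.flatten`, then move `Q₂.flatten` back; use `dbl_pair`. -/
theorem dbl_twist (h0 : L0.Nodup) (hall : ∀ a, a ∈ L0) (hL : Lev Mov L0 g Ok ν inv act Lm) {a K : ℕ}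
    {Q₁ Q₂ : List (List (Fin n))} {R : List (Fin n)} {h : Fin n → G} {ξ : Y}
    (hs : St Mov L0 g (Q₁.flatten ++ Q₂.flatten ++ R) h) (h1 : Q₁.length = K) (h2 : Q₂.length = K)
    (hA : ∀ A ∈ Q₁ ++ Q₂, (∀ x ∈ A, x ∈ Mov) ∧ Ok (cl h A) ∧ a ≤ ν (cl h A) ∧ inv (cl h A) = ξ)
    (hn : ∃ γ ∈ Subgroup.closure (Set.range g), act γ ξ ≠ ξ) :
    Front Mov L0 g K fun H => Ok H ∧ a + 1 ≤ ν H := by
  have hfix : ∀ A ∈ Q₁ ++ Q₂, ∀ x ∈ A, h x ∈ dbl_stab hL ξ := by
    intro A hAQ x hx
    obtain ⟨_, m2, _, m4⟩ := hA A hAQ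
    have e := hL.inv_cj (h x) _ m2
    rw [cj_self (mem_cl hx), m4] at e
    exact e.symm
  have hex : ∃ y ∈ R, ¬ h y ∈ dbl_stab hL ξ := by
    by_contra hc
    push Not at hc
    obtain ⟨γ, hγ, hne⟩ := hn
    rw [← hs.closure h0] at hγ
    refine hne ((Subgroup.closure_le (dbl_stab hL ξ)).2 ?_ hγ)
    rintro _ ⟨x, rfl⟩
    have hx : x ∈ Q₁.flatten ++ Q₂.flatten ++ R := hs.perm.mem_iff.2 (hall x)
    rcases List.mem_append.1 hx with hx | hx
    · rw [← List.flatten_append] at hx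
      obtain ⟨A, hAQ, hxA⟩ := List.mem_flatten.1 hx
      exact hfix A hAQ x hxA
    · exact hc x hx
  obtain ⟨R₁, y, R₂, rfl, hR₁, hy⟩ := dbl_first (fun x => h x ∈ dbl_stab hL ξ) R hex
  have hmov : ∀ c ∈ Q₂.flatten, c ∈ Mov := by
    intro c hc
    obtain ⟨A, hAQ, hcA⟩ := List.mem_flatten.1 hc
    exact (hA A (List.mem_append_right _ hAQ)).1 c hcA
  have hs1 : St Mov L0 g (Q₁.flatten ++ Q₂.flatten ++ (R₁ ++ [y]) ++ R₂) h := by
    simpa [List.append_assoc] using hs
  have hnd := dbl_nodup h0 hs1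
  obtain ⟨h', hs2, hT, hO⟩ := St.block h0 hs1 (Or.inr hmov)
  obtain ⟨h'', hs3, -, hO'⟩ := St.block h0 hs2 (Or.inl hmov)
  have hz : ((R₁ ++ [y]).map h).prod ∉ dbl_stab hL ξ := by
    intro hz
    have hp : (R₁.map h).prod ∈ dbl_stab hL ξ := by
      refine Subgroup.list_prod_mem _ fun w hw => ?_
      obtain ⟨x, hx, rfl⟩ := List.mem_map.1 hw
      exact hR₁ x hx
    rw [List.map_append, List.prod_append] at hz
    have := (Subgroup.mul_mem_cancel_left _ hp).1 hz
    exact hy (by simpa using this)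
  have hnd1 := (List.nodup_append.1 hnd).1
  have hnd2 := List.nodup_append.1 hnd1
  have hnd3 := List.nodup_append.1 hnd2.1
  have e1 : ∀ A ∈ Q₁, cl h'' A = cl h A := by
    intro A hAQ
    refine cl_congr fun x hx => ?_
    have hx1 : x ∈ Q₁.flatten := List.mem_flatten.2 ⟨A, hAQ, hx⟩
    rw [hO' x fun hc => hnd2.2.2 x (List.mem_append_left _ hx1) x hc rfl,
      hO x fun hc => hnd3.2.2 x hx1 x hc rfl]
  have e2 : ∀ B ∈ Q₂, cl h'' B = cj (((R₁ ++ [y]).map h).prod)⁻¹ (cl h B) := by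
    intro B hBQ
    refine cl_conj fun x hx => ?_
    have hx1 : x ∈ Q₂.flatten := List.mem_flatten.2 ⟨B, hBQ, hx⟩
    rw [hO' x fun hc => hnd2.2.2 x (List.mem_append_right _ hx1) x hc rfl, hT x hx1]
  refine dbl_pair h0 hL (Q₁ := Q₁) (Q₂ := Q₂) (R := (R₁ ++ [y]) ++ R₂) (h := h'')
    (by simpa [List.append_assoc] using hs3) h1 h2 ?_ ?_
  · intro A hAQ
    obtain ⟨m1, m2, m3, _⟩ := hA A hAQ
    rcases List.mem_append.1 hAQ with hq | hq
    · rw [e1 A hq]
      exact ⟨m1, m2, m3⟩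
    · rw [e2 A hq]
      exact ⟨m1, hL.ok_cj _ _ m2, by rw [hL.ν_cj _ _ m2]; exact m3⟩
  · intro A hAQ B hBQ
    obtain ⟨_, _, _, m4⟩ := hA A (List.mem_append_left _ hAQ)
    obtain ⟨_, n2, _, n4⟩ := hA B (List.mem_append_right _ hBQ)
    refine Or.inr (Or.inr ?_)
    rw [e1 A hAQ, e2 B hBQ, hL.inv_cj _ _ n2, m4, n4]
    intro e
    exact hz ((Subgroup.inv_mem_iff _).1 ((dbl_mem_stab hL ξ _).2 e.symm))

theorem dbl_sel (h0 : L0.Nodup) {R : List (Fin n)} {As Q : List (List (Fin n))} {h : Fin n → G}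
    (hQ : Q.Sublist As) (hm : ∀ A ∈ As, ∀ a ∈ A, a ∈ Mov) (hs : St Mov L0 g (As.flatten ++ R) h) :
    ∃ R' h', St Mov L0 g (Q.flatten ++ R') h' ∧ ∀ A ∈ Q, cl h' A = cl h A := by
  obtain ⟨R', h', hs', he⟩ := St.sel h0 (L₁ := []) (R := R) hQ
    (fun A hA => hm A (hQ.subset hA)) (by simpa using hs)
  refine ⟨R', h', by simpa using hs', fun A hA => cl_congr fun x hx => he x ?_⟩
  rw [List.nil_append]
  exact List.mem_flatten.2 ⟨A, hA, hx⟩

theorem dbl_front (h0 : L0.Nodup) {R : List (Fin n)} {As Q : List (List (Fin n))} {h : Fin n → G}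
    (hQ : Q.Sublist As) (hm : ∀ A ∈ As, ∀ a ∈ A, a ∈ Mov) (hs : St Mov L0 g (As.flatten ++ R) h)
    {K : ℕ} (hK : K ≤ Q.length) {P : Subgroup G → Prop} (hP : ∀ A ∈ Q, P (cl h A)) :
    Front Mov L0 g K P := by
  have hQ' : (Q.take K).Sublist As := (List.take_sublist _ _).trans hQ
  obtain ⟨R', h', hs', he⟩ := dbl_sel h0 hQ' hm hs
  refine ⟨Q.take K, R', h', hs', by rw [List.length_take]; omega, fun A hA => ?_⟩
  rw [he A hA]
  exact ⟨hm A (hQ'.subset hA), hP A (List.mem_of_mem_take hA)⟩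

theorem dbl_Kf_pos (m d : ℕ) : 0 < Kf m d := by
  induction d with
  | zero => exact Nat.one_pos
  | succ d ih => exact Nat.mul_pos ih (by omega)

theorem dbl_aux (h0 : L0.Nodup) (hall : ∀ a, a ∈ L0) (hL : Lev Mov L0 g Ok ν inv act Lm) (m : ℕ)
    (d : ℕ) : ∀ a, a + d = Lm + 1 → (Front Mov L0 g (Kf m d) fun H => Ok H ∧ a ≤ ν H) →
    Front Mov L0 g m fun H => Ok H ∧
      ∀ γ ∈ Subgroup.closure (Set.range g), act γ (inv H) = inv H := by
  classical
  induction d with
  | zero =>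
    rintro a ha ⟨As, R, h, -, hl, hA⟩
    obtain ⟨A, hAs⟩ := List.exists_mem_of_length_pos (l := As) (by rw [hl]; exact Nat.one_pos)
    obtain ⟨-, m2, m3⟩ := hA A hAs
    have := hL.le _ m2
    omega
  | succ d ih =>
    rintro a ha ⟨As, R, h, hs, hl, hA⟩
    have hm : ∀ A ∈ As, ∀ x ∈ A, x ∈ Mov := fun A hAs => (hA A hAs).1
    have ih' := ih (a + 1) (by omega)
    rcases dbl_pigeon (fun A => if a + 1 ≤ ν (cl h A) then none else some (inv (cl h A)))
      (Kf m d) (2 * Kf m d + m) As (by rw [hl]; exact le_rfl) (dbl_Kf_pos m d) with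
      ⟨ξ, Q, hQ, hQl, hc⟩ | ⟨Q₁, Q₂, hQ, h1, h2, hd⟩
    · cases ξ with
      | none =>
        refine ih' (dbl_front h0 hQ hm hs (by omega) fun A hAQ => ⟨(hA A (hQ.subset hAQ)).2.1, ?_⟩)
        have := hc A hAQ
        by_contra hne
        simp only [if_neg hne] at this
        exact absurd this (by simp)
      | some x =>
        have hinv : ∀ A ∈ Q, inv (cl h A) = x := by
          intro A hAQ
          have := hc A hAQ
          by_cases hne : a + 1 ≤ ν (cl h A)
          · simp only [if_pos hne] at this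
            exact absurd this (by simp)
          · simp only [if_neg hne] at this
            exact Option.some.inj this
        by_cases hn : ∃ γ ∈ Subgroup.closure (Set.range g), act γ x ≠ x
        · have hQ' : (Q.take (Kf m d) ++ (Q.drop (Kf m d)).take (Kf m d)).Sublist Q := by
            conv_rhs => rw [← List.take_append_drop (Kf m d) Q]
            exact List.Sublist.append_left (List.take_sublist _ _) _
          obtain ⟨R', h', hs', he⟩ := dbl_sel h0 (hQ'.trans hQ) hm hs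
          rw [List.flatten_append] at hs'
          refine ih' (dbl_twist h0 hall hL (ξ := x) hs' ?_ ?_ ?_ hn)
          · rw [List.length_take]; omega
          · rw [List.length_take, List.length_drop]; omega
          · intro A hAQ
            rw [he A hAQ]
            obtain ⟨m1, m2, m3⟩ := hA A (hQ.subset (hQ'.subset hAQ))
            exact ⟨m1, m2, m3, hinv A (hQ'.subset hAQ)⟩
        · push Not at hn
          refine dbl_front h0 hQ hm hs (by omega) fun A hAQ => ⟨(hA A (hQ.subset hAQ)).2.1, ?_⟩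
          rw [hinv A hAQ]
          exact hn
    · obtain ⟨R', h', hs', he⟩ := dbl_sel h0 hQ hm hs
      rw [List.flatten_append] at hs'
      refine ih' (dbl_pair h0 hL hs' h1 h2 ?_ ?_)
      · intro A hAQ
        rw [he A hAQ]
        exact hA A (hQ.subset hAQ)
      · intro A hAQ B hBQ
        rw [he A (List.mem_append_left _ hAQ), he B (List.mem_append_right _ hBQ)]
        have := hd A hAQ B hBQ
        by_contra hc
        push Not at hc
        obtain ⟨c1, c2, c3⟩ := hc
        simp only [if_neg (not_le.2 c1), if_neg (not_le.2 c2), c3] at this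
        exact this rfl

/-- Induction on `d` with `a + d = Lm + 1`, for clusters of level at least `a`. -/
theorem doubling (h0 : L0.Nodup) (hall : ∀ a, a ∈ L0) (hL : Lev Mov L0 g Ok ν inv act Lm) (m : ℕ)
    (hf : Front Mov L0 g (Kf m (Lm + 1)) Ok) :
    Front Mov L0 g m fun H => Ok H ∧
      ∀ γ ∈ Subgroup.closure (Set.range g), act γ (inv H) = inv H := by
  obtain ⟨As, R, h, hs, hl, hA⟩ := hf
  exact dbl_aux h0 hall hL m (Lm + 1) 0 (by omega)
    ⟨As, R, h, hs, hl, fun A hAs => ⟨(hA A hAs).1, (hA A hAs).2, Nat.zero_le _⟩⟩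

end Pool.Agent.GR
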