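import Pool.Agent.Lib.MP_aa40d3_nt.MR.GDefs

/-! Restricted moves: invariants, block moves, selection of clusters. -/

namespace Pool.Agent.GR

variable {n : ℕ} {G : Type} [Group G] {Mov : Finset (Fin n)} {L0 : List (Fin n)} {g h : Fin n → G}

theorem St.perm {L : List (Fin n)} (hs : St Mov L0 g L h) : L.Perm L0 := by
  induction hs with
  | init => exact List.Perm.refl _
  | @move L₁ T L₂ i h _ _ ih =>
    refine List.Perm.trans ?_ ih
    refine ((List.perm_middle (l₁ := L₁) (l₂ := T) (a := i)).append_right L₂).trans ?_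
    exact List.perm_middle.symm

theorem St.conj {L : List (Fin n)} (hs : St Mov L0 g L h) (a : Fin n) : IsConj (g a) (h a) := by
  induction hs with
  | init => exact IsConj.refl _
  | @move L₁ T L₂ i h _ _ ih =>
    refine ih.trans ?_
    unfold mvT
    split_ifs
    · exact isConj_iff.2 ⟨(h i)⁻¹, by rw [inv_inv]⟩
    · exact IsConj.refl _

/-- One move does not change the group, because `i ∉ T` (`L` has no repetition). -/
theorem St.closure (h0 : L0.Nodup) {L : List (Fin n)} (hs : St Mov L0 g L h) :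
    Subgroup.closure (Set.range h) = Subgroup.closure (Set.range g) := by
  induction hs with
  | init => rfl
  | @move L₁ T L₂ i h hs _ ih =>
    rw [← ih]
    have hnd := hs.perm.nodup_iff.2 h0
    have hi : i ∉ T.toFinset := fun hi => (List.nodup_append.1 hnd).2.2 i
      (List.mem_append_right _ (List.mem_toFinset.1 hi)) i List.mem_cons_self rfl
    have e : mvT h i T.toFinset i = h i := if_neg hi
    apply le_antisymm
    · rw [Subgroup.closure_le]
      rintro _ ⟨c, rfl⟩
      have m : ∀ a, h a ∈ Subgroup.closure (Set.range h) := fun a =>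
        Subgroup.subset_closure ⟨a, rfl⟩
      unfold mvT
      split_ifs
      · exact mul_mem (mul_mem (inv_mem (m i)) (m c)) (m i)
      · exact m c
    · rw [Subgroup.closure_le]
      rintro _ ⟨c, rfl⟩
      have m : ∀ a, mvT h i T.toFinset a ∈ Subgroup.closure (Set.range (mvT h i T.toFinset)) :=
        fun a => Subgroup.subset_closure ⟨a, rfl⟩
      by_cases hc : c ∈ T.toFinset
      · have e2 : mvT h i T.toFinset c = (h i)⁻¹ * h c * h i := if_pos hc
        have e3 : h c = mvT h i T.toFinset i * mvT h i T.toFinset c * (mvT h i T.toFinset i)⁻¹ := by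
          rw [e, e2]; group
        rw [e3]
        exact mul_mem (mul_mem (m i) (m c)) (inv_mem (m i))
      · have e2 : mvT h i T.toFinset c = h c := if_neg hc
        rw [← e2]
        exact m c

/-- Induction on `B`, generalising `L₁` and `h`: move the head of `B` first. -/
theorem St.block (h0 : L0.Nodup) {L₁ T B L₂ : List (Fin n)} (hs : St Mov L0 g (L₁ ++ T ++ B ++ L₂) h)
    (hm : (∀ b ∈ B, b ∈ Mov) ∨ ∀ c ∈ T, c ∈ Mov) :
    ∃ h', St Mov L0 g (L₁ ++ B ++ T ++ L₂) h' ∧
      (∀ c ∈ T, h' c = (B.map h).prod⁻¹ * h c * (B.map h).prod) ∧ ∀ c, c ∉ T → h' c = h c := by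
  induction B generalizing L₁ h with
  | nil => exact ⟨h, by simpa using hs, by simp, fun _ _ => rfl⟩
  | cons b B ih =>
    have hnd := hs.perm.nodup_iff.2 h0
    have hs1 : St Mov L0 g (L₁ ++ T ++ b :: (B ++ L₂)) h := by simpa using hs
    have hs2 := hs1.move (hm.imp_left fun H => H b List.mem_cons_self)
    obtain ⟨h', k1, k2, k3⟩ := ih (L₁ := L₁ ++ [b]) (h := mvT h b T.toFinset) (by simpa using hs2)
      (hm.imp_left fun H c hc => H c (List.mem_cons_of_mem _ hc))
    have e : B.map (mvT h b T.toFinset) = B.map h := List.map_congr_left fun c hc =>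
      if_neg fun hT => (List.nodup_append.1 (List.nodup_append.1 hnd).1).2.2 c
        (List.mem_append_right _ (List.mem_toFinset.1 hT)) c (List.mem_cons_of_mem _ hc) rfl
    refine ⟨h', by simpa using k1, fun c hc => ?_, fun c hc => ?_⟩
    · have e2 : mvT h b T.toFinset c = (h b)⁻¹ * h c * h b := if_pos (List.mem_toFinset.2 hc)
      rw [k2 c hc, e, e2, List.map_cons, List.prod_cons]
      group
    · rw [k3 c hc]
      exact if_neg fun hT => hc (List.mem_toFinset.1 hT)

theorem move_sel (h0 : L0.Nodup) {R : List (Fin n)} {As Q : List (List (Fin n))}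
    (hQ : Q.Sublist As) (hm : ∀ A ∈ Q, ∀ a ∈ A, a ∈ Mov) (L₁ J : List (Fin n)) (h : Fin n → G)
    (hs : St Mov L0 g (L₁ ++ J ++ As.flatten ++ R) h) :
    ∃ R' h', St Mov L0 g (L₁ ++ Q.flatten ++ R') h' ∧ ∀ a ∈ L₁ ++ Q.flatten, h' a = h a := by
  induction hQ generalizing L₁ J h with
  | slnil => exact ⟨J ++ R, h, by simpa using hs, fun _ _ => rfl⟩
  | cons A _ ih => exact ih hm L₁ (J ++ A) h (by simpa using hs)
  | @cons_cons Q As A hQ ih =>
    obtain ⟨h1, k1, -, k3⟩ := St.block (L₁ := L₁) (T := J) (B := A) (L₂ := As.flatten ++ R) h0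
      (by simpa using hs) (Or.inl (hm A List.mem_cons_self))
    have hnd := k1.perm.nodup_iff.2 h0
    obtain ⟨R', h', k4, k5⟩ := ih (fun B hB => hm B (List.mem_cons_of_mem _ hB)) (L₁ ++ A) J h1
      (by simpa using k1)
    refine ⟨R', h', by simpa using k4, fun a ha => ?_⟩
    have ha' : a ∈ L₁ ++ A ++ Q.flatten := by simpa using ha
    rw [k5 a ha']
    refine k3 a fun hJ => ?_
    rcases List.mem_append.1 ha' with ha1 | ha1
    · exact (List.nodup_append.1 (List.nodup_append.1 hnd).1).2.2 a ha1 a hJ rfl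
    · obtain ⟨B, hB, haB⟩ := List.mem_flatten.1 ha1
      exact (List.nodup_append.1 hnd).2.2 a (List.mem_append_right _ hJ) a
        (List.mem_append_left _ (List.mem_flatten.2 ⟨B, hQ.subset hB, haB⟩)) rfl

/-- Induction on the sublist relation, generalising `L₁`, a junk block `J` between `L₁` and
`As.flatten`, and `h`: a skipped cluster joins `J`, a selected one jumps over `J`. -/
theorem St.sel (h0 : L0.Nodup) {L₁ R : List (Fin n)} {As Q : List (List (Fin n))}
    (hQ : Q.Sublist As) (hm : ∀ A ∈ Q, ∀ a ∈ A, a ∈ Mov)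
    (hs : St Mov L0 g (L₁ ++ As.flatten ++ R) h) :
    ∃ R' h', St Mov L0 g (L₁ ++ Q.flatten ++ R') h' ∧ ∀ a ∈ L₁ ++ Q.flatten, h' a = h a := by
  exact move_sel h0 hQ hm L₁ [] h (by simpa using hs)

theorem cl_congr {h' : Fin n → G} {A : List (Fin n)} (e : ∀ a ∈ A, h' a = h a) :
    cl h' A = cl h A := by
  unfold cl
  rw [Set.image_congr (s := {a | a ∈ A}) e]

theorem cl_conj {h' : Fin n → G} {A : List (Fin n)} {z : G} (e : ∀ a ∈ A, h' a = z⁻¹ * h a * z) :
    cl h' A = cj z⁻¹ (cl h A) := by
  unfold cl cj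
  rw [MonoidHom.map_closure, Set.image_image]
  congr 1
  refine Set.image_congr fun a ha => ?_
  rw [e a ha]
  simp

theorem cl_mono {A B : List (Fin n)} (e : ∀ a ∈ A, a ∈ B) : cl h A ≤ cl h B := by
  exact Subgroup.closure_mono (Set.image_mono e)

theorem mem_cl {A : List (Fin n)} {a : Fin n} (ha : a ∈ A) : h a ∈ cl h A := by
  exact Subgroup.subset_closure ⟨a, ha, rfl⟩

theorem mem_cj {γ x : G} {H : Subgroup G} : x ∈ cj γ H ↔ γ⁻¹ * x * γ ∈ H := by
  constructor
  · rintro ⟨y, hy, rfl⟩
    simpa [mul_assoc] using hy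
  · intro hx
    exact ⟨_, hx, by simp [mul_assoc]⟩

theorem cj_self {γ : G} {H : Subgroup G} (hγ : γ ∈ H) : cj γ H = H := by
  ext x
  rw [mem_cj, H.mul_mem_cancel_right hγ, H.mul_mem_cancel_left (inv_mem hγ)]

theorem St.cl_le (h0 : L0.Nodup) {L : List (Fin n)} (hs : St Mov L0 g L h) (A : List (Fin n)) :
    cl h A ≤ Subgroup.closure (Set.range g) := by
  rw [← hs.closure h0]
  exact Subgroup.closure_mono (Set.image_subset_range _ _)

/-- Take `K` movable members of `L0` as singletons; `L0 = (L0.map fun a => [a]).flatten`. -/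
theorem front_init (h0 : L0.Nodup) (hall : ∀ a, a ∈ L0) {K : ℕ} (hK : K ≤ Mov.card)
    {P : Subgroup G → Prop} (hP : ∀ a ∈ Mov, P (cl g [a])) : Front Mov L0 g K P := by
  have hlen : (L0.filter fun a => a ∈ Mov).length = Mov.card := by
    rw [← List.toFinset_card_of_nodup (h0.filter _)]
    congr 1
    ext a
    simp [hall a]
  have hsub : ((L0.filter fun a => a ∈ Mov).take K).Sublist L0 :=
    (List.take_sublist _ _).trans List.filter_sublist
  have hmov : ∀ a ∈ (L0.filter fun a => a ∈ Mov).take K, a ∈ Mov := fun a ha => by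
    simpa using (List.mem_filter.1 (List.mem_of_mem_take ha)).2
  have hK' : ((L0.filter fun a => a ∈ Mov).take K).length = K := by
    rw [List.length_take, hlen, min_eq_left hK]
  generalize (L0.filter fun a => a ∈ Mov).take K = l at hsub hmov hK'
  have hfl : ∀ l : List (Fin n), (l.map fun a => [a]).flatten = l := fun l => by
    induction l with
    | nil => rfl
    | cons a l ih => simp [ih]
  have hm : ∀ A ∈ l.map fun a => [a], ∀ a ∈ A, a ∈ Mov := by
    intro A hA a ha
    obtain ⟨b, hb, rfl⟩ := List.mem_map.1 hA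
    rw [List.mem_singleton.1 ha]
    exact hmov b hb
  obtain ⟨R', h', k1, k2⟩ := St.sel (g := g) (h := g) (L₁ := []) (R := []) h0
    (hsub.map fun a => [a]) hm (by rw [hfl, List.nil_append, List.append_nil]; exact St.init)
  refine ⟨l.map fun a => [a], R', h', by simpa using k1, by rw [List.length_map, hK'],
    fun A hA => ⟨hm A hA, ?_⟩⟩
  obtain ⟨b, hb, rfl⟩ := List.mem_map.1 hA
  rw [cl_congr (h := g) fun a ha => k2 a (by
    rw [hfl, List.nil_append, List.mem_singleton.1 ha]; exact hb)]
  exact hP b (hmov b hb)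

end Pool.Agent.GR
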