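import Pool.Agent.Lib.MP_aa40d3_nt.MR.ADefs
import Pool.Agent.Lib.MP_aa40d3_nt.GR.ModelEx

/-! A presentation in which the movable points are free variables. -/

open Polynomial Matrix

namespace Pool.Agent.GR

variable {n : ℕ}

/-- As `present_alg`, without the assumption that `P` is integrally closed: scale a primitive
element `α` by a common denominator `y` of the coefficients of its minimal polynomial
(`scaleRoots`, or `IsLocalization.scaleRoots_commonDenom_mem_lifts`), and divide by the monic `F`. -/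
theorem present_alg3 {P L : Type} [CommRing P] [IsDomain P] [Field L]
    [CharZero L] [Algebra P L] [FaithfulSMul P L] (S : Finset L)
    (hS : ∀ s ∈ S, IsAlgebraic P s) :
    ∃ (θ : L) (F : P[X]) (G : P), F.Monic ∧ G ≠ 0 ∧ (∀ q, aeval θ q = 0 ↔ F ∣ q) ∧
      (∀ s ∈ S, ∃ q : P[X], aeval θ q = algebraMap P L G * s) ∧
      ∃ u v, u * F + v * derivative F = C G := by
  classical
  let K := FractionRing P
  let : Algebra K L := FractionRing.liftAlgebra P L
  have : IsScalarTower P K L := FractionRing.isScalarTower_liftAlgebra P L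
  have : CharZero K := RingHom.charZero (algebraMap K L)
  have hinj : Function.Injective (algebraMap P K) := IsFractionRing.injective P K
  have hint : ∀ s ∈ (S : Set L), IsIntegral K s := fun s hs =>
    ((hS s hs).extendScalars hinj).isIntegral
  let E := IntermediateField.adjoin K (S : Set L)
  have : FiniteDimensional K E := IntermediateField.finiteDimensional_adjoin hint
  obtain ⟨α, hα⟩ := Field.exists_primitive_element K E
  have hαK : IsIntegral K (α : L) :=
    ((Algebra.IsAlgebraic.isAlgebraic (R := K) α).algHom E.val).isIntegral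
  have hμ := minpoly.monic hαK
  have hl := IsLocalization.scaleRoots_commonDenom_mem_lifts (nonZeroDivisors P)
    (minpoly K (α : L)) (by rw [hμ.leadingCoeff]; exact one_mem _)
  generalize IsLocalization.commonDenom (nonZeroDivisors P) (minpoly K (α : L)).support
    (minpoly K (α : L)).coeff = y at hl
  have hyK : algebraMap P K y ≠ 0 := by
    rw [ne_eq, map_eq_zero_iff _ hinj]
    exact nonZeroDivisors.ne_zero y.2
  generalize algebraMap P K y = z at hl hyK
  obtain ⟨F, hF, -, hFm⟩ :=
    lifts_and_natDegree_eq_and_monic hl ((monic_scaleRoots_iff _).2 hμ)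
  set θ : L := z • (α : L) with hθdef
  have hzL : algebraMap K L z ≠ 0 := (_root_.map_ne_zero _).2 hyK
  have hmem : ∀ s ∈ S, ∃ f : K[X], aeval θ f = s := by
    intro s hs
    have h1 : (⟨s, IntermediateField.subset_adjoin K _ hs⟩ : E) ∈
        IntermediateField.adjoin K {α} := by
      rw [hα]
      trivial
    have h2 : (⟨s, IntermediateField.subset_adjoin K _ hs⟩ : E) ∈ Algebra.adjoin K {α} := by
      rw [← IntermediateField.adjoin_simple_toSubalgebra_of_isAlgebraic
        (Algebra.IsAlgebraic.isAlgebraic α)]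
      exact h1
    rw [Algebra.adjoin_singleton_eq_range_aeval] at h2
    obtain ⟨f, hf⟩ := h2
    have h3 : aeval (α : L) f = s := by
      have := congrArg E.val hf
      rw [AlgHom.toRingHom_eq_coe, RingHom.coe_coe, ← aeval_algHom_apply] at this
      exact this
    refine ⟨f.comp (C z⁻¹ * X), ?_⟩
    rw [aeval_comp, map_mul, aeval_C, aeval_X, map_inv₀,
      hθdef, Algebra.smul_def, ← mul_assoc, inv_mul_cancel₀ hzL, one_mul, h3]
  choose! f hf using hmem
  have hθK : IsIntegral K θ := hαK.smul z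
  have hsep : (minpoly K θ).Separable := (minpoly.irreducible hθK).separable
  obtain ⟨a, b, hab⟩ := hsep
  have hmp : minpoly K θ = F.map (algebraMap P K) := by
    rw [hF]
    exact IsIntegrallyClosed.minpoly_smul hyK hαK
  obtain ⟨G, hG, hcl⟩ := present_clear (P := P) (insert a (insert b (S.image f)))
  refine ⟨θ, F, G, hFm, hG, fun q => ?_, fun s hs => ?_, ?_⟩
  · rw [← aeval_map_algebraMap K, ← minpoly.dvd_iff, hmp]
    exact Polynomial.map_dvd_map _ hinj hFm
  · obtain ⟨q, hq⟩ := hcl (f s)
      (Finset.mem_insert_of_mem (Finset.mem_insert_of_mem (Finset.mem_image_of_mem f hs)))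
    refine ⟨q, ?_⟩
    rw [← aeval_map_algebraMap K, hq, map_mul, aeval_C, hf s hs, ← IsScalarTower.algebraMap_apply]
  · obtain ⟨u, hu⟩ := hcl a (Finset.mem_insert_self _ _)
    obtain ⟨v, hv⟩ := hcl b (Finset.mem_insert_of_mem (Finset.mem_insert_self _ _))
    refine ⟨u, v, Polynomial.map_injective _ hinj ?_⟩
    rw [Polynomial.map_add, Polynomial.map_mul, Polynomial.map_mul, hu, hv, ← derivative_map,
      ← hmp, map_C, mul_assoc, mul_assoc, ← mul_add, hab, mul_one]

theorem present3_ind {ι : Type} {x : ι → ℂ} {B B' : Subring ℂ} (h : B' ≤ B)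
    (hi : AlgebraicIndependent B x) : AlgebraicIndependent B' x :=
  AlgebraicIndependent.of_ringHom_of_comp_eq (Subring.inclusion h) (RingHom.id ℂ) hi
    (Subring.inclusion_injective h) rfl

theorem present3_alg {s : ℂ} {B B' : Subring ℂ} (h : B ≤ B') (hs : IsAlgebraic B s) :
    IsAlgebraic B' s :=
  hs.ringHom_of_comp_eq (Subring.inclusion h) (RingHom.id ℂ) (Subring.inclusion_injective h) rfl

theorem present3_step {ι : Type} {x : ι → ℂ} {B R : Subring ℂ} {s : ℂ} (hB : B ≤ R)
    (hx : ∀ i, x i ∈ R) (hi : AlgebraicIndependent B x) (hs : ¬ IsAlgebraic R s) :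
    AlgebraicIndependent (Subring.closure (insert s (B : Set ℂ))) x := by
  have h0 : (Algebra.adjoin B (Set.range x)).toSubring ≤ R := by
    intro z hz
    induction hz using Algebra.adjoin_induction with
    | mem z hz => obtain ⟨i, rfl⟩ := hz; exact hx i
    | algebraMap r => exact hB r.2
    | add a b _ _ ha hb => exact add_mem ha hb
    | mul a b _ _ ha hb => exact mul_mem ha hb
  have h1 : Transcendental (Algebra.adjoin B (Set.range x)) s := fun k => hs (present3_alg h0 k)
  have h2 : AlgebraicIndependent B (Sum.elim (fun _ : Unit => s) x) :=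
    hi.sumElim (algebraicIndependent_unique_type_iff.2 h1)
  have h3 : AlgebraicIndependent B (Sum.elim x fun _ : Unit => s) := by
    have e : (Sum.elim x fun _ : Unit => s) = Sum.elim (fun _ : Unit => s) x ∘ Sum.swap := by
      funext a
      rcases a with a | a <;> rfl
    rw [e]
    exact h2.comp _ Sum.swap_leftInverse.injective
  have h4 : AlgebraicIndependent (Algebra.adjoin B (Set.range fun _ : Unit => s)).toSubring x :=
    (AlgebraicIndependent.sumElim_iff.1 h3).2
  refine present3_ind (Subring.closure_le.2 ?_) h4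
  rintro z (rfl | hz)
  · exact Algebra.subset_adjoin (R := B) ⟨(), rfl⟩
  · exact (Algebra.adjoin B (Set.range fun _ : Unit => s)).algebraMap_mem ⟨z, hz⟩

theorem present3_range {σ : Type} (w : σ → ℂ) :
    (ev1 w).range = Subring.closure (Set.range w) := by
  refine le_antisymm ?_ (Subring.closure_le.2 ?_)
  · rintro _ ⟨p, rfl⟩
    induction p using MvPolynomial.induction_on with
    | C a => rw [eq_intCast MvPolynomial.C a, map_intCast]; exact intCast_mem _ a
    | add p q hp hq => rw [map_add]; exact add_mem hp hq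
    | mul_X p i hp =>
      rw [map_mul, modelex_ev1_X]
      exact mul_mem hp (Subring.subset_closure ⟨i, rfl⟩)
  · rintro _ ⟨i, rfl⟩
    exact ⟨MvPolynomial.X i, modelex_ev1_X w i⟩

/-- Induction on `S`: adjoin `s` to the fixed coordinates if it is transcendental over the ring
generated so far. -/
theorem present_basis3 {Mov : Finset (Fin n)} {t : Fin n → ℂ} (ht : Gen Mov t) (S : Finset ℂ) :
    ∃ (m : ℕ) (w : Fin n ⊕ Fin m → ℂ) (B : Subring ℂ), (∀ i, w (Sum.inl i) = t i) ∧
      B = Subring.closure (w '' {s | ∀ i ∈ Mov, s ≠ Sum.inl i}) ∧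
      (AlgebraicIndependent B fun i : Mov => t i) ∧ ∀ s ∈ S, IsAlgebraic (ev1 w).range s := by
  classical
  induction S using Finset.induction_on with
  | empty =>
    obtain ⟨B, h1, h2⟩ := ht
    refine ⟨0, Sum.elim t Fin.elim0, _, fun i => rfl, rfl,
      present3_ind (Subring.closure_le.2 ?_) h2, by simp⟩
    rintro _ ⟨a | a, ha, rfl⟩
    · exact h1 a fun k => ha a k rfl
    · exact a.elim0
  | insert s S _ ih =>
    obtain ⟨m, w, B, hw, hB, hind, halg⟩ := ih
    by_cases hs : IsAlgebraic (ev1 w).range s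
    · refine ⟨m, w, B, hw, hB, hind, fun x hx => ?_⟩
      rcases Finset.mem_insert.1 hx with rfl | hx
      · exact hs
      · exact halg x hx
    · let w' : Fin n ⊕ Fin (m + 1) → ℂ := Sum.elim t (Fin.cons s fun j => w (Sum.inr j))
      have hle : (ev1 w).range ≤ (ev1 w').range := by
        rw [present3_range, present3_range]
        refine Subring.closure_mono ?_
        rintro _ ⟨x | x, rfl⟩
        · exact ⟨Sum.inl x, (hw x).symm⟩
        · exact ⟨Sum.inr x.succ, by simp [w']⟩
      have hBR : B ≤ (ev1 w).range := by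
        rw [hB, present3_range]
        exact Subring.closure_mono (Set.image_subset_range _ _)
      have h1 := present3_step hBR (fun i : Mov => ⟨MvPolynomial.X (Sum.inl i.1), by
        rw [modelex_ev1_X, hw]⟩) hind hs
      refine ⟨m + 1, w', _, fun i => rfl, rfl, present3_ind (Subring.closure_le.2 ?_) h1,
        fun x hx => ?_⟩
      · rintro _ ⟨a | a, ha, rfl⟩
        · refine Subring.subset_closure (Or.inr ?_)
          rw [hB]
          exact Subring.subset_closure ⟨Sum.inl a, fun i hi k => ha i hi (by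
            rw [Sum.inl_injective k]), hw a⟩
        · refine Subring.subset_closure ?_
          refine Fin.cases (Or.inl (by simp [w'])) (fun j => Or.inr ?_) a
          rw [hB]
          exact Subring.subset_closure ⟨Sum.inr j, fun i _ => Sum.inr_ne_inl, by simp [w']⟩
      · rcases Finset.mem_insert.1 hx with rfl | hx
        · have hm : x ∈ (ev1 w').range :=
            ⟨MvPolynomial.X (Sum.inr 0), by rw [modelex_ev1_X]; simp [w']⟩
          exact isAlgebraic_algebraMap (⟨x, hm⟩ : (ev1 w').range)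
        · exact present3_alg hle (halg x hx)

theorem present3_map {σ k k' : Type} [CommRing k] [CommRing k'] (φ : k →+* k') (w : σ → k)
    (q : MvPolynomial σ ℤ) : φ (ev1 w q) = ev1 (fun s => φ (w s)) q := by
  have : φ.comp (ev1 w) = ev1 fun s => φ (w s) :=
    MvPolynomial.ringHom_ext' (RingHom.ext_int _ _) fun s => by simp [ev1]
  exact RingHom.congr_fun this q

theorem present3_lift {σ k : Type} [CommRing k] (w : σ → ℂ) (w' : σ → k) {B : Subring ℂ}
    (hB : B = Subring.closure (Set.range w)) (h : ∀ z, ev1 w z = 0 → ev1 w' z = 0) :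
    ∃ ψ : B →+* k, ∀ s (hs : w s ∈ B), ψ ⟨w s, hs⟩ = w' s := by
  rw [← present3_range] at hB
  subst hB
  refine ⟨(ev1 w).rangeRestrict.liftOfSurjective (ev1 w).rangeRestrict_surjective
    ⟨ev1 w', fun z hz => h z (congrArg Subtype.val hz)⟩, fun s hs => ?_⟩
  have e : (⟨w s, hs⟩ : (ev1 w).range) = (ev1 w).rangeRestrict (MvPolynomial.X s) :=
    Subtype.ext (modelex_ev1_X w s).symm
  rw [e, RingHom.liftOfSurjective_comp_apply]
  exact modelex_ev1_X w' s

/-- The relations among the coordinates come from relations among the fixed coordinates. -/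
theorem present_ker3 {Mov : Finset (Fin n)} {m : ℕ} {w : Fin n ⊕ Fin m → ℂ} {B : Subring ℂ}
    (hB : B = Subring.closure (w '' {s | ∀ i ∈ Mov, s ≠ Sum.inl i}))
    (hi : AlgebraicIndependent B fun i : Mov => w (Sum.inl i)) {k : Type} [CommRing k]
    {w' : Fin n ⊕ Fin m → k} (hZ : ∀ z, Loc Mov z → ev1 w z = 0 → ev1 w' z = 0)
    {p : MvPolynomial (Fin n ⊕ Fin m) ℤ} (hp : ev1 w p = 0) : ev1 w' p = 0 := by
  classical
  have hmem : ∀ s, (∀ i ∈ Mov, s ≠ Sum.inl i) → w s ∈ B := fun s hs =>
    hB ▸ Subring.subset_closure ⟨s, hs, rfl⟩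
  obtain ⟨ψ, hψ⟩ := present3_lift (B := B)
    (fun s : {s : Fin n ⊕ Fin m | ∀ i ∈ Mov, s ≠ Sum.inl i} => w s.1) (fun s => w' s.1)
    (by rw [hB, Set.image_eq_range]) fun z hz => by
      have key : ∀ (k : Type) [CommRing k] (u : Fin n ⊕ Fin m → k),
          ev1 u (ev1 (fun s : {s : Fin n ⊕ Fin m | ∀ i ∈ Mov, s ≠ Sum.inl i} =>
            (MvPolynomial.X s.1 : MvPolynomial (Fin n ⊕ Fin m) ℤ)) z) =
            ev1 (fun s : {s : Fin n ⊕ Fin m | ∀ i ∈ Mov, s ≠ Sum.inl i} => u s.1) z := by
        intro k _ u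
        rw [present3_map]
        simp only [modelex_ev1_X]
      rw [← key]
      refine hZ _ (fun k _ u u' h => ?_) ((key ℂ w).trans hz)
      rw [key, key]
      congr 2
      funext s
      exact h s.1 s.2
  let Θ : Fin n ⊕ Fin m → MvPolynomial Mov B := Sum.elim
    (fun i => if h : i ∈ Mov then MvPolynomial.X ⟨i, h⟩ else
      MvPolynomial.C ⟨w (Sum.inl i), hmem _ fun j hj e => h (Sum.inl_injective e ▸ hj)⟩)
    fun j => MvPolynomial.C ⟨w (Sum.inr j), hmem _ fun _ _ => Sum.inr_ne_inl⟩
  have key : ∀ (k : Type) [CommRing k] (φ : B →+* k) (u : Fin n ⊕ Fin m → k),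
      (∀ s (hs : ∀ i ∈ Mov, s ≠ Sum.inl i), φ ⟨w s, hmem s hs⟩ = u s) →
      MvPolynomial.eval₂Hom φ (fun i : Mov => u (Sum.inl i)) (ev1 Θ p) = ev1 u p := by
    intro k _ φ u h
    rw [present3_map]
    congr 2
    funext s
    rcases s with i | j
    · by_cases hi : i ∈ Mov
      · simp [Θ, hi]
      · simp only [Θ, Sum.elim_inl, dif_neg hi, MvPolynomial.eval₂Hom_C]
        exact h (Sum.inl i) fun j hj e => hi (Sum.inl_injective e ▸ hj)
    · simp only [Θ, Sum.elim_inr, MvPolynomial.eval₂Hom_C]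
      exact h _ fun _ _ => Sum.inr_ne_inl
  have h0 : ev1 Θ p = 0 :=
    algebraicIndependent_iff.1 hi _ ((key ℂ (algebraMap B ℂ) w fun _ _ => rfl).trans hp)
  rw [← key k ψ w' fun s hs => hψ ⟨s, hs⟩ _, h0, map_zero]

/-- Apply `present_alg3` to `P = (ev1 w).range` and lift. -/
theorem exists_presentation3 {Mov : Finset (Fin n)} {t : Fin n → ℂ} (ht : Gen Mov t)
    (S : Finset ℂ) :
    ∃ (m : ℕ) (w : Fin n ⊕ Fin m → ℂ) (θ : ℂ) (F : (MvPolynomial (Fin n ⊕ Fin m) ℤ)[X])
      (G : MvPolynomial (Fin n ⊕ Fin m) ℤ), F.Monic ∧ (∀ i, w (Sum.inl i) = t i) ∧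
      ev1 w G ≠ 0 ∧ ev2 w θ F = 0 ∧
      (∀ q, ev2 w θ q = 0 → ∀ (k : Type) [Field k] (w' : Fin n ⊕ Fin m → k) (θ' : k),
        (∀ z, Loc Mov z → ev1 w z = 0 → ev1 w' z = 0) → ev2 w' θ' F = 0 → ev2 w' θ' q = 0) ∧
      (∀ s ∈ S, ∃ q, ev2 w θ q = ev1 w G * s) ∧ ∃ v, ev2 w θ (v * derivative F) = ev1 w G := by
  obtain ⟨m, w, B, hw, hB, hind, halg⟩ := present_basis3 ht S
  obtain ⟨θ, F0, G0, hF0, hG0, h1, h2, u, v, h3⟩ := present_alg3 S halg
  have hπ := (ev1 w).rangeRestrict_surjective
  have hπ' := Polynomial.map_surjective _ hπ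
  have hev : ∀ q, ev2 w θ q = aeval θ (q.map (ev1 w).rangeRestrict) := fun q => by
    rw [aeval_def, eval₂_map]
    rfl
  obtain ⟨F, hF, -, hFm⟩ := lifts_and_natDegree_eq_and_monic
    ((mem_lifts (f := (ev1 w).rangeRestrict) F0).2 (hπ' F0)) hF0
  obtain ⟨G, rfl⟩ := hπ G0
  have hi : AlgebraicIndependent B fun i : Mov => w (Sum.inl i) := by
    simpa only [hw] using hind
  have hz : aeval θ F0 = 0 := (h1 F0).2 dvd_rfl
  refine ⟨m, w, θ, F, G, hFm, hw, fun h => hG0 (Subtype.ext h), by rw [hev, hF, hz],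
    fun q hq k _ w' θ' hZ hF' => ?_, fun s hs => ?_, ?_⟩
  · rw [hev, h1] at hq
    obtain ⟨c0, hc⟩ := hq
    obtain ⟨c, rfl⟩ := hπ' c0
    have e : (q - F * c).map (ev1 w).rangeRestrict = 0 := by
      rw [Polynomial.map_sub, Polynomial.map_mul, hF, hc, sub_self]
    have e' : (q - F * c).map (ev1 w') = 0 := by
      ext i
      rw [coeff_map, coeff_zero]
      refine present_ker3 hB hi hZ ?_
      have := congrArg (fun r => ((coeff r i : (ev1 w).range) : ℂ)) e
      simpa only [coeff_map, coeff_zero, RingHom.coe_rangeRestrict, ZeroMemClass.coe_zero]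
        using this
    have e'' : ev2 w' θ' (q - F * c) = 0 := by
      rw [ev2, coe_eval₂RingHom, ← eval_map, e', eval_zero]
    rwa [map_sub, map_mul, hF', zero_mul, sub_zero] at e''
  · obtain ⟨q0, hq⟩ := h2 s hs
    obtain ⟨q, rfl⟩ := hπ' q0
    exact ⟨q, (hev q).trans hq⟩
  · obtain ⟨v, rfl⟩ := hπ' v
    refine ⟨v, ?_⟩
    have e := congrArg (aeval θ) h3
    rw [map_add, map_mul, hz, mul_zero, zero_add, aeval_C] at e
    rw [hev, Polynomial.map_mul, ← derivative_map, hF]
    exact e

end Pool.Agent.GR
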