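import Pool.Agent.Lib.MP_aa40d3_nt.MR.Move

/-! First stage: a cluster whose span is invariant is irreducible. -/

open Matrix

namespace Pool.Agent.GR

variable {n r : ℕ}

theorem actM_one (S : Set (Matrix (Fin r) (Fin r) ℂ)) : actM 1 S = S := by
  simp [actM]

theorem actM_mul (a b : GLr r) (S : Set (Matrix (Fin r) (Fin r) ℂ)) :
    actM (a * b) S = actM a (actM b S) := by
  simp only [actM, Set.image_image, _root_.mul_inv_rev, Units.val_mul, Matrix.mul_assoc]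

theorem IsRf.conj {x y : GLr r} (hx : IsRf x) (h : IsConj x y) : IsRf y := by
  obtain ⟨e, f, h1, h2⟩ := hx
  obtain ⟨c, rfl⟩ := isConj_iff.1 h
  refine ⟨c.val *ᵥ e, f ᵥ* (c⁻¹).val, ?_, ?_⟩
  · rwa [dotProduct_mulVec, vecMul_vecMul, Units.inv_mul, vecMul_one]
  · rw [Units.val_mul, Units.val_mul, h2, Matrix.mul_sub, Matrix.sub_mul, Matrix.mul_one,
      Units.mul_inv, mul_vecMulVec, vecMulVec_mul]

theorem span_ext {x y : Matrix (Fin r) (Fin r) ℂ} (h : ∀ v, x *ᵥ v = y *ᵥ v) : x = y :=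
  Matrix.toLin'.injective (LinearMap.ext h)

theorem span_cancel (γ : GLr r) (v : Fin r → ℂ) : γ.val *ᵥ ((γ⁻¹).val *ᵥ v) = v := by
  rw [mulVec_mulVec, Units.mul_inv, one_mulVec]

theorem span_cancel' (γ : GLr r) (v : Fin r → ℂ) : (γ⁻¹).val *ᵥ (γ.val *ᵥ v) = v := by
  rw [mulVec_mulVec, Units.inv_mul, one_mulVec]

/-- For an invariant `U ≠ ⊥, ⊤` the matrices that map everything into `U` and kill `U` form an
invariant space with zero products; it contains a nonzero matrix `vecMulVec u f`. -/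
theorem PrimT.irr {Γ : Subgroup (GLr r)} (hP : PrimT Γ) : IrrS Γ := by
  intro U hU
  by_contra hn
  rw [not_or] at hn
  obtain ⟨u, hu, hu0⟩ := U.exists_mem_ne_zero_of_ne_bot hn.1
  obtain ⟨f, hf0, hf⟩ := U.exists_le_ker_of_lt_top (lt_top_iff_ne_top.2 hn.2)
  let Z : Submodule ℂ (Matrix (Fin r) (Fin r) ℂ) :=
    { carrier := {x | (∀ v, x *ᵥ v ∈ U) ∧ ∀ v ∈ U, x *ᵥ v = 0}
      add_mem' := fun {a b} ha hb => ⟨fun v => by
        rw [add_mulVec]
        exact U.add_mem (ha.1 v) (hb.1 v), fun v hv => by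
        rw [add_mulVec, ha.2 v hv, hb.2 v hv, add_zero]⟩
      zero_mem' := ⟨fun v => by simp, fun v _ => by simp⟩
      smul_mem' := fun c a ha => ⟨fun v => by
        rw [smul_mulVec]
        exact U.smul_mem c (ha.1 v), fun v hv => by rw [smul_mulVec, ha.2 v hv, smul_zero]⟩ }
  have hx : ∀ v, LinearMap.toMatrix' (f.smulRight u) *ᵥ v = f v • u := fun v => by
    rw [LinearMap.toMatrix'_mulVec, LinearMap.smulRight_apply]
  obtain ⟨c, hc⟩ := hP Z (fun γ hγ x hx => ⟨fun v => by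
      rw [← mulVec_mulVec, ← mulVec_mulVec]
      exact hU γ hγ _ (hx.1 _), fun v hv => by
      rw [← mulVec_mulVec, ← mulVec_mulVec, hx.2 _ (hU _ (Γ.inv_mem hγ) v hv), mulVec_zero]⟩)
    (fun x hx y hy => span_ext fun v => by
      rw [← mulVec_mulVec, ← mulVec_mulVec, hx.2 _ (hy.1 v), hy.2 _ (hx.1 v)])
    (LinearMap.toMatrix' (f.smulRight u))
    ⟨fun v => by
      rw [hx]
      exact U.smul_mem _ hu, fun v hv => by rw [hx, LinearMap.mem_ker.1 (hf hv), zero_smul]⟩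
  have h1 := hx u
  rw [hc, LinearMap.mem_ker.1 (hf hu), smul_mulVec, one_mulVec, zero_smul] at h1
  refine hf0 (LinearMap.ext fun v => ?_)
  have h2 := hx v
  rw [hc, (smul_eq_zero.1 h1).resolve_right hu0, zero_smul, zero_mulVec] at h2
  exact (smul_eq_zero.1 h2.symm).resolve_right hu0

theorem span_core {Γ : Subgroup (GLr r)} (h : IrrS Γ) (U : Submodule ℂ (Fin r → ℂ))
    {v : Fin r → ℂ} (hv : ∀ γ ∈ Γ, γ.val *ᵥ v ∈ U) : v = 0 ∨ U = ⊤ := by
  let K : Submodule ℂ (Fin r → ℂ) := ⨅ γ ∈ Γ, U.comap (Matrix.toLin' γ.val)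
  have hK : ∀ w, w ∈ K ↔ ∀ γ ∈ Γ, γ.val *ᵥ w ∈ U := fun w => by
    simp only [K, Submodule.mem_iInf, Submodule.mem_comap, Matrix.toLin'_apply]
  rcases h K (fun x hx w hw => (hK _).2 fun γ hγ => by
    rw [mulVec_mulVec, ← Units.val_mul]
    exact (hK w).1 hw _ (Γ.mul_mem hγ hx)) with h1 | h1
  · exact Or.inl ((Submodule.eq_bot_iff _).1 h1 v ((hK v).2 hv))
  · refine Or.inr (eq_top_iff.2 fun w _ => ?_)
    simpa using (hK w).1 (h1 ▸ Submodule.mem_top) 1 Γ.one_mem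

theorem span_main {Γ : Subgroup (GLr r)} (hP : PrimT Γ)
    {B : Submodule ℂ (Matrix (Fin r) (Fin r) ℂ)} (h1 : 1 ∈ B)
    (hm : ∀ a ∈ B, ∀ b ∈ B, a * b ∈ B) (hc : ∀ γ ∈ Γ, ∀ b ∈ B, γ.val * b * (γ⁻¹).val ∈ B)
    {e f : Fin r → ℂ} (hfe : f ⬝ᵥ e ≠ 0) (hp : vecMulVec e f ∈ B)
    (U : Submodule ℂ (Fin r → ℂ)) (hU : ∀ b ∈ B, ∀ v ∈ U, b *ᵥ v ∈ U) : U = ⊥ ∨ U = ⊤ := by
  have he : e ≠ 0 := fun h => hfe (by rw [h, dotProduct_zero])
  let φ : Matrix (Fin r) (Fin r) ℂ →ₗ[ℂ] (Fin r → ℂ) :=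
    { toFun := fun b => b *ᵥ e
      map_add' := fun a b => add_mulVec a b e
      map_smul' := fun c a => smul_mulVec c a e }
  let W : Submodule ℂ (Fin r → ℂ) := B.map φ
  let N : Submodule ℂ (Fin r → ℂ) :=
    { carrier := {v | ∀ b ∈ B, f ⬝ᵥ b *ᵥ v = 0}
      add_mem' := fun {u v} hu hv b hb => by
        rw [mulVec_add, dotProduct_add, hu b hb, hv b hb, add_zero]
      zero_mem' := fun b _ => by rw [mulVec_zero, dotProduct_zero]
      smul_mem' := fun c v hv b hb => by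
        rw [mulVec_smul, dotProduct_smul, hv b hb, smul_zero] }
  have eW : e ∈ W := ⟨1, h1, one_mulVec e⟩
  have eN : e ∉ N := fun h => hfe (by simpa using h 1 h1)
  have sW : ∀ b ∈ B, ∀ v ∈ W, b *ᵥ v ∈ W := by
    rintro b hb _ ⟨a, ha, rfl⟩
    exact ⟨b * a, hm b hb a ha, (mulVec_mulVec e b a).symm⟩
  have sN : ∀ b ∈ B, ∀ v ∈ N, b *ᵥ v ∈ N := fun b hb v hv a ha => by
    rw [mulVec_mulVec]
    exact hv _ (hm a ha b hb)
  have dich : ∀ V : Submodule ℂ (Fin r → ℂ), (∀ b ∈ B, ∀ v ∈ V, b *ᵥ v ∈ V) → V ≤ N ∨ W ≤ V :=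
    fun V hV => by
      refine or_iff_not_imp_left.2 fun h => ?_
      obtain ⟨v, hv, hv'⟩ := SetLike.not_le_iff_exists.1 h
      obtain ⟨b, hb, hb'⟩ : ∃ b ∈ B, f ⬝ᵥ b *ᵥ v ≠ 0 := by
        by_contra hn
        exact hv' fun b hb => not_not.1 fun h => hn ⟨b, hb, h⟩
      have h2 := hV _ hp _ (hV b hb v hv)
      rw [vecMulVec_mulVec, op_smul_eq_smul] at h2
      rintro _ ⟨a, ha, rfl⟩
      exact hV a ha e ((V.smul_mem_iff hb').1 h2)
  have smap : ∀ γ ∈ Γ, ∀ V : Submodule ℂ (Fin r → ℂ), (∀ b ∈ B, ∀ v ∈ V, b *ᵥ v ∈ V) →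
      ∀ b ∈ B, ∀ v ∈ V.map (Matrix.toLin' γ.val), b *ᵥ v ∈ V.map (Matrix.toLin' γ.val) := by
    rintro γ hγ V hV b hb _ ⟨v, hv, rfl⟩
    refine ⟨_, hV _ (hc _ (Γ.inv_mem hγ) b hb) v hv, ?_⟩
    rw [Matrix.toLin'_apply, Matrix.toLin'_apply, inv_inv, ← mulVec_mulVec, ← mulVec_mulVec,
      span_cancel]
  have dW : ∀ γ ∈ Γ, W.map (Matrix.toLin' γ.val) ≤ N ∨ W = W.map (Matrix.toLin' γ.val) :=
    fun γ hγ => (dich _ (smap γ hγ W sW)).imp_right fun h =>
      Submodule.eq_of_le_of_finrank_le h (Submodule.finrank_map_le _ _)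
  have dE : ∀ γ ∈ Γ, γ.val *ᵥ e ∈ N ∨ γ.val *ᵥ e ∈ W := fun γ hγ =>
    (dW γ hγ).imp (fun h => h ⟨e, eW, rfl⟩) fun h => h.ge ⟨e, eW, rfl⟩
  have hWN : IsCompl W N := by
    refine ⟨Submodule.disjoint_def.2 fun v hW hN => ?_, codisjoint_iff.2 ?_⟩
    · refine (span_core hP.irr N fun γ hγ => ?_).resolve_right fun h => eN (h ▸ Submodule.mem_top)
      rcases dW γ hγ with h | h
      · exact h ⟨v, hW, rfl⟩
      rcases dich _ (smap γ hγ N sN) with h' | h'
      · exact h' ⟨v, hN, rfl⟩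
      obtain ⟨u, hu, hu'⟩ := h' (h.ge ⟨e, eW, rfl⟩ : γ.val *ᵥ e ∈ W)
      have h2 := congrArg ((γ⁻¹).val *ᵥ ·) hu'
      simp only [Matrix.toLin'_apply, span_cancel'] at h2
      exact absurd (h2 ▸ hu) eN
    · exact (span_core hP.irr _ fun γ hγ => (dE γ hγ).elim Submodule.mem_sup_right
        Submodule.mem_sup_left).resolve_left he
  let Z : Submodule ℂ (Matrix (Fin r) (Fin r) ℂ) :=
    { carrier := {x | ∀ γ ∈ Γ, ∃ c : ℂ, x *ᵥ (γ.val *ᵥ e) = c • (γ.val *ᵥ e)}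
      add_mem' := fun {a b} ha hb γ hγ => by
        obtain ⟨c, h2⟩ := ha γ hγ
        obtain ⟨d, h3⟩ := hb γ hγ
        exact ⟨c + d, by rw [add_mulVec, h2, h3, add_smul]⟩
      zero_mem' := fun γ _ => ⟨0, by rw [zero_mulVec, zero_smul]⟩
      smul_mem' := fun d a ha γ hγ => by
        obtain ⟨c, h2⟩ := ha γ hγ
        exact ⟨d * c, by rw [smul_mulVec, h2, mul_smul]⟩ }
  obtain ⟨π, πW, πN, πr⟩ : ∃ π : Matrix (Fin r) (Fin r) ℂ, (∀ v ∈ W, π *ᵥ v = v) ∧
      (∀ v ∈ N, π *ᵥ v = 0) ∧ ∀ v, π *ᵥ v ∈ W := by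
    refine ⟨LinearMap.toMatrix' (W.subtype ∘ₗ W.projectionOnto N hWN), fun v hv => ?_,
      fun v hv => ?_, fun v => ?_⟩ <;> rw [LinearMap.toMatrix'_mulVec, LinearMap.comp_apply]
    · exact congrArg Subtype.val (Submodule.projectionOnto_apply_left hWN ⟨v, hv⟩)
    · exact congrArg Subtype.val (Submodule.projectionOnto_apply_right hWN ⟨v, hv⟩)
    · exact Subtype.property _
  obtain ⟨c, hπ⟩ := hP Z (fun γ hγ x hx δ hδ => by
      obtain ⟨c, h2⟩ := hx _ (Γ.mul_mem (Γ.inv_mem hγ) hδ)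
      rw [Units.val_mul, ← mulVec_mulVec e] at h2
      exact ⟨c, by rw [← mulVec_mulVec, ← mulVec_mulVec, h2, mulVec_smul, span_cancel]⟩)
    (fun x hx y hy => by
      have h2 := (span_core hP.irr (LinearMap.ker (Matrix.toLin' (x * y - y * x))) (v := e)
        fun γ hγ => by
          obtain ⟨c, h2⟩ := hx γ hγ
          obtain ⟨d, h3⟩ := hy γ hγ
          rw [LinearMap.mem_ker, Matrix.toLin'_apply, sub_mulVec, ← mulVec_mulVec _ x,
            ← mulVec_mulVec _ y, h2, h3, mulVec_smul, mulVec_smul, h2, h3, smul_comm,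
            sub_self]).resolve_left he
      rw [LinearMap.ker_eq_top, LinearEquiv.map_eq_zero_iff] at h2
      exact sub_eq_zero.1 h2)
    π fun γ hγ => (dE γ hγ).elim (fun h => ⟨0, by rw [πN _ h, zero_smul]⟩)
      fun h => ⟨1, by rw [πW _ h, one_smul]⟩
  have hc1 : c = 1 := by
    have h2 := πW e eW
    rw [hπ, smul_mulVec, one_mulVec] at h2
    exact smul_left_injective ℂ he (h2.trans (one_smul ℂ e).symm)
  rw [hc1, one_smul] at hπ
  simp only [hπ, one_mulVec] at πN πr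
  exact (dich U hU).imp (fun h => (Submodule.eq_bot_iff _).2 fun v hv => πN v (h hv))
    fun h => eq_top_iff.2 fun v _ => h (πr v)

/-- Let `B = spn H`, `1 - e ⊗ f ∈ H`, `W = B e`, `N = {v | ∀ b ∈ B, f ⬝ᵥ b v = 0}`. For `γ ∈ Γ`
either `γ W = W` or `γ W ≤ N`; `W ⊓ N` lies in the invariant space
`{v | ∀ γ ∈ Γ, γ v ∈ N}`, which is zero; the `γ W` span. The matrices that are scalar on every `γ W`
form a commutative invariant space that contains the projection onto `W` along `N`. -/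
theorem irr_of_span {Γ H : Subgroup (GLr r)} (hP : PrimT Γ) (hA : OkA H)
    (hf : ∀ γ ∈ Γ, actM γ (spn H) = spn H) : IrrS H := by
  obtain ⟨x, hx, e, f, hfe, hx'⟩ := hA
  have hs : ∀ y ∈ H, y.val ∈ spn H := fun y hy => Submodule.subset_span ⟨y, hy, rfl⟩
  intro U hU
  refine span_main hP (B := spn H) (hs 1 H.one_mem) (fun a ha b hb => ?_) (fun γ hγ b hb => ?_)
    hfe ?_ U fun b hb v hv => ?_
  · have := Submodule.mul_mem_mul ha hb
    rw [spn, Submodule.span_mul_span] at this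
    refine Submodule.span_mono ?_ this
    rintro _ ⟨_, ⟨y, hy, rfl⟩, _, ⟨z, hz, rfl⟩, rfl⟩
    exact ⟨y * z, H.mul_mem hy hz, rfl⟩
  · exact (hf γ hγ).subset ⟨b, hb, rfl⟩
  · have := (spn H).sub_mem (hs 1 H.one_mem) (hs x hx)
    rwa [hx', Units.val_one, sub_sub_cancel] at this
  · induction hb using Submodule.span_induction with
    | mem y hy =>
      obtain ⟨y, hy, rfl⟩ := hy
      exact hU y hy v hv
    | zero => simp
    | add a b _ _ ha hb =>
      rw [add_mulVec]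
      exact U.add_mem ha hb
    | smul c a _ ha =>
      rw [smul_mulVec]
      exact U.smul_mem c ha

/-- Conjugation as a linear map. -/
noncomputable def spanCj (γ : GLr r) :
    Matrix (Fin r) (Fin r) ℂ ≃ₗ[ℂ] Matrix (Fin r) (Fin r) ℂ where
  toFun x := γ.val * x * (γ⁻¹).val
  invFun x := (γ⁻¹).val * x * γ.val
  map_add' a b := by rw [Matrix.mul_add, Matrix.add_mul]
  map_smul' c a := by rw [Matrix.mul_smul, Matrix.smul_mul, RingHom.id_apply]
  left_inv x := by simp only [mul_assoc, Units.inv_mul, mul_one, Units.inv_mul_cancel_left]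
  right_inv x := by simp only [mul_assoc, Units.mul_inv, mul_one, Units.mul_inv_cancel_left]

theorem span_cj (γ : GLr r) (H : Subgroup (GLr r)) :
    spn (cj γ H) = (spn H).map (spanCj γ).toLinearMap := by
  rw [spn, spn, Submodule.map_span, cj, Subgroup.coe_map, Set.image_image, Set.image_image]
  rfl

theorem levA (Mov : Finset (Fin n)) (L0 : List (Fin n)) (g : Fin n → GLr r) :
    Lev Mov L0 g OkA (fun H => Module.finrank ℂ (spn H)) (fun H => (spn H : Set _)) actM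
      (r * r) := by
  have mono : ∀ H H' : Subgroup (GLr r), H ≤ H' → spn H ≤ spn H' := fun H H' h =>
    Submodule.span_mono (Set.image_mono h)
  refine ⟨actM_one, actM_mul, ?_, fun γ H _ => ?_, fun γ H _ => ?_, fun H _ => ?_,
    fun H H' _ _ h => Submodule.finrank_mono (mono H H' h),
    fun H H' _ _ h e => congrArg _ (Submodule.eq_of_le_of_finrank_eq (mono H H' h) e), ?_⟩
  · rintro γ H ⟨x, hx, hx'⟩
    exact ⟨γ * x * γ⁻¹, ⟨x, hx, rfl⟩, hx'.conj (isConj_iff.2 ⟨γ, rfl⟩)⟩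
  · rw [span_cj, LinearEquiv.finrank_map_eq]
  · rw [span_cj]
    rfl
  · simpa [Module.finrank_matrix] using (spn H).finrank_le
  · rintro L₁ A B L₂ h - - - ⟨x, hx, hx'⟩ -
    exact ⟨x, cl_mono (fun a ha => List.mem_append_left B ha) hx, hx'⟩

end Pool.Agent.GR
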