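import Pool.Agent.Lib.MP_aa40d3_nt.GR.Stmt

/-! Primitive Fuchsian systems. -/

open Polynomial Matrix

namespace Pool.Agent.GR

variable {n r : ℕ}

/-- Primitivity: a module of polynomial matrices that is stable under the connection induced on
endomorphisms, `Φ ↦ Δ Φ' - [Δ A, Φ]`, and whose members commute consists of scalar matrices. -/
def Prim (t : Fin n → ℂ) (A : Fin n → Matrix (Fin r) (Fin r) ℂ) : Prop :=
  ∀ W : Submodule ℂ[X] (Matrix (Fin r) (Fin r) ℂ[X]),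
    (∀ Φ ∈ W, dl t • Φ.map derivative - (pm t A * Φ - Φ * pm t A) ∈ W) →
      (∀ Φ ∈ W, ∀ Ψ ∈ W, Φ * Ψ = Ψ * Φ) →
        ∀ Φ ∈ W, ∃ c : ℂ[X], Φ = c • (1 : Matrix (Fin r) (Fin r) ℂ[X])

end Pool.Agent.GR
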